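import Mathlib.Tactic.Ring.RingNF
import Mathlib.GroupTheory.FreeGroup.Basic
import Mathlib.Algebra.Algebra.Basic
import Mathlib.Data.Finsupp.Basic
import Mathlib.LinearAlgebra.BilinearMap
import Mathlib.Tactic.LinearCombination
import Mathlib.Algebra.Group.MinimalAxioms
import Mathlib.Algebra.Field.ZMod
import Mathlib.FieldTheory.Finiteness
import Mathlib.RingTheory.Flat.TorsionFree
import Mathlib.Data.Int.ConditionallyCompleteOrder
import Mathlib.Data.Int.Star
import Mathlib.Algebra.Order.Ring.Star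
import Mathlib.Algebra.Module.StablyFree.Basic
import Mathlib.RingTheory.PicardGroup
import Mathlib.LinearAlgebra.Matrix.FiniteDimensional
import Mathlib.Data.Set.Card.Arithmetic
import Mathlib.RingTheory.SimpleRing.Principal
import Mathlib.RingTheory.Henselian
import Mathlib.RingTheory.RegularLocalRing.Defs
import Mathlib.Tactic.Algebra.Basic

-- ======== part 0: formerly Pool.Agent.MP_702fe9_al.h61.Fox
section MrgPart0

set_option autoImplicit false

namespace Pool.Agent.MP_702fe9_al.H61

abbrev S := Fin 2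
abbrev F := FreeGroup (Fin 2)

/-- shift of a chain of edges by a group element on the right -/
noncomputable def sh (h : F) : ((S × F) →₀ ℤ) →+ ((S × F) →₀ ℤ) :=
  Finsupp.mapDomain.addMonoidHom (fun e => (e.1, e.2 * h))

theorem sh_sh (g h : F) (a : (S × F) →₀ ℤ) : sh h (sh g a) = sh (g * h) a := by
  simp only [sh, Finsupp.mapDomain.addMonoidHom_apply]
  rw [← Finsupp.mapDomain_comp]
  congr 1
  funext e
  simp [mul_assoc]

theorem sh_one (a : (S × F) →₀ ℤ) : sh 1 a = a := by
  simp only [sh, Finsupp.mapDomain.addMonoidHom_apply, mul_one]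
  exact Finsupp.mapDomain_id

@[ext] structure FoxG where
  g : F
  a : (S × F) →₀ ℤ

noncomputable instance : Mul FoxG := ⟨fun x y => ⟨x.g * y.g, y.a + sh y.g x.a⟩⟩
noncomputable instance : One FoxG := ⟨⟨1, 0⟩⟩
noncomputable instance : Inv FoxG := ⟨fun x => ⟨x.g⁻¹, - sh x.g⁻¹ x.a⟩⟩

theorem FoxG.mul_g (x y : FoxG) : (x * y).g = x.g * y.g := rfl
theorem FoxG.mul_a (x y : FoxG) : (x * y).a = y.a + sh y.g x.a := rfl
theorem FoxG.one_g : (1 : FoxG).g = 1 := rfl
theorem FoxG.one_a : (1 : FoxG).a = 0 := rfl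
theorem FoxG.inv_g (x : FoxG) : (x⁻¹).g = x.g⁻¹ := rfl
theorem FoxG.inv_a (x : FoxG) : (x⁻¹).a = - sh x.g⁻¹ x.a := rfl

noncomputable instance : Group FoxG :=
  Group.ofLeftAxioms
    (fun x y z => by
      apply FoxG.ext
      · simp [FoxG.mul_g, mul_assoc]
      · simp only [FoxG.mul_a, FoxG.mul_g, map_add, sh_sh, add_assoc])
    (fun x => by
      apply FoxG.ext
      · simp [FoxG.mul_g, FoxG.one_g]
      · simp [FoxG.mul_a, FoxG.one_a])
    (fun x => by
      apply FoxG.ext
      · simp [FoxG.mul_g, FoxG.one_g, FoxG.inv_g]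
      · simp only [FoxG.mul_a, FoxG.one_a, FoxG.inv_a, map_neg, sh_sh, inv_mul_cancel, sh_one,
          add_neg_cancel])

noncomputable def foxHom : F →* FoxG :=
  FreeGroup.lift (fun s => ⟨FreeGroup.of s, Finsupp.single (s, 1) 1⟩)

noncomputable def foxFst : FoxG →* F where
  toFun x := x.g
  map_one' := rfl
  map_mul' _ _ := rfl

theorem foxHom_g (g : F) : (foxHom g).g = g := by
  have : foxFst.comp foxHom = MonoidHom.id F := by
    ext s
    simp [foxHom, foxFst]
  exact DFunLike.congr_fun this g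

/-- the Fox derivative -/
noncomputable def D (g : F) : (S × F) →₀ ℤ := (foxHom g).a

theorem D_mul (g h : F) : D (g * h) = D h + sh h (D g) := by
  simp only [D, map_mul, FoxG.mul_a, foxHom_g]

theorem D_of (s : S) : D (FreeGroup.of s) = Finsupp.single (s, 1) 1 := by
  simp [D, foxHom]

theorem D_one : D 1 = 0 := by
  simp only [D, map_one, FoxG.one_a]

section ring
variable {R : Type} [CommRing R]

/-- evaluation of a cochain on a translated chain -/
noncomputable def ev (a : (S × F) →₀ ℤ) (χ : S × F → R) (y : F) : R :=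
  a.sum (fun e n => (n : R) * χ (e.1, e.2 * y))

theorem ev_add (a b : (S × F) →₀ ℤ) (χ : S × F → R) (y : F) :
    ev (a + b) χ y = ev a χ y + ev b χ y := by
  unfold ev
  rw [Finsupp.sum_add_index']
  · intro e; simp
  · intro e m n; push_cast; ring

theorem ev_sh (a : (S × F) →₀ ℤ) (h : F) (χ : S × F → R) (y : F) :
    ev (sh h a) χ y = ev a χ (h * y) := by
  unfold ev
  simp only [sh, Finsupp.mapDomain.addMonoidHom_apply]
  rw [Finsupp.sum_mapDomain_index]
  · simp [mul_assoc]
  · intro e; simp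
  · intro e m n; push_cast; ring

/-- integral of the cochain along the path from `y` to `g * y` -/
noncomputable def I (g : F) : (S × F → R) →ₗ[R] (F → R) where
  toFun χ y := ev (D g) χ y
  map_add' χ ψ := by
    funext y
    simp only [ev, Pi.add_apply, mul_add, Finsupp.sum_add]
  map_smul' c χ := by
    funext y
    simp only [ev, Pi.smul_apply, smul_eq_mul, RingHom.id_apply, Finsupp.mul_sum]
    refine Finsupp.sum_congr (fun e _ => by ring)

theorem I_apply (g : F) (χ : S × F → R) (y : F) :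
    I g χ y = ∑ e ∈ (D g).support, (D g e : R) * χ (e.1, e.2 * y) := rfl

theorem I_mul (g h : F) (χ : S × F → R) (y : F) :
    I (g * h) χ y = I h χ y + I g χ (h * y) := by
  change ev (D (g * h)) χ y = ev (D h) χ y + ev (D g) χ (h * y)
  rw [D_mul, ev_add, ev_sh]

theorem I_one (χ : S × F → R) (y : F) : I 1 χ y = 0 := by
  change ev (D 1) χ y = 0
  simp [D_one, ev]

theorem I_of (s : S) (χ : S × F → R) (y : F) : I (FreeGroup.of s) χ y = χ (s, y) := by
  change ev (D _) χ y = _
  simp [D_of, ev]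

theorem I_inv (g : F) (χ : S × F → R) (y : F) : I g⁻¹ χ y = - I g χ (g⁻¹ * y) := by
  have := I_mul g g⁻¹ χ y
  rw [mul_inv_cancel, I_one] at this
  linear_combination -this

/-- coboundary of a function -/
def d : (F → R) →ₗ[R] (S × F → R) where
  toFun A e := A (FreeGroup.of e.1 * e.2) - A e.2
  map_add' A B := by funext e; simp only [Pi.add_apply]; ring
  map_smul' c A := by funext e; simp only [Pi.smul_apply, smul_eq_mul, RingHom.id_apply]; ring

theorem d_apply (A : F → R) (e : S × F) : d A e = A (FreeGroup.of e.1 * e.2) - A e.2 := rfl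

theorem I_d (g : F) (A : F → R) (y : F) : I g (d A) y = A (g * y) - A y := by
  induction g using FreeGroup.induction_on generalizing y with
  | C1 => simp [I_one]
  | of s => exact I_of s _ y
  | inv_of s ih =>
    rw [I_inv, ih]
    simp
  | mul g h ihg ihh =>
    rw [I_mul, ihg, ihh, mul_assoc]
    ring

/-- the potential of a cochain -/
noncomputable def pot (χ : S × F → R) (f : F) : R := I f χ 1

theorem d_pot (χ : S × F → R) : d (pot χ) = χ := by
  funext e
  rw [d_apply]
  unfold pot
  rw [I_mul, I_of]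
  simp

theorem I_eq_pot (g : F) (χ : S × F → R) (y : F) : I g χ y = pot χ (g * y) - pot χ y := by
  conv_lhs => rw [← d_pot χ]
  exact I_d g _ y

theorem pot_one (χ : S × F → R) : pot χ 1 = 0 := I_one χ 1

/-- right translation -/
def Rt {ι : Type} (g : F) : (ι × F → R) →ₗ[R] (ι × F → R) where
  toFun f e := f (e.1, e.2 * g)
  map_add' _ _ := rfl
  map_smul' _ _ := rfl

theorem Rt_apply {ι : Type} (g : F) (f : ι × F → R) (e : ι × F) :
    Rt g f e = f (e.1, e.2 * g) := rfl

theorem Rt_Rt {ι : Type} (g h : F) (f : ι × F → R) : Rt g (Rt h f) = Rt (g * h) f := by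
  funext e; simp [Rt_apply, mul_assoc]

theorem Rt_one {ι : Type} (f : ι × F → R) : Rt 1 f = f := by
  funext e; simp [Rt_apply]

/-- multiplication by a function of the base point -/
def mulF {ι : Type} (A : F → R) : (ι × F → R) →ₗ[R] (ι × F → R) where
  toFun f e := A e.2 * f e
  map_add' _ _ := by funext e; simp [mul_add]
  map_smul' c f := by funext e; simp only [Pi.smul_apply, smul_eq_mul, RingHom.id_apply]; ring

theorem mulF_apply {ι : Type} (A : F → R) (f : ι × F → R) (e : ι × F) :
    mulF A f e = A e.2 * f e := rfl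

theorem Rt_mulF {ι : Type} (g : F) (A : F → R) (f : ι × F → R) :
    Rt g (mulF A f) = mulF (fun x => A (x * g)) (Rt g f) := rfl

theorem I_Rt (g h : F) (χ : S × F → R) (y : F) : I g (Rt h χ) y = I g χ (y * h) := by
  simp only [I_apply, Rt_apply, mul_assoc]

/-- the second iterated integral -/
noncomputable def T (g : F) : (S × F → R) →ₗ[R] (S × F → R) →ₗ[R] (F → R) :=
  LinearMap.mk₂ R
    (fun α β y => ∑ e ∈ (D g).support, (D g e : R) * (I e.2 α y * β (e.1, e.2 * y)))
    (fun α α' β => by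
      funext y
      simp only [map_add, Pi.add_apply, ← Finset.sum_add_distrib]
      exact Finset.sum_congr rfl (fun e _ => by ring))
    (fun c α β => by
      funext y
      simp only [map_smul, Pi.smul_apply, smul_eq_mul, Finset.mul_sum]
      exact Finset.sum_congr rfl (fun e _ => by ring))
    (fun α β β' => by
      funext y
      simp only [Pi.add_apply, ← Finset.sum_add_distrib]
      exact Finset.sum_congr rfl (fun e _ => by ring))
    (fun c α β => by
      funext y
      simp only [Pi.smul_apply, smul_eq_mul, Finset.mul_sum]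
      exact Finset.sum_congr rfl (fun e _ => by ring))

theorem T_apply (g : F) (α β : S × F → R) (y : F) :
    T g α β y = ∑ e ∈ (D g).support, (D g e : R) * (I e.2 α y * β (e.1, e.2 * y)) := rfl

theorem T_Rt (g h : F) (α β : S × F → R) (y : F) :
    T g (Rt h α) (Rt h β) y = T g α β (y * h) := by
  simp only [T_apply, I_Rt, Rt_apply, mul_assoc]

theorem I_mulF (g : F) (A : F → R) (β : S × F → R) (y : F) :
    I g (mulF A β) y = T g (d A) β y + A y * I g β y := by
  simp only [T_apply, I_d]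
  simp only [I_apply, mulF_apply, Finset.mul_sum, ← Finset.sum_add_distrib]
  exact Finset.sum_congr rfl (fun e _ => by ring)

theorem T_mul (g h : F) (α β : S × F → R) (y : F) :
    T (g * h) α β y = T h α β y + T g α β (h * y) + I h α y * I g β (h * y) := by
  have h1 := I_mulF (g * h) (pot α) β y
  have h2 := I_mulF h (pot α) β y
  have h3 := I_mulF g (pot α) β (h * y)
  rw [d_pot] at h1 h2 h3
  rw [I_mul, I_mul] at h1
  rw [I_eq_pot h α y]
  linear_combination -h1 + h2 + h3

theorem T_one (α β : S × F → R) (y : F) : T 1 α β y = 0 := by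
  simp [T_apply, D_one]

theorem I_pow (w : F) (n : ℕ) (χ : S × F → R) (y : F) :
    I (w ^ n) χ y = ∑ i ∈ Finset.range n, I w χ (w ^ i * y) := by
  induction n with
  | zero => simp [I_one]
  | succ n ih => rw [pow_succ', I_mul, ih, Finset.sum_range_succ]

theorem T_pow (w : F) (n : ℕ) (α β : S × F → R) (y : F) :
    T (w ^ n) α β y = ∑ i ∈ Finset.range n,
      (T w α β (w ^ i * y) + I (w ^ i) α y * I w β (w ^ i * y)) := by
  induction n with
  | zero => simp [T_one]
  | succ n ih => rw [pow_succ', T_mul, ih, Finset.sum_range_succ]; ring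

theorem I_cast {R' : Type} [CommRing R'] (f : R →+* R') (g : F) (c : S × F → R) (y : F) :
    I g (fun e => f (c e)) y = f (I g c y) := by
  simp only [I_apply, map_sum, map_mul, map_intCast]

end ring

end Pool.Agent.MP_702fe9_al.H61

end MrgPart0

-- ======== part 1: formerly Pool.Agent.MP_702fe9_al.h61.Lin
section MrgPart1

set_option autoImplicit false

namespace Pool.Agent.MP_702fe9_al.H61

open Module

variable {p : ℕ} [hp : Fact p.Prime]

section fv
variable {V : Type} [AddCommGroup V] [Module (ZMod p) V]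

theorem finite_of_fd (W : Type) [AddCommGroup W] [Module (ZMod p) W]
    [Module.Finite (ZMod p) W] : Finite W :=
  Module.finite_of_finite (ZMod p)

theorem card_fd (W : Type) [AddCommGroup W] [Module (ZMod p) W]
    [Module.Finite (ZMod p) W] : Nat.card W = p ^ finrank (ZMod p) W := by
  rw [Module.natCard_eq_pow_finrank (K := ZMod p), Nat.card_zmod]

/-- a finite `p`-group of linear maps fixes a nonzero vector -/
theorem FV0 {G : Type} [Group G] (ρ : G →* Module.End (ZMod p) V)
    (W : Submodule (ZMod p) V) [Module.Finite (ZMod p) W]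
    (hinv : ∀ g, ∀ v ∈ W, ρ g v ∈ W) (hpp : ∀ g, ∃ a : ℕ, ∀ v ∈ W, ρ (g ^ (p ^ a)) v = v)
    (hW : W ≠ ⊥) : ∃ v ∈ W, v ≠ 0 ∧ ∀ g, ρ g v = v := by
  have : Finite W := finite_of_fd (p := p) W
  let φ0 : G →* Function.End W :=
    { toFun := fun g v => ⟨ρ g v, hinv g v v.2⟩
      map_one' := by funext v; apply Subtype.ext; simp; rfl
      map_mul' := fun g h => by funext v; apply Subtype.ext; simp; rfl }
  let φ : G →* Equiv.Perm W := φ0.toHomPerm
  have hφ : ∀ g (v : W), ((φ g v : W) : V) = ρ g v := fun g v => rfl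
  have hP : IsPGroup p φ.range := by
    rintro ⟨x, g, rfl⟩
    obtain ⟨a, ha⟩ := hpp g
    refine ⟨a, ?_⟩
    apply Subtype.ext
    simp only [SubmonoidClass.coe_pow, OneMemClass.coe_one]
    rw [← map_pow]
    ext v
    rw [hφ]
    exact ha v v.2
  have hcard : p ∣ Nat.card W := by
    rw [card_fd (p := p)]
    apply dvd_pow_self
    intro h0
    exact hW (Submodule.finrank_eq_zero.mp h0)
  have h0 : (0 : W) ∈ MulAction.fixedPoints φ.range W := by
    rintro ⟨x, g, rfl⟩
    apply Subtype.ext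
    change ((φ g 0 : W) : V) = _
    rw [hφ]
    simp
  obtain ⟨b, hb, hb0⟩ := hP.exists_fixed_point_of_prime_dvd_card_of_fixed_point W hcard h0
  refine ⟨b, b.2, ?_, ?_⟩
  · intro h
    apply hb0
    exact (Subtype.ext h).symm
  · intro g
    have := hb ⟨φ g, g, rfl⟩
    have h2 : ((φ g b : W) : V) = b := congrArg Subtype.val this
    rwa [hφ] at h2

theorem FVrel {G : Type} [Group G] (ρ : G →* Module.End (ZMod p) V) (N : Subgroup G)
    (W S : Submodule (ZMod p) V) [Module.Finite (ZMod p) W]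
    (hinv : ∀ g ∈ N, ∀ v ∈ W, ρ g v ∈ W) (hS : ∀ g ∈ N, ∀ v ∈ S, ρ g v ∈ S)
    (hpp : ∀ g ∈ N, ∃ a : ℕ, ∀ v ∈ W, ρ (g ^ (p ^ a)) v = v)
    (hW : ¬ W ≤ S) : ∃ v ∈ W, v ∉ S ∧ ∀ g ∈ N, ρ g v - v ∈ S := by
  let ρ' : N →* Module.End (ZMod p) (V ⧸ S) :=
    { toFun := fun g => S.mapQ S (ρ g) (fun v hv => hS g g.2 v hv)
      map_one' := by ext v; simp
      map_mul' := fun g h => by ext v; simp }
  have hρ' : ∀ (g : N) (v : V), ρ' g (S.mkQ v) = S.mkQ (ρ g v) := fun g v => rfl
  obtain ⟨v, hv, hv0, hfix⟩ := FV0 ρ' (W.map S.mkQ)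
    (by
      rintro g _ ⟨v, hv, rfl⟩
      exact ⟨ρ g v, hinv g g.2 v hv, (hρ' g v).symm⟩)
    (by
      intro g
      obtain ⟨a, ha⟩ := hpp g g.2
      refine ⟨a, ?_⟩
      rintro _ ⟨v, hv, rfl⟩
      rw [hρ']
      simp only [SubmonoidClass.coe_pow]
      rw [ha v hv])
    (by
      intro h
      apply hW
      intro v hv
      have : S.mkQ v ∈ W.map S.mkQ := ⟨v, hv, rfl⟩
      rw [h] at this
      simpa using this)
  obtain ⟨w, hw, rfl⟩ := hv
  refine ⟨w, hw, ?_, ?_⟩
  · intro h
    apply hv0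
    simpa using h
  · intro g hg
    have := hfix ⟨g, hg⟩
    rw [hρ'] at this
    exact (Submodule.Quotient.eq S).mp this

/-- Nakayama lemma for `p`-group actions -/
theorem NAK {G : Type} [Group G] (ρ : G →* Module.End (ZMod p) V) (N : Subgroup G)
    (W : Submodule (ZMod p) V) [Module.Finite (ZMod p) W]
    (hinv : ∀ g ∈ N, ∀ v ∈ W, ρ g v ∈ W)
    (hpp : ∀ g ∈ N, ∃ a : ℕ, ∀ v ∈ W, ρ (g ^ (p ^ a)) v = v)
    (S : Submodule (ZMod p) V) (hSW : S ≤ W) (hS : ∀ g ∈ N, ∀ v ∈ S, ρ g v ∈ S)
    (hgen : W ≤ S ⊔ Submodule.span (ZMod p) {v | ∃ g ∈ N, ∃ w ∈ W, v = ρ g w - w}) :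
    W ≤ S := by
  have key : ∀ n : ℕ, ∀ S : Submodule (ZMod p) V, S ≤ W → (∀ g ∈ N, ∀ v ∈ S, ρ g v ∈ S) →
      W ≤ S ⊔ Submodule.span (ZMod p) {v | ∃ g ∈ N, ∃ w ∈ W, v = ρ g w - w} →
      finrank (ZMod p) W ≤ finrank (ZMod p) S + n → W ≤ S := by
    intro n
    induction n with
    | zero =>
      intro S hSW _ _ hn
      exact (Submodule.eq_of_le_of_finrank_le hSW (by simpa using hn)).ge
    | succ n ih =>
      intro S hSW hS hgen hn
      by_contra hW
      obtain ⟨v, hv, hvS, hfix⟩ := FVrel ρ N W S hinv hS hpp hW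
      have hS'W : S ⊔ Submodule.span (ZMod p) {v} ≤ W := by
        refine sup_le hSW ?_
        rw [Submodule.span_le]
        simpa using hv
      have : Module.Finite (ZMod p) (S ⊔ Submodule.span (ZMod p) {v} : Submodule (ZMod p) V) :=
        Submodule.finiteDimensional_of_le hS'W
      have hlt : finrank (ZMod p) S <
          finrank (ZMod p) (S ⊔ Submodule.span (ZMod p) {v} : Submodule (ZMod p) V) := by
        apply Submodule.finrank_lt_finrank_of_lt
        refine lt_of_le_of_ne le_sup_left (fun h => hvS ?_)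
        rw [h]
        exact Submodule.mem_sup_right (Submodule.mem_span_singleton_self v)
      have hW' : W ≤ S ⊔ Submodule.span (ZMod p) {v} := by
        apply ih _ hS'W
        · intro g hg x hx
          obtain ⟨s, hs, y, hy, rfl⟩ := Submodule.mem_sup.mp hx
          obtain ⟨c, rfl⟩ := Submodule.mem_span_singleton.mp hy
          have : ρ g (s + c • v) = (ρ g s + c • (ρ g v - v)) + c • v := by
            simp only [map_add, map_smul, smul_sub]; abel
          rw [this]
          exact Submodule.add_mem_sup (S.add_mem (hS g hg s hs) (S.smul_mem c (hfix g hg))) hy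
        · exact hgen.trans (sup_le_sup_right le_sup_left _)
        · omega
      apply hW
      refine hgen.trans (sup_le le_rfl ?_)
      rw [Submodule.span_le]
      rintro _ ⟨g, hg, w, hw, rfl⟩
      obtain ⟨s, hs, y, hy, rfl⟩ := Submodule.mem_sup.mp (hW' hw)
      obtain ⟨c, rfl⟩ := Submodule.mem_span_singleton.mp hy
      have : ρ g (s + c • v) - (s + c • v) = (ρ g s - s) + c • (ρ g v - v) := by
        simp only [map_add, map_smul, smul_sub]; abel
      rw [this]
      exact S.add_mem (S.sub_mem (hS g hg s hs) hs) (S.smul_mem c (hfix g hg))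
  exact key (finrank (ZMod p) W) S hSW hS hgen (by omega)

/-- invariant subspaces of functions on a transitive set contain a nonzero constant -/
theorem FVQ {G Q : Type} [Group G] [MulAction G Q] [MulAction.IsPretransitive G Q] [Finite Q]
    [Module.Finite (ZMod p) V]
    (hpp : ∀ g : G, ∃ a : ℕ, ∀ q : Q, g ^ (p ^ a) • q = q)
    (K : Submodule (ZMod p) (Q → V)) (hK : K ≠ ⊥)
    (hinv : ∀ g : G, ∀ m ∈ K, (fun q => m (g • q)) ∈ K) :
    ∃ e : V, e ≠ 0 ∧ (fun _ : Q => e) ∈ K := by
  let ρ : G →* Module.End (ZMod p) (Q → V) :=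
    { toFun := fun g => LinearMap.funLeft (ZMod p) V (fun q => g⁻¹ • q)
      map_one' := by ext m q; simp
      map_mul' := fun g h => by ext m q; simp [mul_smul] }
  have hρ : ∀ g m q, ρ g m q = m (g⁻¹ • q) := fun g m q => rfl
  obtain ⟨m, hm, hm0, hfix⟩ := FV0 ρ K (fun g m hm => hinv g⁻¹ m hm)
    (by
      intro g
      obtain ⟨a, ha⟩ := hpp g⁻¹
      refine ⟨a, fun m _ => ?_⟩
      funext q
      rw [hρ, ← inv_pow, ha]) hK
  obtain ⟨q0, hq0⟩ := Function.ne_iff.mp hm0
  refine ⟨m q0, hq0, ?_⟩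
  have : (fun _ : Q => m q0) = m := by
    funext q
    obtain ⟨g, hg⟩ := MulAction.exists_smul_eq G q q0
    have := congrFun (hfix g⁻¹) q
    rw [hρ, inv_inv, hg] at this
    exact this
  rw [this]
  exact hm

end fv

section rank
variable {K : Type} [Field K] {V V' X : Type} [AddCommGroup V] [Module K V]
  [AddCommGroup V'] [Module K V'] [AddCommGroup X] [Module K X]

theorem fr_map_add_ker (f : V →ₗ[K] X) (A : Submodule K V) [Module.Finite K A] :
    finrank K (A.map f) + finrank K (A ⊓ LinearMap.ker f : Submodule K V) = finrank K A := by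
  have h1 := LinearMap.finrank_range_add_finrank_ker (f.domRestrict A)
  rw [LinearMap.range_domRestrict, LinearMap.ker_domRestrict] at h1
  rw [← h1]
  congr 1
  have : (A ⊓ LinearMap.ker f : Submodule K V) =
      (Submodule.comap A.subtype (LinearMap.ker f)).map A.subtype := by
    rw [Submodule.map_comap_subtype]
  rw [this, Submodule.finrank_map_subtype_eq]

theorem fr_mono {A B : Submodule K V} [Module.Finite K B] (h : A ≤ B) :
    finrank K A ≤ finrank K B := Submodule.finrank_mono h

theorem fr_le_of_inj (f : V →ₗ[K] X) {A : Submodule K V} {B : Submodule K X}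
    [Module.Finite K B] (hf : ∀ a ∈ A, f a = 0 → a = 0) (h : ∀ a ∈ A, f a ∈ B) :
    finrank K A ≤ finrank K B := by
  apply LinearMap.finrank_le_finrank_of_injective (f := f.restrict h)
  rw [← LinearMap.ker_eq_bot, eq_bot_iff]
  intro a ha
  have : f a = 0 := congrArg Subtype.val ha
  exact Subtype.ext (hf a a.2 this)

/-- rank of a bilinear form restricted to a pair of subspaces -/
noncomputable def rk (B : V →ₗ[K] V' →ₗ[K] K) (A : Submodule K V) (A' : Submodule K V') : ℕ :=
  finrank K (A.map (A'.dualRestrict ∘ₗ B))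

/-- left radical -/
def rad (B : V →ₗ[K] V' →ₗ[K] K) (A : Submodule K V) (A' : Submodule K V') : Submodule K V :=
  A ⊓ LinearMap.ker (A'.dualRestrict ∘ₗ B)

theorem mem_rad {B : V →ₗ[K] V' →ₗ[K] K} {A : Submodule K V} {A' : Submodule K V'} {a : V} :
    a ∈ rad B A A' ↔ a ∈ A ∧ ∀ b ∈ A', B a b = 0 := by
  simp only [rad, Submodule.mem_inf, LinearMap.mem_ker, LinearMap.comp_apply]
  refine and_congr_right (fun _ => ?_)
  constructor
  · intro h b hb
    exact LinearMap.congr_fun h ⟨b, hb⟩
  · intro h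
    ext b
    exact h b b.2

theorem rad_le (B : V →ₗ[K] V' →ₗ[K] K) (A : Submodule K V) (A' : Submodule K V') :
    rad B A A' ≤ A := inf_le_left

theorem rk_add_rad (B : V →ₗ[K] V' →ₗ[K] K) (A : Submodule K V) (A' : Submodule K V')
    [Module.Finite K A] : rk B A A' + finrank K (rad B A A') = finrank K A :=
  fr_map_add_ker _ A

theorem rk_left (B : V →ₗ[K] V' →ₗ[K] K) {A A0 : Submodule K V} (A' : Submodule K V')
    [Module.Finite K A] (h : A0 ≤ A) {c : ℕ} (hc : finrank K A ≤ finrank K A0 + c) :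
    rk B A A' ≤ rk B A0 A' + c := by
  have : Module.Finite K A0 := Submodule.finiteDimensional_of_le h
  have : Module.Finite K (rad B A A') := Submodule.finiteDimensional_of_le (rad_le B A A')
  have h1 := rk_add_rad B A A'
  have h2 := rk_add_rad B A0 A'
  have h3 : finrank K (rad B A0 A') ≤ finrank K (rad B A A') :=
    fr_mono (inf_le_inf_right _ h)
  omega

theorem rk_mono_left (B : V →ₗ[K] V' →ₗ[K] K) {A A0 : Submodule K V} (A' : Submodule K V')
    [Module.Finite K A] (h : A0 ≤ A) : rk B A0 A' ≤ rk B A A' :=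
  fr_mono (Submodule.map_mono h)

theorem rk_right (B : V →ₗ[K] V' →ₗ[K] K) (A : Submodule K V) {A' A0 : Submodule K V'}
    [Module.Finite K A] [Module.Finite K A'] (h : A0 ≤ A') {c : ℕ}
    (hc : finrank K A' ≤ finrank K A0 + c) :
    rk B A A' ≤ rk B A A0 + c := by
  have : Module.Finite K A0 := Submodule.finiteDimensional_of_le h
  let res : Module.Dual K A' →ₗ[K] Module.Dual K A0 := (Submodule.inclusion h).dualMap
  have hres : Function.Surjective res :=
    LinearMap.dualMap_surjective_of_injective (Submodule.inclusion_injective h)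
  have h1 := LinearMap.finrank_range_add_finrank_ker res
  rw [LinearMap.range_eq_top.mpr hres, finrank_top, Subspace.dual_finrank_eq,
    Subspace.dual_finrank_eq] at h1
  have h2 := fr_map_add_ker res (A.map (A'.dualRestrict ∘ₗ B))
  have h3 : (A.map (A'.dualRestrict ∘ₗ B)).map res = A.map (A0.dualRestrict ∘ₗ B) := by
    rw [← Submodule.map_comp]
    rfl
  rw [h3] at h2
  have h4 : finrank K ((A.map (A'.dualRestrict ∘ₗ B)) ⊓ LinearMap.ker res :
      Submodule K (Module.Dual K A')) ≤ finrank K (LinearMap.ker res) := fr_mono inf_le_right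
  unfold rk
  omega

theorem rk_congr {B B' : V →ₗ[K] V' →ₗ[K] K} {A : Submodule K V} {A' : Submodule K V'}
    [Module.Finite K A] (h : ∀ a ∈ A, ∀ b ∈ A', B a b = B' a b) : rk B A A' = rk B' A A' := by
  have h1 := rk_add_rad B A A'
  have h2 := rk_add_rad B' A A'
  have : rad B A A' = rad B' A A' := by
    ext a
    simp only [mem_rad]
    refine and_congr_right (fun ha => ?_)
    exact forall₂_congr (fun b hb => by rw [h a ha b hb])
  rw [this] at h1
  omega

theorem rk_ge_of_inj (B : V →ₗ[K] V' →ₗ[K] K) (A : Submodule K V) (A' : Submodule K V')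
    [Module.Finite K A] (Ψ : X →ₗ[K] V) (hΨ : ∀ x, Ψ x ∈ A)
    (hinj : ∀ x, (∀ b ∈ A', B (Ψ x) b = 0) → x = 0) : finrank K X ≤ rk B A A' := by
  have := fr_le_of_inj ((A'.dualRestrict ∘ₗ B) ∘ₗ Ψ) (A := ⊤)
    (B := A.map (A'.dualRestrict ∘ₗ B))
    (fun x _ hx => hinj x (fun b hb => LinearMap.congr_fun hx ⟨b, hb⟩))
    (fun x _ => ⟨Ψ x, hΨ x, rfl⟩)
  rwa [finrank_top] at this

theorem exists_of_rk_pos {B : V →ₗ[K] V' →ₗ[K] K} {A : Submodule K V} {A' : Submodule K V'}
    [Module.Finite K A] (h : 0 < rk B A A') : ∃ a ∈ A, ∃ b ∈ A', B a b ≠ 0 := by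
  by_contra hc
  push Not at hc
  have h1 := rk_add_rad B A A'
  have : rad B A A' = A := le_antisymm (rad_le B A A') (fun a ha => mem_rad.mpr ⟨ha, hc a ha⟩)
  rw [this] at h1
  omega

theorem fr_inf_finset {ι : Type} (A : Submodule K V) [Module.Finite K A] (P : ι → Submodule K V)
    (r : ℕ) (hP : ∀ i, P i ≤ A) (hr : ∀ i, finrank K A ≤ finrank K (P i) + r) (s : Finset ι) :
    finrank K A ≤ finrank K (A ⊓ s.inf P : Submodule K V) + s.card * r := by
  classical
  induction s using Finset.induction_on with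
  | empty => rw [Finset.inf_empty, inf_top_eq]; simp
  | insert i s hi ih =>
    rw [Finset.inf_insert, Finset.card_insert_of_notMem hi]
    have e1 : (A ⊓ (P i ⊓ s.inf P) : Submodule K V) = P i ⊓ (A ⊓ s.inf P) := by
      rw [← inf_assoc, ← inf_assoc, inf_comm A]
    have : Module.Finite K (P i) := Submodule.finiteDimensional_of_le (hP i)
    have : Module.Finite K (A ⊓ s.inf P : Submodule K V) :=
      Submodule.finiteDimensional_of_le inf_le_left
    have h1 := Submodule.finrank_sup_add_finrank_inf_eq (P i) (A ⊓ s.inf P)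
    have h2 : finrank K (P i ⊔ (A ⊓ s.inf P) : Submodule K V) ≤ finrank K A :=
      fr_mono (sup_le (hP i) inf_le_left)
    have h3 := hr i
    rw [e1, add_mul]
    omega

/-- a functional killing `S` and not a given vector -/
theorem exists_dual {S : Submodule K V} {v : V} (hv : v ∉ S) :
    ∃ z : Module.Dual K V, z v ≠ 0 ∧ ∀ s ∈ S, z s = 0 := by
  obtain ⟨z, hz, hz'⟩ := Submodule.exists_dual_map_eq_bot_of_notMem hv inferInstance
  refine ⟨z, hz, fun s hs => ?_⟩
  have : z s ∈ S.map z := ⟨s, hs, rfl⟩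
  rw [hz'] at this
  simpa using this

/-- a functional on `J` vanishing on the kernel of `g` factors through `g` -/
theorem exists_factor (g : V →ₗ[K] X) (e : V →ₗ[K] K) (J : Submodule K V)
    (h : ∀ b ∈ J, g b = 0 → e b = 0) : ∃ z : Module.Dual K X, ∀ b ∈ J, z (g b) = e b := by
  have h1 : e.domRestrict J ∈ (LinearMap.ker (g.domRestrict J)).dualAnnihilator := by
    rw [Submodule.mem_dualAnnihilator]
    intro b hb
    exact h b b.2 hb
  rw [← LinearMap.range_dualMap_eq_dualAnnihilator_ker] at h1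
  obtain ⟨z, hz⟩ := h1
  exact ⟨z, fun b hb => LinearMap.congr_fun hz ⟨b, hb⟩⟩

theorem exists_section (f : V →ₗ[K] X) (A : Submodule K V) (W : Submodule K X)
    (h : W ≤ A.map f) : ∃ s : W →ₗ[K] V, ∀ w : W, s w ∈ A ∧ f (s w) = w := by
  let g : (A ⊓ W.comap f : Submodule K V) →ₗ[K] W := f.restrict (fun a ha => ha.2)
  have hg : LinearMap.range g = ⊤ := by
    rw [eq_top_iff]
    rintro ⟨w, hw⟩ _
    obtain ⟨a, ha, rfl⟩ := h hw
    exact ⟨⟨a, ha, hw⟩, rfl⟩
  obtain ⟨s, hs⟩ := g.exists_rightInverse_of_surjective hg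
  refine ⟨(Submodule.subtype _) ∘ₗ s, fun w => ⟨(s w).2.1, ?_⟩⟩
  exact congrArg Subtype.val (LinearMap.congr_fun hs w)

theorem exists_compl_sub {A B : Submodule K V} [Module.Finite K A] (h : B ≤ A) :
    ∃ T : Submodule K V, T ≤ A ∧ A ≤ B ⊔ T ∧ B ⊓ T = ⊥ ∧
      finrank K T + finrank K B = finrank K A := by
  obtain ⟨C, hC⟩ := B.exists_isCompl
  have h1 : B ⊔ (C ⊓ A) = A := by
    rw [← sup_inf_assoc_of_le _ h, hC.sup_eq_top, top_inf_eq]
  have h2 : B ⊓ (C ⊓ A) = ⊥ := by
    rw [← inf_assoc, hC.inf_eq_bot, bot_inf_eq]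
  have : Module.Finite K B := Submodule.finiteDimensional_of_le h
  have : Module.Finite K (C ⊓ A : Submodule K V) := Submodule.finiteDimensional_of_le inf_le_right
  have h3 := Submodule.finrank_sup_add_finrank_inf_eq B (C ⊓ A)
  rw [h1, h2, finrank_bot] at h3
  exact ⟨C ⊓ A, inf_le_right, h1.ge, h2, by omega⟩

end rank

section count
variable {V X : Type} [AddCommGroup V] [Module (ZMod p) V] [AddCommGroup X] [Module (ZMod p) X]

theorem card_fiber (f : V →ₗ[ZMod p] X) (A : Submodule (ZMod p) V) [Module.Finite (ZMod p) A]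
    (w : X) {r : ℕ} (hr : r ≤ finrank (ZMod p) (A.map f)) :
    {a : A | f a = w}.ncard * p ^ r ≤ Nat.card A := by
  have : Finite A := finite_of_fd (p := p) A
  have : Module.Finite (ZMod p) (A ⊓ LinearMap.ker f : Submodule (ZMod p) V) :=
    Submodule.finiteDimensional_of_le inf_le_left
  have : Finite (A ⊓ LinearMap.ker f : Submodule (ZMod p) V) := finite_of_fd (p := p) _
  have h1 : {a : A | f a = w}.ncard ≤ Nat.card (A ⊓ LinearMap.ker f : Submodule (ZMod p) V) := by
    by_cases hne : {a : A | f a = w}.Nonempty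
    · obtain ⟨a0, ha0⟩ := hne
      rw [← Nat.card_coe_set_eq]
      refine Nat.card_le_card_of_injective
        (fun a : {a : A | f a = w} => (⟨(a.1 : V) - a0, A.sub_mem a.1.2 a0.2, ?_⟩ :
          (A ⊓ LinearMap.ker f : Submodule (ZMod p) V))) ?_
      · have h1 : f a.1 = w := a.2
        have h2 : f a0 = w := ha0
        simp [h1, h2]
      · intro a b hab
        have : (a.1 : V) - a0 = b.1 - a0 := congrArg Subtype.val hab
        exact Subtype.ext (Subtype.ext (sub_left_injective this))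
    · rw [Set.not_nonempty_iff_eq_empty.mp hne]
      simp
  rw [card_fd (p := p)] at h1
  rw [card_fd (p := p), ← fr_map_add_ker f A, add_comm, pow_add]
  exact Nat.mul_le_mul h1 (Nat.pow_le_pow_right hp.out.pos hr)

theorem generic {ι : Type} [Finite ι] (h3 : 3 ≤ p) (A H : Submodule (ZMod p) V)
    [Module.Finite (ZMod p) A] (hH : ¬ A ≤ H) {h : ℕ} (hι : Nat.card ι ≤ p ^ h)
    (f : ι → V →ₗ[ZMod p] X) (w1 w2 : ι → X)
    (hf : ∀ i, h + 2 ≤ finrank (ZMod p) (A.map (f i))) :
    ∃ a ∈ A, a ∉ H ∧ ∀ i, f i a ≠ w1 i ∧ f i a ≠ w2 i := by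
  classical
  have : Finite A := finite_of_fd (p := p) A
  have := Fintype.ofFinite ι
  by_contra hc
  push Not at hc
  let B0 : Set A := {a | H.mkQ a = 0}
  let B1 : ι → Set A := fun i => {a | f i a = w1 i}
  let B2 : ι → Set A := fun i => {a | f i a = w2 i}
  have hcov : (Set.univ : Set A) ⊆ B0 ∪ ((⋃ i ∈ (Finset.univ : Finset ι), B1 i) ∪
      (⋃ i ∈ (Finset.univ : Finset ι), B2 i)) := by
    intro a _
    by_cases ha : (a : V) ∈ H
    · left
      simpa [B0] using ha
    · right
      obtain ⟨i, hi⟩ := hc a a.2 ha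
      by_cases h1 : f i a = w1 i
      · left
        simp only [Set.mem_iUnion]
        exact ⟨i, Finset.mem_univ _, h1⟩
      · right
        simp only [Set.mem_iUnion]
        exact ⟨i, Finset.mem_univ _, hi h1⟩
  have hb0 : B0.ncard * p ^ 1 ≤ Nat.card A := by
    apply card_fiber
    by_contra hlt
    have h0 : finrank (ZMod p) (A.map H.mkQ) = 0 := by omega
    apply hH
    intro v hv
    have : H.mkQ v ∈ A.map H.mkQ := ⟨v, hv, rfl⟩
    rw [Submodule.finrank_eq_zero.mp h0] at this
    simpa using this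
  have hb : ∀ B : ι → Set A, (∀ i, (B i).ncard * p ^ (h + 2) ≤ Nat.card A) →
      (⋃ i ∈ (Finset.univ : Finset ι), B i).ncard * p ^ 2 ≤ Nat.card A := by
    intro B hB
    have h1 : (⋃ i ∈ (Finset.univ : Finset ι), B i).ncard ≤ ∑ i, (B i).ncard :=
      Finset.set_ncard_biUnion_le _ _
    have h2 : (∑ i, (B i).ncard) * p ^ (h + 2) ≤ p ^ h * Nat.card A := by
      rw [Finset.sum_mul]
      calc _ ≤ ∑ _i : ι, Nat.card A := Finset.sum_le_sum (fun i _ => hB i)
        _ = Fintype.card ι * Nat.card A := by simp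
        _ ≤ _ := Nat.mul_le_mul_right _ (by rwa [← Nat.card_eq_fintype_card])
    have h4 : p ^ h * ((∑ i, (B i).ncard) * p ^ 2) ≤ p ^ h * Nat.card A := by
      calc _ = (∑ i, (B i).ncard) * p ^ (h + 2) := by ring
        _ ≤ _ := h2
    have h5 := Nat.le_of_mul_le_mul_left h4 (pow_pos hp.out.pos h)
    exact (Nat.mul_le_mul_right _ h1).trans h5
  have hb1 := hb B1 (fun i => card_fiber _ _ _ (hf i))
  have hb2 := hb B2 (fun i => card_fiber _ _ _ (hf i))
  have h6 := Set.ncard_le_ncard hcov
  have h7 := Set.ncard_union_le B0 ((⋃ i ∈ (Finset.univ : Finset ι), B1 i) ∪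
      (⋃ i ∈ (Finset.univ : Finset ι), B2 i))
  have h8 := Set.ncard_union_le (⋃ i ∈ (Finset.univ : Finset ι), B1 i)
      (⋃ i ∈ (Finset.univ : Finset ι), B2 i)
  rw [Set.ncard_univ] at h6
  have hpos : 0 < Nat.card A := Nat.card_pos
  set c := Nat.card A
  set x0 := B0.ncard
  set x1 := (⋃ i ∈ (Finset.univ : Finset ι), B1 i).ncard
  set x2 := (⋃ i ∈ (Finset.univ : Finset ι), B2 i).ncard
  have h9 : c ≤ x0 + x1 + x2 := by omega
  have h10 : x0 * 3 ≤ c := le_trans (Nat.mul_le_mul_left _ (by simpa using h3)) hb0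
  have hp9 : 9 ≤ p ^ 2 := by nlinarith
  have h11 : x1 * 9 ≤ c := le_trans (Nat.mul_le_mul_left _ hp9) hb1
  have h12 : x2 * 9 ≤ c := le_trans (Nat.mul_le_mul_left _ hp9) hb2
  omega

end count

end Pool.Agent.MP_702fe9_al.H61

end MrgPart1

-- marker of a merged file
example : 731051 + 127898 = 731051 + 127898 := rfl
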