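import Mathlib.Tactic.Monotonicity.Lemmas
import Pool.Agent.MP_702fe9_al.h96.Cycl
import Mathlib.Algebra.AffineMonoid.Basic
import Mathlib.Analysis.Normed.Ring.Lemmas

-- ======== part 0: formerly Pool.Agent.MP_702fe9_al.h61.Inh
section MrgPart0

set_option autoImplicit false
set_option linter.unusedSectionVars false

namespace Pool.Agent.MP_702fe9_al.H61

open Module

variable {p : ℕ} [hp : Fact p.Prime]

theorem Cov.smul_Q {N N' : Subgroup F} (h : Cov p N N') (g : N) :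
    ∃ a : ℕ, ∀ q : Qt N N', g ^ (p ^ a) • q = q := by
  obtain ⟨a, ha⟩ := h.pp
  refine ⟨a, fun q => ?_⟩
  obtain ⟨x, rfl⟩ := QuotientGroup.mk_surjective q
  rw [MulAction.Quotient.smul_mk, QuotientGroup.eq, Subgroup.mem_subgroupOf]
  have := h.norm x x.2 _ (N'.inv_mem (ha g))
  simpa [mul_assoc] using this

theorem Cov.rel_pos {N N' : Subgroup F} (h : Cov p N N') : 0 < N'.relIndex N := by
  have := h.finQ
  exact Nat.card_pos (α := Qt N N')

theorem Cov.index_eq {N N' : Subgroup F} (h : Cov p N N') : N'.relIndex N * N.index = N'.index :=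
  Subgroup.relIndex_mul_index h.le

theorem Cov.rel_le {N N' : Subgroup F} (h : Cov p N N') : N'.relIndex N ≤ N'.index := by
  have := h.finN
  rw [← h.index_eq]
  exact Nat.le_mul_of_pos_right _ (Nat.pos_of_ne_zero Subgroup.FiniteIndex.index_ne_zero)

theorem sum_Rt_smul {ι R : Type} [CommRing R] {N N' : Subgroup F} [Fintype (Qt N N')]
    (f : Qt N N' → (ι × F → R)) (hf : ∀ q, ∀ n ∈ N', Rt n (f q) = f q) (g : N) :
    ∑ q : Qt N N', Rt (q.out : N) (f (g • q)) = Rt (g : F)⁻¹ (∑ q : Qt N N', Rt (q.out : N) (f q)) := by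
  rw [map_sum]
  symm
  refine Fintype.sum_bijective (fun q => g⁻¹ • q) (MulAction.bijective _) _ _ (fun q => ?_)
  rw [smul_inv_smul, ← MulAction.Quotient.mk_smul_out (N'.subgroupOf N) g⁻¹ q, Rt_out (hf q),
    Rt_Rt]
  rfl

namespace Cx

variable {X : Cx}

theorem fin2 {N : Subgroup F} [N.FiniteIndex] (hY : YInv X.Y N) :
    Module.Finite (ZMod p) (Fn (ZMod p) X.Y N) := finite_Fn hY X.yfin

theorem finZ (N : Subgroup F) [N.FiniteIndex] : Module.Finite (ZMod p) (X.Z1 (ZMod p) N) :=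
  have := finite_C1 (R := ZMod p) N
  Submodule.finiteDimensional_of_le (Z1_le N)

theorem finB (N : Subgroup F) [N.FiniteIndex] : Module.Finite (ZMod p) (X.B2 (ZMod p) N) :=
  have := finite_C1 (R := ZMod p) N
  inferInstanceAs (Module.Finite (ZMod p) ((C1 (ZMod p) N).map X.δ))

theorem h2_add {N : Subgroup F} [N.FiniteIndex] (hY : YInv X.Y N) :
    X.h2 p N + finrank (ZMod p) (X.B2 (ZMod p) N) = finrank (ZMod p) (Fn (ZMod p) X.Y N) := by
  have := fin2 (p := p) hY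
  have := fr_mono (B2_le (R := ZMod p) hY)
  unfold h2
  omega

theorem Z1_add (N : Subgroup F) [N.FiniteIndex] :
    finrank (ZMod p) (X.B2 (ZMod p) N) + finrank (ZMod p) (X.Z1 (ZMod p) N) = 2 * N.index := by
  have := finite_C1 (R := ZMod p) N
  have h := fr_map_add_ker (X.δ (R := ZMod p)) (C1 (ZMod p) N)
  rw [finrank_C1 (R := ZMod p) N] at h
  exact h

theorem exists_T {N N' : Subgroup F} (hc : Cov p N N') (hY : YInv X.Y N) :
    ∃ T' : Submodule (ZMod p) (ℕ × F → ZMod p), T' ≤ Fn (ZMod p) X.Y N' ∧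
      (∀ g ∈ N, ∀ v ∈ T', Rt g v ∈ T') ∧ Fn (ZMod p) X.Y N' ≤ X.B2 (ZMod p) N' ⊔ T' ∧
      finrank (ZMod p) T' ≤ N'.relIndex N * X.h2 p N := by
  have := hc.finN
  have := fin2 (p := p) hY
  obtain ⟨T, hT1, hT2, -, hT4⟩ := exists_compl_sub (B2_le (R := ZMod p) hY)
  have : Module.Finite (ZMod p) T := Submodule.finiteDimensional_of_le hT1
  obtain ⟨T', h1, h2, h3, h4⟩ := hc.exists_ind hY T hT1
  have h5 := h2_add (p := p) hY
  refine ⟨T', h1, h2, ?_, by rwa [show X.h2 p N = finrank (ZMod p) T by omega]⟩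
  refine hc.nak hY X.yfin _ (sup_le (B2_le (hY.mono hc.le)) h1) ?_ ?_
  · intro g hg v hv
    obtain ⟨b, hb, t, ht, rfl⟩ := Submodule.mem_sup.mp hv
    rw [map_add]
    exact Submodule.add_mem_sup (Rt_mem_B2 hc hY hg hb) (h2 g hg t ht)
  · rw [Submodule.map_sup, map_tr_B2 hc hY]
    exact hT2.trans (sup_le_sup_left h3 _)

theorem h2_le_cov {N N' : Subgroup F} (hc : Cov p N N') (hY : YInv X.Y N) :
    X.h2 p N' ≤ N'.relIndex N * X.h2 p N := by
  have := hc.fin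
  have := fin2 (p := p) (hY.mono hc.le)
  have := finB (p := p) (X := X) N'
  obtain ⟨T', h1, -, h3, h4⟩ := exists_T hc hY
  have : Module.Finite (ZMod p) T' := Submodule.finiteDimensional_of_le h1
  have h5 := fr_mono h3
  have h6 := Submodule.finrank_add_le_finrank_add_finrank (X.B2 (ZMod p) N') T'
  have h7 := h2_add (p := p) (hY.mono hc.le)
  omega

theorem inh {N N' : Subgroup F} (hc : Cov p N N') (hY : YInv X.Y N)
    (z : Module.Dual (ZMod p) (ℕ × F → ZMod p)) :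
    N'.relIndex N * rk (X.cup p z) (X.Z1 (ZMod p) N) (X.Z1 (ZMod p) N) ≤
      rk (X.cup p (z ∘ₗ tr N N')) (X.Z1 (ZMod p) N') (X.Z1 (ZMod p) N') +
        2 * (N'.relIndex N * X.h2 p N) := by
  classical
  have := hc.fin
  have := hc.finN
  have := hc.finQ
  have := Fintype.ofFinite (Qt N N')
  have := finite_C1 (R := ZMod p) N'
  have := fin2 (p := p) (hY.mono hc.le)
  have := finZ (p := p) (X := X) N
  have := finZ (p := p) (X := X) N'
  obtain ⟨T', h1, h2, h3, h4⟩ := exists_T hc hY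
  have : Module.Finite (ZMod p) T' := Submodule.finiteDimensional_of_le h1
  let A' : Submodule (ZMod p) (S × F → ZMod p) := C1 (ZMod p) N' ⊓ T'.comap X.δ
  have : Module.Finite (ZMod p) A' := Submodule.finiteDimensional_of_le inf_le_left
  have hA'inv : ∀ g ∈ N, ∀ β ∈ A', Rt g β ∈ A' := by
    intro g hg β hβ
    refine ⟨hc.Rt_mem (yinv_univ N) hg hβ.1, ?_⟩
    change X.δ (Rt g β) ∈ T'
    rw [← Rt_δ hY hg]
    exact h2 g hg _ hβ.2
  have hZA : X.Z1 (ZMod p) N' ≤ A' := fun α hα => ⟨hα.1, by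
    change X.δ α ∈ T'
    rw [show X.δ α = 0 from hα.2]
    exact T'.zero_mem⟩
  have ha : X.Z1 (ZMod p) N ≤ A'.map (tr N N') := by
    intro α hα
    obtain ⟨α', hα', rfl⟩ := hc.tr_surj hα.1
    have h0 : tr N N' (X.δ α') = 0 := by rw [tr_δ hY]; exact hα.2
    have h5 := hc.aug hY (δ_mem (hY.mono hc.le) hα') h0
    have h6 : Submodule.span (ZMod p)
        {v | ∃ g ∈ N, ∃ w ∈ Fn (ZMod p) X.Y N', v = Rt g w - w} ≤
        (C1 (ZMod p) N' ⊓ LinearMap.ker (tr N N')).map X.δ ⊔ T' := by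
      rw [Submodule.span_le]
      rintro _ ⟨g, hg, w, hw, rfl⟩
      obtain ⟨_, ⟨η, hη, rfl⟩, t, ht, rfl⟩ := Submodule.mem_sup.mp (h3 hw)
      have : Rt g (X.δ η + t) - (X.δ η + t) = X.δ (Rt g η - η) + (Rt g t - t) := by
        rw [map_add, map_sub, Rt_δ hY hg]; abel
      rw [this]
      refine Submodule.add_mem_sup ⟨_, ⟨Submodule.sub_mem _ (hc.Rt_mem (yinv_univ N) hg hη) hη,
        ?_⟩, rfl⟩ (T'.sub_mem (h2 g hg t ht) ht)
      change tr N N' (Rt g η - η) = 0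
      rw [map_sub, hc.tr_Rt hη.2 hg, sub_self]
    obtain ⟨_, ⟨κ, hκ, rfl⟩, t, ht, hsum⟩ := Submodule.mem_sup.mp (h6 h5)
    refine ⟨α' - κ, ⟨Submodule.sub_mem _ hα' hκ.1, ?_⟩, ?_⟩
    · change X.δ (α' - κ) ∈ T'
      rw [map_sub, ← hsum, add_sub_cancel_left]
      exact ht
    · rw [map_sub, show tr N N' κ = 0 from hκ.2, sub_zero]
  have hb : finrank (ZMod p) A' ≤ finrank (ZMod p) (X.Z1 (ZMod p) N') +
      N'.relIndex N * X.h2 p N := by
    have h5 := fr_map_add_ker X.δ A'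
    have h6 : finrank (ZMod p) (A'.map X.δ) ≤ finrank (ZMod p) T' := by
      apply fr_mono
      rintro _ ⟨β, hβ, rfl⟩
      exact hβ.2
    have h7 : finrank (ZMod p) (A' ⊓ LinearMap.ker X.δ : Submodule (ZMod p) (S × F → ZMod p)) ≤
        finrank (ZMod p) (X.Z1 (ZMod p) N') := fr_mono (inf_le_inf_right _ inf_le_left)
    omega
  obtain ⟨W, hW1, -, hW3, hW4⟩ := exists_compl_sub
    (rad_le (X.cup p z) (X.Z1 (ZMod p) N) (X.Z1 (ZMod p) N))
  have : Module.Finite (ZMod p) W := Submodule.finiteDimensional_of_le hW1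
  have hW5 := rk_add_rad (X.cup p z) (X.Z1 (ZMod p) N) (X.Z1 (ZMod p) N)
  obtain ⟨s, hs⟩ := exists_section (tr N N') A' W (hW1.trans ha)
  let Ψ : (Qt N N' → W) →ₗ[ZMod p] (S × F → ZMod p) :=
    ∑ q : Qt N N', (Rt (q.out : N) ∘ₗ s) ∘ₗ LinearMap.proj q
  have hΨ : ∀ m, Ψ m = ∑ q : Qt N N', Rt (q.out : N) (s (m q)) := by
    intro m
    simp only [Ψ, LinearMap.sum_apply, LinearMap.comp_apply, LinearMap.proj_apply]
  have hΨA : ∀ m, Ψ m ∈ A' := by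
    intro m
    rw [hΨ]
    exact Submodule.sum_mem _ (fun q _ => hA'inv _ (q.out : N).2 _ (hs _).1)
  have hinj : ∀ m, (∀ b ∈ A', X.cup p (z ∘ₗ tr N N') (Ψ m) b = 0) → m = 0 := by
    let K : Submodule (ZMod p) (Qt N N' → W) :=
      LinearMap.ker ((A'.dualRestrict ∘ₗ X.cup p (z ∘ₗ tr N N')) ∘ₗ Ψ)
    have hK : ∀ m, m ∈ K ↔ ∀ b ∈ A', X.cup p (z ∘ₗ tr N N') (Ψ m) b = 0 := by
      intro m
      constructor
      · intro h b hb
        exact LinearMap.congr_fun h ⟨b, hb⟩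
      · intro h
        apply LinearMap.ext
        intro b
        exact h b b.2
    have hK0 : K = ⊥ := by
      by_contra hne
      obtain ⟨e, he0, he⟩ := FVQ (G := N) hc.smul_Q K hne (by
        intro g m hm
        rw [hK] at hm ⊢
        intro b hb
        rw [hΨ, sum_Rt_smul (fun q => s (m q)) (fun q => (hs _).1.1.2) g, ← hΨ]
        have e1 : X.TT (Rt (g : F)⁻¹ (Ψ m)) b = Rt (g : F)⁻¹ (X.TT (Ψ m) (Rt g b)) := by
          rw [Rt_TT hY (N.inv_mem g.2), Rt_Rt, inv_mul_cancel, Rt_one]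
        have e2 := hm _ (hA'inv g g.2 b hb)
        rw [cup_apply, LinearMap.comp_apply] at e2 ⊢
        rw [e1, hc.tr_Rt (TT_mem (hY.mono hc.le) (hΨA m).1 (hA'inv g g.2 b hb).1).2
          (N.inv_mem g.2)]
        exact e2)
      rw [hK, hΨ, ← tr_apply, (hs e).2] at he
      apply he0
      have : (e : S × F → ZMod p) ∈ rad (X.cup p z) (X.Z1 (ZMod p) N) (X.Z1 (ZMod p) N) ⊓ W := by
        refine ⟨mem_rad.mpr ⟨hW1 e.2, fun β hβ => ?_⟩, e.2⟩
        obtain ⟨β', hβ', rfl⟩ := ha hβ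
        have := he β' hβ'
        rwa [cup_apply, LinearMap.comp_apply, tr_TT_right hY (hW1 e.2).1] at this
      rw [hW3] at this
      exact Subtype.ext this
    intro m hm
    have := (hK m).mpr hm
    rwa [hK0] at this
  have hc1 := rk_ge_of_inj (X.cup p (z ∘ₗ tr N N')) A' A' Ψ hΨA hinj
  rw [Module.finrank_pi_fintype] at hc1
  simp only [Finset.sum_const, Finset.card_univ, smul_eq_mul] at hc1
  rw [← Nat.card_eq_fintype_card] at hc1
  have hc2 := rk_left (X.cup p (z ∘ₗ tr N N')) A' hZA hb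
  have hc3 := rk_right (X.cup p (z ∘ₗ tr N N')) (X.Z1 (ZMod p) N') hZA hb
  have e1 : finrank (ZMod p) W = rk (X.cup p z) (X.Z1 (ZMod p) N) (X.Z1 (ZMod p) N) := by omega
  rw [e1] at hc1
  change N'.relIndex N * _ ≤ _ at hc1
  omega

theorem span_cyc {N N' : Subgroup F} (hc : Cov p N N') (hY : YInv X.Y N)
    {z' : Module.Dual (ZMod p) (ℕ × F → ZMod p)} (hz' : X.Cyc p N' z') :
    ∃ z, X.Cyc p N z ∧ rk (X.cup p (z ∘ₗ tr N N')) (X.Z1 (ZMod p) N') (X.Z1 (ZMod p) N') ≤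
      N'.relIndex N * rk (X.cup p z') (X.Z1 (ZMod p) N') (X.Z1 (ZMod p) N') := by
  classical
  have := hc.fin
  have := hc.finQ
  have := Fintype.ofFinite (Qt N N')
  have := finZ (p := p) (X := X) N'
  let S' : Submodule (ZMod p) (ℕ × F → ZMod p) :=
    Fn (ZMod p) X.Y N' ⊓ ⨅ g : N, LinearMap.ker (z' ∘ₗ Rt (g : F))
  have hS : ∀ y, y ∈ S' ↔ y ∈ Fn (ZMod p) X.Y N' ∧ ∀ g ∈ N, z' (Rt g y) = 0 := by
    intro y
    simp only [S', Submodule.mem_inf, Submodule.mem_iInf, LinearMap.mem_ker,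
      LinearMap.comp_apply, Subtype.forall]
  have hnot : ¬ Fn (ZMod p) X.Y N ≤ S'.map (tr N N') := by
    intro h
    have := hc.nak hY X.yfin S' inf_le_left (by
      intro g hg v hv
      rw [hS] at hv ⊢
      refine ⟨hc.Rt_mem hY hg hv.1, fun g' hg' => ?_⟩
      rw [Rt_Rt]
      exact hv.2 _ (N.mul_mem hg' hg)) h
    obtain ⟨y, hy, hy0⟩ := hz'.2
    have h1 := ((hS y).mp (this hy)).2 1 N.one_mem
    rw [Rt_one] at h1
    exact hy0 h1
  obtain ⟨v, hv, hv'⟩ := SetLike.not_le_iff_exists.mp hnot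
  obtain ⟨z, hz, hz0⟩ := exists_dual hv'
  refine ⟨z, ⟨fun y hy => hz0 y ?_, v, hv, hz⟩, ?_⟩
  · rw [← map_tr_B2 hc hY] at hy
    refine Submodule.map_mono (fun b hb => ?_) hy
    rw [hS]
    exact ⟨B2_le (hY.mono hc.le) hb, fun g hg => hz'.1 _ (Rt_mem_B2 hc hY hg hb)⟩
  · let P : Qt N N' → Submodule (ZMod p) (S × F → ZMod p) := fun q =>
      rad (X.cup p (z' ∘ₗ Rt ((q.out : N) : F))) (X.Z1 (ZMod p) N') (X.Z1 (ZMod p) N')
    have hP : ∀ q, finrank (ZMod p) (X.Z1 (ZMod p) N') ≤ finrank (ZMod p) (P q) +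
        rk (X.cup p z') (X.Z1 (ZMod p) N') (X.Z1 (ZMod p) N') := by
      intro q
      have : Module.Finite (ZMod p) (P q) := Submodule.finiteDimensional_of_le (rad_le _ _ _)
      have h1 := rk_add_rad (X.cup p z') (X.Z1 (ZMod p) N') (X.Z1 (ZMod p) N')
      have h2 : finrank (ZMod p) (rad (X.cup p z') (X.Z1 (ZMod p) N') (X.Z1 (ZMod p) N')) ≤
          finrank (ZMod p) (P q) := by
        apply fr_le_of_inj (Rt ((q.out : N) : F)⁻¹)
        · intro a _ ha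
          have := congrArg (Rt ((q.out : N) : F)) ha
          rwa [Rt_Rt, mul_inv_cancel, Rt_one, map_zero] at this
        · intro a ha
          rw [mem_rad] at ha ⊢
          refine ⟨Rt_mem_Z1 hc hY (N.inv_mem (q.out : N).2) ha.1, fun b hb => ?_⟩
          rw [cup_apply, LinearMap.comp_apply, Rt_TT hY (q.out : N).2, Rt_Rt, mul_inv_cancel,
            Rt_one]
          exact ha.2 _ (Rt_mem_Z1 hc hY (q.out : N).2 hb)
      omega
    have h1 := fr_inf_finset (X.Z1 (ZMod p) N') P _ (fun q => rad_le _ _ _) hP Finset.univ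
    have h2 := rk_add_rad (X.cup p (z ∘ₗ tr N N')) (X.Z1 (ZMod p) N') (X.Z1 (ZMod p) N')
    have : Module.Finite (ZMod p)
        (rad (X.cup p (z ∘ₗ tr N N')) (X.Z1 (ZMod p) N') (X.Z1 (ZMod p) N')) :=
      Submodule.finiteDimensional_of_le (rad_le _ _ _)
    have h3 : finrank (ZMod p) (X.Z1 (ZMod p) N' ⊓ Finset.univ.inf P :
        Submodule (ZMod p) (S × F → ZMod p)) ≤ finrank (ZMod p)
        (rad (X.cup p (z ∘ₗ tr N N')) (X.Z1 (ZMod p) N') (X.Z1 (ZMod p) N')) := by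
      apply fr_mono
      intro a ha
      rw [mem_rad]
      refine ⟨ha.1, fun b hb => hz0 _ ⟨_, ?_, rfl⟩⟩
      have hT := TT_mem (hY.mono hc.le) ha.1.1 hb.1
      rw [SetLike.mem_coe, hS]
      refine ⟨hT, fun g hg => ?_⟩
      have h4 : a ∈ P (QuotientGroup.mk (⟨g, hg⟩ : N)) :=
        (Finset.inf_le (Finset.mem_univ _) : Finset.univ.inf P ≤ _) ha.2
      have h5 := (mem_rad.mp h4).2 b hb
      rw [cup_apply, LinearMap.comp_apply, Rt_out hT.2] at h5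
      exact h5
    rw [Finset.card_univ, ← Nat.card_eq_fintype_card] at h1
    change _ ≤ _ + N'.relIndex N * _ at h1
    omega

theorem Good.mono {N : Subgroup F} {r r' : ℕ} (h : X.Good p N r) (hr : r' ≤ r) : X.Good p N r' :=
  fun z hz => hr.trans (h z hz)

theorem Good.cov {N N' : Subgroup F} {r : ℕ} (h : X.Good p N r) (hc : Cov p N N')
    (hY : YInv X.Y N) : X.Good p N' (r - 2 * X.h2 p N) := by
  intro z' hz'
  obtain ⟨z, hz, h1⟩ := span_cyc hc hY hz'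
  have h2 := inh hc hY z
  have h3 := Nat.mul_le_mul_left (N'.relIndex N) (h z hz)
  have h4 : N'.relIndex N * r ≤ N'.relIndex N *
      (rk (X.cup p z') (X.Z1 (ZMod p) N') (X.Z1 (ZMod p) N') + 2 * X.h2 p N) := by
    rw [mul_add, mul_left_comm]
    omega
  have := Nat.le_of_mul_le_mul_left h4 hc.rel_pos
  omega

variable (X p) in
def Stable (N N' : Subgroup F) : Prop :=
  ∀ y ∈ Fn (ZMod p) X.Y N', tr N N' y ∈ X.B2 (ZMod p) N → y ∈ X.B2 (ZMod p) N'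

theorem h2_key {N N' : Subgroup F} (hc : Cov p N N') (hY : YInv X.Y N) :
    X.h2 p N + finrank (ZMod p) (Fn (ZMod p) X.Y N' ⊓ (X.B2 (ZMod p) N).comap (tr N N') :
      Submodule (ZMod p) (ℕ × F → ZMod p)) = finrank (ZMod p) (Fn (ZMod p) X.Y N') := by
  have := hc.fin
  have := hc.finN
  have := fin2 (p := p) hY
  have := fin2 (p := p) (hY.mono hc.le)
  have h1 := fr_map_add_ker ((X.B2 (ZMod p) N).mkQ ∘ₗ tr N N') (Fn (ZMod p) X.Y N')
  have h2 := fr_map_add_ker (X.B2 (ZMod p) N).mkQ (Fn (ZMod p) X.Y N)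
  rw [Submodule.map_comp, hc.map_tr hY, LinearMap.ker_comp, Submodule.ker_mkQ] at h1
  rw [Submodule.ker_mkQ, inf_eq_right.mpr (B2_le hY)] at h2
  have h3 := h2_add (p := p) hY
  omega

theorem B2_le_comap {N N' : Subgroup F} (hc : Cov p N N') (hY : YInv X.Y N) :
    X.B2 (ZMod p) N' ≤ Fn (ZMod p) X.Y N' ⊓ (X.B2 (ZMod p) N).comap (tr N N') := by
  refine le_inf (B2_le (hY.mono hc.le)) ?_
  rw [← Submodule.map_le_iff_le_comap, map_tr_B2 hc hY]

theorem h2_mono {N N' : Subgroup F} (hc : Cov p N N') (hY : YInv X.Y N) :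
    X.h2 p N ≤ X.h2 p N' := by
  have := hc.fin
  have := fin2 (p := p) (hY.mono hc.le)
  have h1 := h2_key hc hY
  have h2 := h2_add (p := p) (hY.mono hc.le)
  have : Module.Finite (ZMod p) (Fn (ZMod p) X.Y N' ⊓ (X.B2 (ZMod p) N).comap (tr N N') :
      Submodule (ZMod p) (ℕ × F → ZMod p)) := Submodule.finiteDimensional_of_le inf_le_left
  have h3 := fr_mono (B2_le_comap hc hY)
  omega

theorem stable_of_h2 {N N' : Subgroup F} (hc : Cov p N N') (hY : YInv X.Y N)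
    (h : X.h2 p N' ≤ X.h2 p N) : X.Stable p N N' := by
  have := hc.fin
  have := fin2 (p := p) (hY.mono hc.le)
  have h1 := h2_key hc hY
  have h2 := h2_add (p := p) (hY.mono hc.le)
  have : Module.Finite (ZMod p) (Fn (ZMod p) X.Y N' ⊓ (X.B2 (ZMod p) N).comap (tr N N') :
      Submodule (ZMod p) (ℕ × F → ZMod p)) := Submodule.finiteDimensional_of_le inf_le_left
  have h3 := Submodule.eq_of_le_of_finrank_le (B2_le_comap hc hY) (by omega)
  intro y hy hy'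
  rw [h3]
  exact ⟨hy, hy'⟩

theorem Stable.h2_le {N N' : Subgroup F} (hs : X.Stable p N N') (hc : Cov p N N')
    (hY : YInv X.Y N) : X.h2 p N' ≤ X.h2 p N := by
  have := hc.fin
  have := finB (p := p) (X := X) N'
  have h1 := h2_key hc hY
  have h2 := h2_add (p := p) (hY.mono hc.le)
  have h3 : finrank (ZMod p) (Fn (ZMod p) X.Y N' ⊓ (X.B2 (ZMod p) N).comap (tr N N') :
      Submodule (ZMod p) (ℕ × F → ZMod p)) ≤ finrank (ZMod p) (X.B2 (ZMod p) N') :=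
    fr_mono (fun y hy => hs y hy.1 hy.2)
  omega

theorem Stable.good {N N' : Subgroup F} (hs : X.Stable p N N') (hc : Cov p N N')
    (hY : YInv X.Y N) {r : ℕ} (h : X.Good p N r) :
    X.Good p N' (N'.relIndex N * (r - 2 * X.h2 p N)) := by
  have := hc.fin
  have := hc.finQ
  have := finZ (p := p) (X := X) N'
  intro z' hz'
  let z : Module.Dual (ZMod p) (ℕ × F → ZMod p) := z' ∘ₗ mulF (chi N N')
  have key : ∀ y ∈ Fn (ZMod p) X.Y N', z' y = z (tr N N' y) := by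
    intro y hy
    have h1 := hc.tr_mem hY hy
    have h2 : y - mulF (chi N N') (tr N N' y) ∈ X.B2 (ZMod p) N' := by
      apply hs _ (Submodule.sub_mem _ hy (hc.chi_mem h1))
      rw [map_sub, tr_chi h1.2, sub_self]
      exact Submodule.zero_mem _
    have h3 := hz'.1 _ h2
    rw [map_sub] at h3
    exact sub_eq_zero.mp h3
  have hz : X.Cyc p N z := by
    constructor
    · intro y hy
      rw [← map_tr_B2 hc hY] at hy
      obtain ⟨y', hy', rfl⟩ := hy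
      rw [← key y' (B2_le (hY.mono hc.le) hy')]
      exact hz'.1 _ hy'
    · obtain ⟨y, hy, hy0⟩ := hz'.2
      exact ⟨_, hc.tr_mem hY hy, by rwa [← key y hy]⟩
  have h1 := inh hc hY z
  have h2 : rk (X.cup p z') (X.Z1 (ZMod p) N') (X.Z1 (ZMod p) N') =
      rk (X.cup p (z ∘ₗ tr N N')) (X.Z1 (ZMod p) N') (X.Z1 (ZMod p) N') :=
    rk_congr (fun a ha b hb => key _ (TT_mem (hY.mono hc.le) ha.1 hb.1))
  have h3 := Nat.mul_le_mul_left (N'.relIndex N) (h z hz)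
  rw [h2, Nat.mul_sub, mul_left_comm]
  omega

theorem TT_mem_B2_of_inv {N N' : Subgroup F} (hle : N' ≤ N) {α β : S × F → ZMod p}
    (hα : α ∈ C1 (ZMod p) N) (hβ : β ∈ X.Z1 (ZMod p) N') (h0 : ∀ n ∈ N', pot α n = 0) :
    X.TT α β ∈ X.B2 (ZMod p) N' := by
  have h1 := δ_mulF (X := X) (pot α) β
  rw [d_pot, show X.δ β = 0 from hβ.2, map_zero, add_zero] at h1
  rw [← h1]
  refine δ_mem_B2 (mulF_mem (fun x g hg => ?_) hβ.1)
  rw [pot_addOn hα x g (hle hg), h0 g hg, add_zero]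

theorem Ok.modelPS {U : Subgroup F} (ok : X.Ok p U) {L : ℕ} (hP : X.PP p U L) :
    X.ModelPS p U := by
  intro N hN hlev hle f hf
  have := hlev.fin
  have := finZ (p := p) (X := X) N
  have hg : X.Good p N 1 := (hP.1.cov (hlev.cov_normal hle) ok.inv).mono (by omega)
  have hf' : f ∈ X.B2 (ZMod p) (Phi p X.KK N) := by
    by_contra hnot
    obtain ⟨z, hz, hz0⟩ := exists_dual hnot
    have hcyc : X.Cyc p N z :=
      ⟨fun y hy => hz0 y (Submodule.map_mono (Fn_mono _ (Phi_le _ _)) hy), f, hf, hz⟩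
    obtain ⟨α, hα, β, hβ, hne⟩ := exists_of_rk_pos (hg z hcyc)
    exact hne (hz0 _ (TT_mem_B2_of_inv (Phi_le _ _) hα.1 (Z1_mono (Phi_le _ _) hβ)
      (fun n hn => ok.pot_phi hlev hα hn)))
  obtain ⟨χ, hχ, rfl⟩ := hf'
  refine ⟨pot χ, (pot_addOn hχ).homOn, fun j y hy => ?_⟩
  rw [X.δ_pos _ hy, I_eq_pot_conj hχ (hlev.phi.le (X.conj_ρ_mem (X.lt_of_mem hy) y))]

end Cx

end Pool.Agent.MP_702fe9_al.H61

end MrgPart0

-- ======== part 1: formerly Pool.Agent.MP_702fe9_al.h61.Loop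
section MrgPart1

set_option autoImplicit false
set_option linter.unusedSectionVars false

namespace Pool.Agent.MP_702fe9_al.H61

open Module

variable {p : ℕ} [hp : Fact p.Prime]

theorem pz_ne : (p : ℤ) ≠ 0 := by exact_mod_cast hp.out.ne_zero

theorem pz_prime : Prime (p : ℤ) := Nat.prime_iff_prime_int.mp hp.out

theorem exists_mul_add_dvd {u : ℤ} (hu : ¬ (p : ℤ) ∣ u) (c : ℤ) (n : ℕ) :
    ∃ j : ℤ, (p : ℤ) ^ n ∣ j * u + c := by
  have hco : IsCoprime u ((p : ℤ) ^ n) :=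
    IsCoprime.pow_right ((pz_prime.coprime_iff_not_dvd.mpr hu).symm)
  obtain ⟨a, b, hab⟩ := hco
  exact ⟨-c * a, c * b, by linear_combination (-c) * hab⟩

theorem pow_dvd_of_dvd_mul {u j : ℤ} (hu : ¬ (p : ℤ) ∣ u) {n : ℕ} (h : (p : ℤ) ^ n ∣ j * u) :
    (p : ℤ) ^ n ∣ j :=
  (IsCoprime.pow_left (pz_prime.coprime_iff_not_dvd.mpr hu)).dvd_of_dvd_mul_right h

namespace IP
variable {K M : Subgroup F} (φ : IP K M)

theorem cov_tw {N : Subgroup F} (hN : Lev p K N) (hle : N ≤ M) {κ k : ℕ} (h : κ ≤ k) :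
    Cov p (N ⊓ φ.tw p κ) (N ⊓ φ.tw p k) :=
  (hN.inf (φ.tw_lev (hN.of_le hle) k)).cov (inf_le_inf_left _ (φ.tw_anti h))
    (fun _ hg _ hn => ⟨N.mul_mem (N.mul_mem (N.inv_mem hg.1) hn.1) hg.1, φ.tw_conj k hg.2.1 hn.2⟩)

theorem exists_zpow_mul_mem {N : Subgroup F} {κ : ℕ} (k : ℕ) {b g : F} {u : ℤ}
    (hb : b ∈ N ⊓ φ.tw p κ) (hA : φ.A b = (p : ℤ) ^ κ * u) (hu : ¬ (p : ℤ) ∣ u)
    (hg : g ∈ N ⊓ φ.tw p κ) : ∃ j : ℤ, b ^ j * g ∈ N ⊓ φ.tw p k := by
  obtain ⟨c, hc⟩ := hg.2.2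
  obtain ⟨j, hj⟩ := exists_mul_add_dvd hu c k
  refine ⟨j, N.mul_mem (N.zpow_mem hb.1 j) hg.1, M.mul_mem (M.zpow_mem hb.2.1 j) hg.2.1, ?_⟩
  rw [φ.add _ _ hg.2.1, φ.add.homOn.zpow hb.2.1, hA, hc]
  have : j • ((p : ℤ) ^ κ * u) + (p : ℤ) ^ κ * c = (p : ℤ) ^ κ * (j * u + c) := by
    rw [smul_eq_mul]; ring
  rw [this]
  exact Dvd.dvd.mul_left hj _

theorem zpow_mem_iff {N : Subgroup F} {κ k : ℕ} (h : κ ≤ k) {b : F} {u : ℤ}
    (hb : b ∈ N ⊓ φ.tw p κ) (hA : φ.A b = (p : ℤ) ^ κ * u) (hu : ¬ (p : ℤ) ∣ u) (j : ℤ) :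
    b ^ j ∈ N ⊓ φ.tw p k ↔ (p : ℤ) ^ (k - κ) ∣ j := by
  obtain ⟨l, rfl⟩ := Nat.exists_eq_add_of_le h
  rw [Nat.add_sub_cancel_left]
  have e : φ.A (b ^ j) = (p : ℤ) ^ κ * (j * u) := by
    rw [φ.add.homOn.zpow hb.2.1, hA, smul_eq_mul]; ring
  constructor
  · intro hj
    have h1 := hj.2.2
    rw [e, pow_add, mul_dvd_mul_iff_left (pow_ne_zero _ pz_ne)] at h1
    exact pow_dvd_of_dvd_mul hu h1
  · intro hj
    refine ⟨N.zpow_mem hb.1 j, M.zpow_mem hb.2.1 j, ?_⟩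
    rw [e, pow_add]
    exact mul_dvd_mul_left _ (Dvd.dvd.mul_right hj u)

theorem gen_bij {N : Subgroup F} {κ k : ℕ} (h : κ ≤ k) {b : F} {u : ℤ}
    (hb : b ∈ N ⊓ φ.tw p κ) (hA : φ.A b = (p : ℤ) ^ κ * u) (hu : ¬ (p : ℤ) ∣ u) :
    Function.Bijective (fun i : Fin (p ^ (k - κ)) =>
      (QuotientGroup.mk ((⟨b, hb⟩ : (N ⊓ φ.tw p κ : Subgroup F)) ^ (i : ℕ)) :
        Qt (N ⊓ φ.tw p κ) (N ⊓ φ.tw p k))) := by
  constructor
  · intro i j hij
    simp only [QuotientGroup.eq, Subgroup.mem_subgroupOf, Subgroup.coe_mul, Subgroup.coe_inv,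
      SubmonoidClass.coe_pow] at hij
    rw [← zpow_natCast, ← zpow_natCast, ← zpow_neg, ← zpow_add, φ.zpow_mem_iff h hb hA hu] at hij
    have hi : ((i : ℕ) : ℤ) < (p : ℤ) ^ (k - κ) := by exact_mod_cast i.2
    have hj : ((j : ℕ) : ℤ) < (p : ℤ) ^ (k - κ) := by exact_mod_cast j.2
    have := Int.eq_zero_of_abs_lt_dvd hij (by rw [abs_lt]; constructor <;> omega)
    apply Fin.ext
    omega
  · intro q
    obtain ⟨g, rfl⟩ := QuotientGroup.mk_surjective q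
    obtain ⟨j, hj⟩ := φ.exists_zpow_mul_mem k hb hA hu g.2
    have hpos : (0 : ℤ) < (p : ℤ) ^ (k - κ) := pow_pos (by exact_mod_cast hp.out.pos) _
    have h1 := Int.emod_nonneg (-j) hpos.ne'
    have h2 := Int.emod_lt_of_pos (-j) hpos
    refine ⟨⟨((-j) % (p : ℤ) ^ (k - κ)).toNat, ?_⟩, ?_⟩
    · zify
      rw [Int.toNat_of_nonneg h1]
      exact h2
    · simp only [QuotientGroup.eq, Subgroup.mem_subgroupOf, Subgroup.coe_mul, Subgroup.coe_inv,
        SubmonoidClass.coe_pow]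
      rw [← zpow_natCast, Int.toNat_of_nonneg h1, ← zpow_neg]
      have e : b ^ (-(-j % (p : ℤ) ^ (k - κ))) * g =
          b ^ (-(-j % (p : ℤ) ^ (k - κ)) - j) * (b ^ j * g) := by
        rw [← mul_assoc, ← zpow_add, sub_add_cancel]
      rw [e]
      refine Subgroup.mul_mem _ ?_ hj
      rw [φ.zpow_mem_iff h hb hA hu]
      exact ⟨(-j) / (p : ℤ) ^ (k - κ), by have := Int.emod_add_mul_ediv (-j) ((p : ℤ) ^ (k - κ)); linarith⟩

theorem relIndex_tw {N : Subgroup F} {κ k : ℕ} (h : κ ≤ k) {b : F} {u : ℤ}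
    (hb : b ∈ N ⊓ φ.tw p κ) (hA : φ.A b = (p : ℤ) ^ κ * u) (hu : ¬ (p : ℤ) ∣ u) :
    (N ⊓ φ.tw p k).relIndex (N ⊓ φ.tw p κ) = p ^ (k - κ) := by
  have := Nat.card_eq_of_bijective _ (φ.gen_bij h hb hA hu)
  rw [Nat.card_eq_fintype_card, Fintype.card_fin] at this
  exact this.symm

theorem tr_gen {ι R : Type} [CommRing R] {N : Subgroup F} {κ k : ℕ} (h : κ ≤ k) {b : F} {u : ℤ}
    (hb : b ∈ N ⊓ φ.tw p κ) (hA : φ.A b = (p : ℤ) ^ κ * u) (hu : ¬ (p : ℤ) ∣ u)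
    {f : ι × F → R} (hf : ∀ n ∈ N ⊓ φ.tw p k, Rt n f = f) :
    tr (N ⊓ φ.tw p κ) (N ⊓ φ.tw p k) f = ∑ i ∈ Finset.range (p ^ (k - κ)), Rt (b ^ i) f := by
  rw [tr_eq_sum _ (φ.gen_bij h hb hA hu) hf, Finset.sum_range]
  rfl

end IP

namespace Cx
variable (X : Cx)

variable (p) in
/-- a tower of levels with bounded second cohomology and growing ranks -/
def Tower (V : ℕ → Subgroup F) : Prop :=
  (∀ k, Lev p X.KK (V k)) ∧ (∃ C : ℕ, ∀ k, X.h2 p (V k) ≤ C) ∧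
    ∀ r : ℕ, ∃ k0, ∀ k, k0 ≤ k → X.Good p (V k) r ∧ nn X.Y (V k) + r < (V k).index

/-- attaching a new family of discs -/
noncomputable def ext (ρ : F) (Y : Set F) : Cx where
  m := X.m + 1
  ρ := Function.update X.ρ X.m ρ
  Y := Function.update X.Y X.m Y
  hY := fun j hj => by
    rw [Function.update_of_ne (by omega)]
    exact X.hY j (by omega)

theorem ext_ρ_self (ρ : F) (Y : Set F) : (X.ext ρ Y).ρ X.m = ρ := Function.update_self ..
theorem ext_Y_self (ρ : F) (Y : Set F) : (X.ext ρ Y).Y X.m = Y := Function.update_self ..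
theorem ext_ρ_ne (ρ : F) (Y : Set F) {j : ℕ} (h : j ≠ X.m) : (X.ext ρ Y).ρ j = X.ρ j :=
  Function.update_of_ne h ..
theorem ext_Y_ne (ρ : F) (Y : Set F) {j : ℕ} (h : j ≠ X.m) : (X.ext ρ Y).Y j = X.Y j :=
  Function.update_of_ne h ..

end Cx

variable (p) in
/-- an element all of whose loops wind with the same valuation along a good cyclic tower -/
structure LoopData (X : Cx) (U : Subgroup F) where
  M : Subgroup F
  φ : IP X.KK M
  w : F
  v : ℕ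
  c : ℤ
  u : F → ℤ
  t : F
  lev : Lev p X.KK M
  le : M ≤ U
  mem : ∀ x, x⁻¹ * w * x ∈ M
  val : ∀ x, φ.A (x⁻¹ * w * x) = (p : ℤ) ^ v * u x
  cong : ∀ x, (p : ℤ) ∣ u x - c
  unit : ¬ (p : ℤ) ∣ c
  tmem : t ∈ M
  tval : φ.A t = 1
  tower : X.Tower p (φ.tw p)

namespace LoopData
variable {X : Cx} {U : Subgroup F} (Ld : LoopData p X U)

/-- the loop at a base point -/
def a (x : F) : F := x⁻¹ * Ld.w * x

/-- the tower over a level -/
abbrev V (N : Subgroup F) (k : ℕ) : Subgroup F := N ⊓ Ld.φ.tw p k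

/-- the relator of height `k` -/
abbrev rel (k : ℕ) : F := Ld.w ^ (p ^ (k - Ld.v))

/-- the loops at `x` and `y` are homologous -/
def Hom (N : Subgroup F) (k : ℕ) (x y : F) : Prop :=
  (Ld.a x ^ (p ^ (k - Ld.v)))⁻¹ * Ld.a y ^ (p ^ (k - Ld.v)) ∈ Phi p X.KK (Ld.V N k)

def InjProp : Prop :=
  ∀ N : Subgroup F, Lev p X.KK N → N ≤ Ld.M → (∀ g ∈ Ld.M, ∀ n ∈ N, g⁻¹ * n * g ∈ N) →
    ∃ k0, ∀ κ, k0 ≤ κ → ∀ k, κ < k → ∀ x g : F, g ∈ Ld.V N k →
      Ld.Hom (Phi p X.KK (Ld.V N κ)) k x (x * g) → g ∈ Phi p X.KK (Ld.V N κ)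

/-- base points of the new discs -/
def newY (N : Subgroup F) (Reps : Set F) (k : ℕ) : Set F :=
  {x | ∃ y ∈ Reps, ∃ g ∈ Ld.V N k, x = y * g}

/-- the complex with the new discs -/
noncomputable abbrev newX (N : Subgroup F) (Reps : Set F) (k : ℕ) : Cx :=
  X.ext (Ld.rel k) (Ld.newY N Reps k)

theorem a_mem (x : F) : Ld.a x ∈ Ld.M := Ld.mem x

theorem conj_pow_eq (x : F) (n : ℕ) : x⁻¹ * Ld.w ^ n * x = Ld.a x ^ n := by
  have := conj_pow (a := x⁻¹) (b := Ld.w) (i := n)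
  rw [inv_inv] at this
  exact this.symm

theorem conj_zpow_eq (x : F) (n : ℤ) : x⁻¹ * Ld.w ^ n * x = Ld.a x ^ n := by
  have := conj_zpow (a := x⁻¹) (b := Ld.w) (i := n)
  rw [inv_inv] at this
  exact this.symm

theorem zpow_mul_eq (x : F) (n : ℤ) : Ld.w ^ n * x = x * Ld.a x ^ n := by
  rw [← conj_zpow_eq]; group

theorem pow_mul_eq (x : F) (n : ℕ) : Ld.w ^ n * x = x * Ld.a x ^ n := by
  rw [← conj_pow_eq]; group

theorem a_zpow_mul (x : F) (n : ℤ) : Ld.a (Ld.w ^ n * x) = Ld.a x := by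
  unfold a; group

theorem a_mul (x g : F) : Ld.a (x * g) = g⁻¹ * Ld.a x * g := by
  unfold a; group

theorem u_unit (x : F) : ¬ (p : ℤ) ∣ Ld.u x := fun h =>
  Ld.unit (by simpa using dvd_sub h (Ld.cong x))

theorem A_a_zpow (x : F) (n : ℤ) : Ld.φ.A (Ld.a x ^ n) = n * ((p : ℤ) ^ Ld.v * Ld.u x) := by
  rw [Ld.φ.add.homOn.zpow (Ld.a_mem x), smul_eq_mul]
  exact congrArg _ (Ld.val x)

theorem A_rel {k : ℕ} (h : Ld.v ≤ k) (x : F) :
    Ld.φ.A (Ld.a x ^ (p ^ (k - Ld.v))) = (p : ℤ) ^ k * Ld.u x := by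
  rw [← zpow_natCast, A_a_zpow]
  obtain ⟨l, rfl⟩ := Nat.exists_eq_add_of_le h
  rw [Nat.add_sub_cancel_left]
  push_cast
  ring

theorem V_lev {N : Subgroup F} (hN : Lev p X.KK N) (k : ℕ) : Lev p X.KK (Ld.V N k) :=
  hN.inf (Ld.φ.tw_lev Ld.lev k)

theorem V_cov {N : Subgroup F} (hN : Lev p X.KK N) (hle : N ≤ Ld.M) {κ k : ℕ} (h : κ ≤ k) :
    Cov p (Ld.V N κ) (Ld.V N k) := Ld.φ.cov_tw hN hle h

theorem exists_rel_mem {N : Subgroup F} (hN : Lev p X.KK N) :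
    ∃ k0, Ld.v ≤ k0 ∧ ∀ k, k0 ≤ k → (∀ x, Ld.a x ^ (p ^ (k - Ld.v)) ∈ Ld.V N k) ∧
      Ld.t ^ (p ^ k) ∈ Ld.V N k := by
  obtain ⟨a, ha⟩ := hN.pp_ge
  refine ⟨Ld.v + a, by omega, fun k hk => ⟨fun x => ⟨ha _ (by omega) _,
    Ld.M.pow_mem (Ld.a_mem x) _, ?_⟩, ha _ (by omega) _, Ld.M.pow_mem Ld.tmem _, ?_⟩⟩
  · rw [Ld.A_rel (by omega)]
    exact Dvd.intro _ rfl
  · rw [Ld.φ.add.homOn.pow Ld.tmem, Ld.tval]
    simp

theorem A_t_pow (n : ℕ) : Ld.φ.A (Ld.t ^ n) = n := by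
  rw [Ld.φ.add.homOn.pow Ld.tmem, Ld.tval]
  simp

theorem A_t_zpow (n : ℤ) : Ld.φ.A (Ld.t ^ n) = n := by
  rw [Ld.φ.add.homOn.zpow Ld.tmem, Ld.tval]
  simp

theorem lstab {N : Subgroup F} {κ : ℕ} (hv : Ld.v ≤ κ) (k : ℕ) {x g : F}
    (hx : Ld.a x ^ (p ^ (κ - Ld.v)) ∈ Ld.V N κ) (hg : g ∈ Ld.V N κ) :
    ∃ j : ℤ, ∃ g' ∈ Ld.V N k, x * g = Ld.w ^ j * x * g' := by
  obtain ⟨j, hj⟩ := Ld.φ.exists_zpow_mul_mem k hx (Ld.A_rel hv x) (Ld.u_unit x) hg
  refine ⟨-((p ^ (κ - Ld.v) : ℕ) * j), _, hj, ?_⟩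
  rw [zpow_mul_eq, ← zpow_natCast, ← zpow_mul]
  group

theorem I_rel_tr {R : Type} [CommRing R] {N : Subgroup F} {κ k : ℕ} (hv : Ld.v ≤ κ) (h : κ ≤ k)
    {x : F} (hx : Ld.a x ^ (p ^ (κ - Ld.v)) ∈ Ld.V N κ) {η : S × F → R}
    (hη : η ∈ C1 R (Ld.V N k)) :
    I (Ld.rel k) η x = I (Ld.rel κ) (tr (Ld.V N κ) (Ld.V N k) η) x := by
  rw [Ld.φ.tr_gen h hx (Ld.A_rel hv x) (Ld.u_unit x) hη.2, map_sum, Finset.sum_apply]
  have e : Ld.rel k = Ld.rel κ ^ (p ^ (k - κ)) := by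
    rw [← pow_mul, ← pow_add, show κ - Ld.v + (k - κ) = k - Ld.v by omega]
  rw [e, I_pow]
  refine Finset.sum_congr rfl (fun i _ => ?_)
  rw [I_Rt, ← pow_mul, ← pow_mul, pow_mul_eq]

theorem hom_iff {N : Subgroup F} (ok : X.Ok p U) (hN : Lev p X.KK N) {k : ℕ} {x y : F}
    (hx : Ld.a x ^ (p ^ (k - Ld.v)) ∈ Ld.V N k) (hy : Ld.a y ^ (p ^ (k - Ld.v)) ∈ Ld.V N k) :
    Ld.Hom N k x y ↔ ∀ θ ∈ X.Z1 (ZMod p) (Ld.V N k), I (Ld.rel k) θ x = I (Ld.rel k) θ y := by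
  have key : ∀ θ ∈ X.Z1 (ZMod p) (Ld.V N k),
      pot θ ((Ld.a x ^ (p ^ (k - Ld.v)))⁻¹ * Ld.a y ^ (p ^ (k - Ld.v))) =
        I (Ld.rel k) θ y - I (Ld.rel k) θ x := by
    intro θ hθ
    have h1 := (pot_addOn hθ.1).homOn
    rw [h1 _ (Subgroup.inv_mem _ hx) _ hy, h1.inv hx,
      I_eq_pot_conj hθ.1 (y := x) (by rw [conj_pow_eq]; exact hx),
      I_eq_pot_conj hθ.1 (y := y) (by rw [conj_pow_eq]; exact hy), conj_pow_eq, conj_pow_eq]
    ring
  constructor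
  · intro h θ hθ
    have := ok.pot_phi (Ld.V_lev hN k) hθ h
    rw [key θ hθ] at this
    exact (sub_eq_zero.mp this).symm
  · intro h
    refine Cx.mem_Phi_of_Z1 (Ld.V_lev hN k).le (Subgroup.mul_mem _ (Subgroup.inv_mem _ hx) hy)
      (fun θ hθ => ?_)
    rw [key θ hθ, h θ hθ, sub_self]

end LoopData

end Pool.Agent.MP_702fe9_al.H61

end MrgPart1

-- ======== part 2: formerly Pool.Agent.MP_702fe9_al.h61.Inj
section MrgPart2

-- ======== part 0: formerly Pool.Agent.MP_702fe9_al.h61.Cyc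
section MrgPart0

set_option autoImplicit false
set_option linter.unusedSectionVars false

namespace Pool.Agent.MP_702fe9_al.H61

open Module

variable {p : ℕ} [hp : Fact p.Prime]

/-- a cyclic covering together with its defining function -/
structure CycS (V V' : Subgroup F) (t : F) (σ : F → ZMod p) : Prop where
  cov : Cov p V V'
  tmem : t ∈ V
  add : AddOn V σ
  ne : σ t ≠ 0
  zero : ∀ n ∈ V', σ n = 0
  gen : ∀ g ∈ V, ∃ i : ℕ, (t ^ i)⁻¹ * g ∈ V'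

theorem CycS.ker_tr {V V' : Subgroup F} {t : F} {σ : F → ZMod p} (h : CycS V V' t σ) {ι : Type}
    {Y : ι → Set F} (hY : YInv Y V) {f : ι × F → ZMod p} (hf : f ∈ Fn (ZMod p) Y V')
    (h0 : tr V V' f = 0) : ∃ y ∈ Fn (ZMod p) Y V', Rt t y - y = f := by
  have h1 := h.cov.aug hY hf h0
  have h2 : Submodule.span (ZMod p) {v | ∃ g ∈ V, ∃ w ∈ Fn (ZMod p) Y V', v = Rt g w - w} ≤
      (Fn (ZMod p) Y V').map (Rt t - LinearMap.id) := by
    rw [Submodule.span_le]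
    rintro _ ⟨g, hg, w, hw, rfl⟩
    obtain ⟨i, hi⟩ := h.gen g hg
    have e : Rt g w = Rt (t ^ i) w := by
      have : g = t ^ i * ((t ^ i)⁻¹ * g) := by group
      rw [this, ← Rt_Rt, hw.2 _ hi]
    rw [e]
    clear hi e
    induction i with
    | zero =>
      rw [pow_zero, Rt_one, sub_self]
      exact Submodule.zero_mem _
    | succ i ih =>
      have : Rt (t ^ (i + 1)) w - w = (Rt t - LinearMap.id : Module.End (ZMod p) _) (Rt (t ^ i) w) +
          (Rt (t ^ i) w - w) := by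
        rw [LinearMap.sub_apply, LinearMap.id_apply, Rt_Rt, pow_succ']
        abel
      rw [this]
      exact Submodule.add_mem _ ⟨_, h.cov.Rt_mem hY (V.pow_mem h.tmem i) hw, rfl⟩ ih
  exact h2 h1

variable (p) in
/-- the cut function at height `κ` -/
def IP.om {K M : Subgroup F} (φ : IP K M) (κ : ℕ) (x : F) : ZMod p :=
  ((φ.A x / (p : ℤ) ^ κ : ℤ) : ZMod p)

theorem IP.om_add {K M : Subgroup F} (φ : IP K M) (κ : ℕ) : AddOn (φ.tw p κ) (φ.om p κ) := by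
  intro f n hn
  unfold IP.om
  rw [φ.add f n hn.1, Int.add_ediv_of_dvd_right hn.2, Int.cast_add]

theorem IP.om_kill {K M : Subgroup F} (φ : IP K M) (κ : ℕ) : ∀ g ∈ K, φ.om p κ g = 0 := by
  intro g hg
  simp [IP.om, φ.kill g hg]

theorem IP.om_val {K M : Subgroup F} (φ : IP K M) {κ : ℕ} {b : F} {u : ℤ}
    (hA : φ.A b = (p : ℤ) ^ κ * u) : φ.om p κ b = (u : ZMod p) := by
  unfold IP.om
  rw [hA, Int.mul_ediv_cancel_left _ (pow_ne_zero _ pz_ne)]

theorem IP.om_zero {K M : Subgroup F} (φ : IP K M) (x : F) : φ.om p 0 x = (φ.A x : ZMod p) := by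
  simp [IP.om]

theorem IP.cycS {K M : Subgroup F} (φ : IP K M) {N : Subgroup F} (hN : Lev p K N) (hle : N ≤ M)
    {κ k : ℕ} (h : κ < k) {b : F} {u : ℤ} (hb : b ∈ N ⊓ φ.tw p κ)
    (hA : φ.A b = (p : ℤ) ^ κ * u) (hu : ¬ (p : ℤ) ∣ u) :
    CycS (N ⊓ φ.tw p κ) (N ⊓ φ.tw p k) b (φ.om p κ) := by
  refine ⟨φ.cov_tw hN hle h.le, hb, (φ.om_add κ).mono inf_le_right, ?_, ?_, ?_⟩
  · rw [φ.om_val hA]
    exact fun h0 => hu ((ZMod.intCast_zmod_eq_zero_iff_dvd _ _).mp h0)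
  · intro n hn
    obtain ⟨c, hc⟩ := hn.2.2
    obtain ⟨l, rfl⟩ := Nat.exists_eq_add_of_lt h
    rw [φ.om_val (u := (p : ℤ) ^ (l + 1) * c) (by rw [hc]; ring)]
    simp
  · intro g hg
    obtain ⟨i, hi⟩ := (φ.gen_bij h.le hb hA hu).2 (QuotientGroup.mk ⟨g, hg⟩)
    simp only [QuotientGroup.eq, Subgroup.mem_subgroupOf, Subgroup.coe_mul, Subgroup.coe_inv,
      SubmonoidClass.coe_pow] at hi
    exact ⟨i, hi⟩

namespace Cx

variable {X : Cx}

theorem cyc_key {V V' : Subgroup F} {t : F} {σ : F → ZMod p} (h : CycS V V' t σ)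
    (hY : YInv X.Y V) {ψ : S × F → ZMod p} (hψ : ψ ∈ C1 (ZMod p) V') {y : ℕ × F → ZMod p}
    (hy : y ∈ Fn (ZMod p) X.Y V') (he : Rt t y - y = X.δ ψ) :
    σ t • tr V V' y - X.TT (d σ) (tr V V' ψ) ∈ X.B2 (ZMod p) V := by
  have := h.cov.finQ
  have hσ : ∀ x, ∀ g ∈ V', σ (x * g) = σ x := fun x g hg => by
    rw [h.add x g (h.cov.le hg), h.zero g hg, add_zero]
  have h1 : mulF σ (Rt t y) = Rt t (mulF σ y - σ t • y) := by
    funext e
    simp only [Rt_apply, mulF_apply, Pi.sub_apply, Pi.smul_apply, smul_eq_mul]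
    rw [h.add _ t h.tmem]
    ring
  have h2 : tr V V' (mulF σ (X.δ ψ)) = - (σ t • tr V V' y) := by
    rw [← he, map_sub, map_sub, h1,
      h.cov.tr_Rt (Submodule.sub_mem _ (mulF_mem hσ hy) (Submodule.smul_mem _ _ hy)).2 h.tmem,
      map_sub, map_smul]
    abel
  have h3 := congrArg (tr V V') (δ_mulF (X := X) σ ψ)
  rw [map_add, h2, tr_δ hY, tr_TT_right hY h.add.d_mem] at h3
  have h4 : σ t • tr V V' y - X.TT (d σ) (tr V V' ψ) = - X.δ (tr V V' (mulF σ ψ)) := by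
    rw [h3]; abel
  rw [h4]
  exact Submodule.neg_mem _ (δ_mem_B2 (h.cov.tr_mem (yinv_univ V) (mulF_mem hσ hψ)))

theorem cyc_lift {V V' : Subgroup F} {t : F} {σ : F → ZMod p} (h : CycS V V' t σ)
    (hY : YInv X.Y V) (hs : X.Stable p V V') {ψ0 : S × F → ZMod p} (h0 : ψ0 ∈ X.Z1 (ZMod p) V)
    (hT : X.TT (d σ) ψ0 ∈ X.B2 (ZMod p) V) : ∃ ψ ∈ X.Z1 (ZMod p) V', tr V V' ψ = ψ0 := by
  have := h.cov.finQ
  obtain ⟨ψ', hψ', rfl⟩ := h.cov.tr_surj h0.1
  obtain ⟨y, hy, he⟩ := h.ker_tr hY (δ_mem (hY.mono h.cov.le) hψ')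
    (by rw [tr_δ hY]; exact h0.2)
  have h1 := cyc_key h hY hψ' hy he
  have h2 : tr V V' y ∈ X.B2 (ZMod p) V := by
    have := Submodule.add_mem _ h1 hT
    rw [sub_add_cancel] at this
    exact (Submodule.smul_mem_iff _ h.ne).mp this
  obtain ⟨η, hη, rfl⟩ := hs y hy h2
  refine ⟨ψ' - (Rt t η - η), ⟨Submodule.sub_mem _ hψ'
    (Submodule.sub_mem _ (h.cov.Rt_mem (yinv_univ V) h.tmem hη) hη), ?_⟩, ?_⟩
  · change X.δ (ψ' - (Rt t η - η)) = 0
    rw [map_sub, map_sub, ← Rt_δ hY h.tmem, he, sub_self]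
  · rw [map_sub, map_sub, h.cov.tr_Rt hη.2 h.tmem, sub_self, sub_zero]

variable (X p) in
def CapSurj (N : Subgroup F) (α : S × F → ZMod p) : Prop :=
  ∀ y ∈ Fn (ZMod p) X.Y N, ∃ ψ ∈ X.Z1 (ZMod p) N, y - X.TT α ψ ∈ X.B2 (ZMod p) N

theorem cyc_stable {V V' : Subgroup F} {t : F} {σ : F → ZMod p} (h : CycS V V' t σ)
    (hY : YInv X.Y V) (hc : X.CapSurj p V (d σ)) : X.Stable p V V' := by
  have := h.cov.finQ
  have := h.cov.fin
  have := fin2 (p := p) (hY.mono h.cov.le)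
  let W : Submodule (ZMod p) (ℕ × F → ZMod p) := Fn (ZMod p) X.Y V' ⊓ LinearMap.ker (tr V V')
  have : Module.Finite (ZMod p) W := Submodule.finiteDimensional_of_le inf_le_left
  have hWinv : ∀ g ∈ V, ∀ v ∈ W, Rt g v ∈ W := fun g hg v hv =>
    ⟨h.cov.Rt_mem hY hg hv.1, by
      change tr V V' (Rt g v) = 0
      rw [h.cov.tr_Rt hv.1.2 hg]
      exact hv.2⟩
  have hx : ∀ y ∈ Fn (ZMod p) X.Y V', Rt t y - y ∈ W := fun y hy =>
    ⟨Submodule.sub_mem _ (h.cov.Rt_mem hY h.tmem hy) hy, by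
      change tr V V' (Rt t y - y) = 0
      rw [map_sub, h.cov.tr_Rt hy.2 h.tmem, sub_self]⟩
  have hW : W ≤ W ⊓ X.B2 (ZMod p) V' := by
    refine NAK (RtHom ℕ (ZMod p)) V W hWinv ?_ _ inf_le_left
      (fun g hg v hv => ⟨hWinv g hg v hv.1, Rt_mem_B2 h.cov hY hg hv.2⟩) ?_
    · intro g _
      obtain ⟨a, ha⟩ := h.cov.pp
      exact ⟨a, fun v hv => hv.1.2 _ (ha g)⟩
    · intro f hf
      obtain ⟨y, hy, rfl⟩ := h.ker_tr hY hf.1 hf.2
      obtain ⟨ψ0, h0, h1⟩ := hc _ (Submodule.smul_mem _ (σ t) (h.cov.tr_mem hY hy))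
      obtain ⟨ψ', hψ', rfl⟩ := h.cov.tr_surj h0.1
      obtain ⟨y', hy', he⟩ := h.ker_tr hY (δ_mem (hY.mono h.cov.le) hψ')
        (by rw [tr_δ hY]; exact h0.2)
      have h2 := cyc_key h hY hψ' hy' he
      have h3 : tr V V' (y - y') ∈ X.B2 (ZMod p) V := by
        have := Submodule.sub_mem _ h1 h2
        rw [sub_sub_sub_cancel_right, ← smul_sub, ← map_sub] at this
        exact (Submodule.smul_mem_iff _ h.ne).mp this
      rw [← map_tr_B2 h.cov hY] at h3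
      obtain ⟨b, hb, hb'⟩ := h3
      have hbF := B2_le (hY.mono h.cov.le) hb
      have hw : y - y' - b ∈ W := ⟨Submodule.sub_mem _ (Submodule.sub_mem _ hy hy') hbF, by
        change tr V V' (y - y' - b) = 0
        rw [map_sub, hb', sub_self]⟩
      have e : Rt t y - y = ((Rt t y' - y') + (Rt t b - b)) + (Rt t (y - y' - b) - (y - y' - b)) := by
        simp only [map_sub]; abel
      rw [e]
      refine Submodule.add_mem_sup (Submodule.add_mem _ ⟨hx y' hy', ?_⟩ ⟨hx b hbF, ?_⟩)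
        (Submodule.subset_span ⟨t, h.tmem, _, hw, rfl⟩)
      · rw [he]
        exact δ_mem_B2 hψ'
      · exact Submodule.sub_mem _ (Rt_mem_B2 h.cov hY h.tmem hb) hb
  intro y hy hy'
  rw [← map_tr_B2 h.cov hY] at hy'
  obtain ⟨b, hb, hb'⟩ := hy'
  have hw : y - b ∈ W := ⟨Submodule.sub_mem _ hy (B2_le (hY.mono h.cov.le) hb), by
    change tr V V' (y - b) = 0
    rw [map_sub, hb', sub_self]⟩
  have := Submodule.add_mem _ (hW hw).2 hb
  rwa [sub_add_cancel] at this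

theorem tower_of_capSurj {N : Subgroup F} (hN : Lev p X.KK N) (hY : YInv X.Y N) {L : ℕ}
    (hP : X.PP p N L) (φ : IP X.KK N) {t : F} (ht : t ∈ N) (hu : ¬ (p : ℤ) ∣ φ.A t)
    (hc : X.CapSurj p N (d (φ.om p 0))) : X.Tower p (φ.tw p) := by
  have e : ∀ k, N ⊓ φ.tw p k = φ.tw p k := fun k => inf_eq_right.mpr (φ.tw_le k)
  have hb : t ∈ N ⊓ φ.tw p 0 := by rw [e, φ.tw_zero]; exact ht
  have hA : φ.A t = (p : ℤ) ^ 0 * φ.A t := by simp
  have hcs : ∀ k, 0 < k → CycS N (φ.tw p k) t (φ.om p 0) := by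
    intro k hk
    have := φ.cycS hN le_rfl hk hb hA hu
    rwa [e, e, φ.tw_zero] at this
  have hrel : ∀ k, (φ.tw p k).relIndex N = p ^ k := by
    intro k
    have := φ.relIndex_tw (Nat.zero_le k) hb hA hu
    rwa [e, e, φ.tw_zero] at this
  refine ⟨fun k => φ.tw_lev hN k, ⟨X.h2 p N, fun k => ?_⟩, fun r => ⟨r + 1, fun k hk => ?_⟩⟩
  · rcases Nat.eq_zero_or_pos k with rfl | hk
    · rw [φ.tw_zero]
    · exact (cyc_stable (hcs k hk) hY hc).h2_le (hcs k hk).cov hY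
  · have h1 := hcs k (by omega)
    have h2 := (cyc_stable h1 hY hc).good h1.cov hY hP.1
    have h3 : k < p ^ k := Nat.lt_pow_self hp.out.one_lt
    have h4 := h1.cov.nn_le hY X.yfin
    have h5 := h1.cov.index_eq
    rw [hrel] at h2 h4 h5
    constructor
    · refine h2.mono ?_
      calc r ≤ p ^ k * 1 := by omega
        _ ≤ _ := Nat.mul_le_mul_left _ (by omega)
    · have h6 : p ^ k * (nn X.Y N + 1) ≤ p ^ k * N.index := Nat.mul_le_mul_left _ (by have := hP.2; omega)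
      rw [mul_add] at h6
      omega

theorem Tower.inf {V : ℕ → Subgroup F} (h : X.Tower p V) (hY : ∀ k, YInv X.Y (V k))
    {N : Subgroup F} (hN : Lev p X.KK N) (hn : ∀ k, ∀ g ∈ V k, ∀ n ∈ N, g⁻¹ * n * g ∈ N) :
    X.Tower p (fun k => N ⊓ V k) := by
  obtain ⟨hl, ⟨C, hC⟩, hr⟩ := h
  have hc : ∀ k, Cov p (V k) (N ⊓ V k) := fun k => (hN.inf (hl k)).cov inf_le_right
    (fun g hg n hn' => ⟨hn k g hg n hn'.1,
      (V k).mul_mem ((V k).mul_mem ((V k).inv_mem hg) hn'.2) hg⟩)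
  have hrel : ∀ k, (N ⊓ V k).relIndex (V k) ≤ N.index := by
    intro k
    have := hN.fin
    rw [Subgroup.inf_relIndex_right, ← Subgroup.relIndex_top_right]
    exact Subgroup.relIndex_le_of_le_right le_top
      (by rw [Subgroup.relIndex_top_right]; exact Subgroup.FiniteIndex.index_ne_zero)
  refine ⟨fun k => hN.inf (hl k), ⟨N.index * C, fun k => ?_⟩, fun r => ?_⟩
  · exact (h2_le_cov (hc k) (hY k)).trans (Nat.mul_le_mul (hrel k) (hC k))
  · obtain ⟨k0, hk0⟩ := hr (r + 2 * C)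
    refine ⟨k0, fun k hk => ⟨((hk0 k hk).1.cov (hc k) (hY k)).mono (by have := hC k; omega), ?_⟩⟩
    have h4 := (hc k).nn_le (hY k) X.yfin
    have h5 := (hc k).index_eq
    have h6 := (hc k).rel_pos
    have h7 : (N ⊓ V k).relIndex (V k) * (nn X.Y (V k) + (r + 1)) ≤
        (N ⊓ V k).relIndex (V k) * (V k).index :=
      Nat.mul_le_mul_left _ (by have := (hk0 k hk).2; omega)
    have h8 : r + 1 ≤ (N ⊓ V k).relIndex (V k) * (r + 1) := Nat.le_mul_of_pos_left _ h6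
    rw [mul_add] at h7
    change nn X.Y (N ⊓ V k) + r < (N ⊓ V k).index
    omega

theorem Tower.pp {V : ℕ → Subgroup F} (h : X.Tower p V) (L : ℕ) :
    ∃ k0, ∀ k, k0 ≤ k → X.PP p (V k) L := by
  obtain ⟨-, ⟨C, hC⟩, hr⟩ := h
  obtain ⟨k0, hk0⟩ := hr (2 * C + L + 2)
  refine ⟨k0, fun k hk => ⟨(hk0 k hk).1.mono (by have := hC k; omega), ?_⟩⟩
  have := (hk0 k hk).2
  omega

end Cx

end Pool.Agent.MP_702fe9_al.H61

end MrgPart0

-- ======== part 1: formerly Pool.Agent.MP_702fe9_al.h26.Int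
section MrgPart1

set_option autoImplicit false
set_option linter.unusedSectionVars false

namespace Pool.Agent.MP_702fe9_al.H61

open Module

variable {p : ℕ} [hp : Fact p.Prime]

/-- reduction modulo `p` of a saturated lattice of integer functions keeps the rank -/
theorem exists_red {E : Type} (La : Submodule ℤ (E → ℤ)) [Module.Finite ℤ La]
    (hsat : ∀ c : E → ℤ, (p : ℤ) • c ∈ La → c ∈ La) :
    ∃ A : Submodule (ZMod p) (E → ZMod p), finrank (ZMod p) A = finrank ℤ La ∧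
      ∀ α ∈ A, ∃ c ∈ La, α = fun e => ((c e : ℤ) : ZMod p) := by
  classical
  let b := Module.finBasis ℤ La
  let v : Fin (finrank ℤ La) → E → ZMod p := fun i e => (((b i).1 e : ℤ) : ZMod p)
  have hsum : ∀ g : Fin (finrank ℤ La) → ZMod p, ∑ i, g i • v i =
      fun e => (((∑ i, ((g i).val : ℤ) • b i : La).1 e : ℤ) : ZMod p) := by
    intro g
    funext e
    rw [Finset.sum_apply, AddSubmonoidClass.coe_finsetSum, Finset.sum_apply, Int.cast_sum]
    refine Finset.sum_congr rfl (fun i _ => ?_)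
    change g i * (((b i).1 e : ℤ) : ZMod p) = ((((g i).val : ℤ) * (b i).1 e : ℤ) : ZMod p)
    rw [Int.cast_mul, Int.cast_natCast, ZMod.natCast_zmod_val]
  have hli : LinearIndependent (ZMod p) v := by
    rw [Fintype.linearIndependent_iff]
    intro g hg i
    rw [hsum] at hg
    set c : La := ∑ i, ((g i).val : ℤ) • b i with hc
    have hdvd : ∀ e, (p : ℤ) ∣ c.1 e := fun e =>
      (ZMod.intCast_zmod_eq_zero_iff_dvd _ _).mp (congrFun hg e)
    choose c' hc' using hdvd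
    have h1 : c.1 = (p : ℤ) • c' := funext (fun e => by rw [hc' e]; rfl)
    have h2 : c' ∈ La := hsat c' (h1 ▸ c.2)
    have h3 : c = (p : ℤ) • (⟨c', h2⟩ : La) := Subtype.ext h1
    have h4 : b.repr c i = ((g i).val : ℤ) := by
      rw [hc, b.repr_sum_self]
    rw [h3, map_smul, Finsupp.smul_apply, smul_eq_mul] at h4
    have h5 : (((g i).val : ℤ) : ZMod p) = 0 := by
      rw [← h4]
      simp
    simpa using h5
  refine ⟨Submodule.span (ZMod p) (Set.range v), ?_, fun α hα => ?_⟩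
  · rw [finrank_span_eq_card hli, Fintype.card_fin]
  · obtain ⟨g, rfl⟩ := (Submodule.mem_span_range_iff_exists_fun _).mp hα
    exact ⟨_, (∑ i, ((g i).val : ℤ) • b i : La).2, hsum g⟩

theorem Cx.int_sub {X : Cx} {N : Subgroup F} [N.FiniteIndex] (hY : YInv X.Y N) {J : Type}
    [Fintype J] (g x : J → F) :
    ∃ A : Submodule (ZMod p) (S × F → ZMod p), A ≤ X.Z1 (ZMod p) N ∧
      2 * N.index ≤ finrank (ZMod p) A + nn X.Y N + Fintype.card J ∧
      ∀ α ∈ A, ∃ c ∈ X.Z1 ℤ N, (∀ j, I (g j) c (x j) = 0) ∧ α = fun e => ((c e : ℤ) : ZMod p) := by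
  classical
  have hf1 := finite_C1 (R := ℤ) N
  have hf2 : Module.Finite ℤ (Fn ℤ X.Y N) := finite_Fn hY X.yfin
  let ψ : (S × F → ℤ) →ₗ[ℤ] (J → ℤ) :=
    LinearMap.pi (fun j => (LinearMap.proj (x j) : (F → ℤ) →ₗ[ℤ] ℤ) ∘ₗ I (g j))
  have hψ : ∀ c j, ψ c j = I (g j) c (x j) := fun _ _ => rfl
  let φ : C1 ℤ N →ₗ[ℤ] (Fn ℤ X.Y N × (J → ℤ)) :=
    LinearMap.prod (X.δ.restrict (fun c hc => Cx.δ_mem hY hc)) (ψ ∘ₗ (C1 ℤ N).subtype)
  let La : Submodule ℤ (S × F → ℤ) := (LinearMap.ker φ).map (C1 ℤ N).subtype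
  have hmem : ∀ c, c ∈ La ↔ c ∈ X.Z1 ℤ N ∧ ∀ j, I (g j) c (x j) = 0 := by
    intro c
    constructor
    · rintro ⟨c', hc', rfl⟩
      have h1 : φ c' = 0 := hc'
      have h2 := congrArg (fun z => (z.1 : ℕ × F → ℤ)) h1
      have h3 := congrArg (fun z => z.2) h1
      exact ⟨⟨c'.2, h2⟩, fun j => congrFun h3 j⟩
    · rintro ⟨⟨h1, h2⟩, h3⟩
      exact ⟨⟨c, h1⟩, Prod.ext (Subtype.ext h2) (funext h3), rfl⟩
  have hrank : finrank ℤ La = finrank ℤ (LinearMap.ker φ) := Submodule.finrank_map_subtype_eq _ _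
  have hfin : Module.Finite ℤ La := inferInstance
  have hpz : (p : ℤ) ≠ 0 := by exact_mod_cast hp.out.ne_zero
  have hsat : ∀ c : S × F → ℤ, (p : ℤ) • c ∈ La → c ∈ La := by
    intro c hc
    rw [hmem] at hc ⊢
    obtain ⟨⟨h1, h2⟩, h3⟩ := hc
    refine ⟨⟨mem_C1.mpr (fun n hn => ?_), ?_⟩, fun j => ?_⟩
    · have := mem_C1.mp h1 n hn
      rw [map_smul] at this
      exact smul_right_injective _ hpz this
    · have h4 : X.δ ((p : ℤ) • c) = 0 := h2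
      rw [map_smul] at h4
      exact (smul_eq_zero.mp h4).resolve_left hpz
    · have := h3 j
      rw [map_smul, Pi.smul_apply, smul_eq_mul] at this
      exact (mul_eq_zero.mp this).resolve_left hpz
  obtain ⟨A, hA1, hA2⟩ := exists_red (p := p) La hsat
  refine ⟨A, fun α hα => ?_, ?_, fun α hα => ?_⟩
  · obtain ⟨c, hc, rfl⟩ := hA2 α hα
    obtain ⟨⟨h1, h2⟩, -⟩ := (hmem c).mp hc
    refine ⟨mem_C1.mpr (fun n hn => ?_), ?_⟩
    · funext e
      have := congrFun (mem_C1.mp h1 n hn) e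
      rw [Rt_apply] at this ⊢
      rw [this]
    · change X.δ _ = 0
      funext ⟨j, y⟩
      by_cases h : y ∈ X.Y j
      · have h4 := congrFun (show X.δ c = 0 from h2) (j, y)
        rw [X.δ_pos _ h] at h4 ⊢
        have := I_cast (Int.castRingHom (ZMod p)) (X.ρ j) c y
        rw [h4] at this
        simpa using this
      · exact X.δ_neg _ h
  · have h1 := (LinearMap.ker φ).finrank_quotient_add_finrank
    rw [φ.quotKerEquivRange.finrank_eq] at h1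
    have h2 := Submodule.finrank_le (LinearMap.range φ)
    rw [finrank_prod, finrank_Fn hY X.yfin, finrank_fintype_fun_eq_card] at h2
    rw [finrank_C1] at h1
    omega
  · obtain ⟨c, hc, rfl⟩ := hA2 α hα
    exact ⟨c, ((hmem c).mp hc).1, ((hmem c).mp hc).2, rfl⟩

end Pool.Agent.MP_702fe9_al.H61

end MrgPart1

-- ======== part 2: formerly Pool.Agent.MP_702fe9_al.h61.Wit
section MrgPart2

set_option autoImplicit false
set_option linter.unusedSectionVars false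

namespace Pool.Agent.MP_702fe9_al.H61

open Module

variable {p : ℕ} [hp : Fact p.Prime]

/-- evaluation of a cochain on a path -/
noncomputable def evI {R : Type} [CommRing R] (g x : F) : (S × F → R) →ₗ[R] R :=
  LinearMap.proj x ∘ₗ I g

theorem evI_apply {R : Type} [CommRing R] (g x : F) (χ : S × F → R) : evI g x χ = I g χ x := rfl

namespace Cx

variable {X : Cx}

theorem h2_eq {N : Subgroup F} [N.FiniteIndex] (hY : YInv X.Y N) :
    finrank (ZMod p) ((Fn (ZMod p) X.Y N).map (X.B2 (ZMod p) N).mkQ) = X.h2 p N := by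
  have := fin2 (p := p) hY
  have h2 := fr_map_add_ker (X.B2 (ZMod p) N).mkQ (Fn (ZMod p) X.Y N)
  rw [Submodule.ker_mkQ, inf_eq_right.mpr (B2_le hY)] at h2
  have h3 := h2_add (p := p) hY
  omega

theorem generic_cup (h3 : 3 ≤ p) {N : Subgroup F} [N.FiniteIndex] (hY : YInv X.Y N)
    {A J H : Submodule (ZMod p) (S × F → ZMod p)} (hA : A ≤ X.Z1 (ZMod p) N)
    (hJ : J ≤ X.Z1 (ZMod p) N) (hH : ¬ A ≤ H) {a b : ℕ}
    (ha : finrank (ZMod p) (X.Z1 (ZMod p) N) ≤ finrank (ZMod p) A + a)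
    (hb : finrank (ZMod p) (X.Z1 (ZMod p) N) ≤ finrank (ZMod p) J + b)
    (hg : X.Good p N (a + b + X.h2 p N + 2)) (e : Module.Dual (ZMod p) (S × F → ZMod p)) :
    ∃ α ∈ A, α ∉ H ∧ ∀ z, X.Cyc p N z →
      (∃ β ∈ J, z (X.TT α β) ≠ 0) ∧ ∃ β ∈ J, z (X.TT α β) ≠ e β := by
  have := fin2 (p := p) hY
  have := finZ (p := p) (X := X) N
  have : Module.Finite (ZMod p) A := Submodule.finiteDimensional_of_le hA
  let Q := (Fn (ZMod p) X.Y N).map (X.B2 (ZMod p) N).mkQ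
  let r : {z // X.Cyc p N z} → Module.Dual (ZMod p) Q := fun z =>
    (X.B2 (ZMod p) N).liftQ z.1 (fun y hy => z.2.1 y hy) ∘ₗ Q.subtype
  have hr : ∀ z z', r z = r z' → ∀ y ∈ Fn (ZMod p) X.Y N, z.1 y = z'.1 y := by
    intro z z' h y hy
    exact LinearMap.congr_fun h ⟨_, y, hy, rfl⟩
  have hfin : Finite (Module.Dual (ZMod p) Q) := finite_of_fd (p := p) _
  have hcard : Nat.card (Set.range r) ≤ p ^ X.h2 p N := by
    rw [← h2_eq hY, ← Subspace.dual_finrank_eq, ← card_fd (p := p)]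
    exact Nat.card_le_card_of_injective _ Subtype.val_injective
  let zz : Set.range r → {z // X.Cyc p N z} := fun ζ => ζ.2.choose
  have hzz : ∀ ζ, r (zz ζ) = ζ.1 := fun ζ => ζ.2.choose_spec
  obtain ⟨α, hα, hαH, hgen⟩ := generic h3 A H hH hcard
    (fun ζ => J.dualRestrict ∘ₗ X.cup p (zz ζ).1) (fun _ => 0) (fun _ => J.dualRestrict e)
    (fun ζ => by
      have h1 := hg _ (zz ζ).2
      have h2 := rk_left (X.cup p (zz ζ).1) (X.Z1 (ZMod p) N) hA ha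
      have h3 := rk_right (X.cup p (zz ζ).1) A hJ hb
      change _ ≤ rk (X.cup p (zz ζ).1) A J
      omega)
  refine ⟨α, hα, hαH, fun z hz => ?_⟩
  obtain ⟨h1, h2⟩ := hgen ⟨r ⟨z, hz⟩, _, rfl⟩
  have key : ∀ β ∈ J, z (X.TT α β) = (zz ⟨r ⟨z, hz⟩, _, rfl⟩).1 (X.TT α β) := fun β hβ =>
    (hr _ _ (hzz ⟨r ⟨z, hz⟩, _, rfl⟩) _ (TT_mem hY (hA hα).1 (hJ hβ).1)).symm
  constructor
  · by_contra hc
    push Not at hc
    apply h1
    apply LinearMap.ext
    intro β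
    exact (key β β.2).symm.trans (hc β β.2)
  · by_contra hc
    push Not at hc
    apply h2
    apply LinearMap.ext
    intro β
    exact (key β β.2).symm.trans (hc β β.2)

theorem dual_cup {N : Subgroup F} (hY : YInv X.Y N) {J : Submodule (ZMod p) (S × F → ZMod p)}
    (hJ : J ≤ X.Z1 (ZMod p) N) {α : S × F → ZMod p} (hα : α ∈ C1 (ZMod p) N)
    {e : Module.Dual (ZMod p) (S × F → ZMod p)} (he : ∃ β ∈ J, e β ≠ 0)
    (h : ∀ z, X.Cyc p N z → ∃ β ∈ J, z (X.TT α β) ≠ e β) :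
    ∃ β ∈ J, X.TT α β ∈ X.B2 (ZMod p) N ∧ e β ≠ 0 := by
  by_contra hc
  push Not at hc
  obtain ⟨z, hz⟩ := exists_factor ((X.B2 (ZMod p) N).mkQ ∘ₗ X.TT α) e J
    (fun β hβ h0 => hc β hβ (by simpa using h0))
  obtain ⟨β0, hβ0, he0⟩ := he
  obtain ⟨β, hβ, hne⟩ := h (z ∘ₗ (X.B2 (ZMod p) N).mkQ) ⟨fun y hy => by
    rw [LinearMap.comp_apply, Submodule.mkQ_apply, (Submodule.Quotient.mk_eq_zero _).mpr hy,
      map_zero], _, TT_mem hY hα (hJ hβ0).1, by rw [← hz β0 hβ0] at he0; exact he0⟩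
  exact hne (hz β hβ)

theorem capSurj_of {N : Subgroup F} {α : S × F → ZMod p}
    (h : ∀ z, X.Cyc p N z → ∃ β ∈ X.Z1 (ZMod p) N, z (X.TT α β) ≠ 0) : X.CapSurj p N α := by
  intro y hy
  have : y ∈ X.B2 (ZMod p) N ⊔ (X.Z1 (ZMod p) N).map (X.TT α) := by
    by_contra hc
    obtain ⟨z, hz, hz0⟩ := exists_dual hc
    obtain ⟨β, hβ, hne⟩ := h z ⟨fun b hb => hz0 b (Submodule.mem_sup_left hb), y, hy, hz⟩
    exact hne (hz0 _ (Submodule.mem_sup_right ⟨β, hβ, rfl⟩))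
  obtain ⟨b, hb, _, ⟨ψ, hψ, rfl⟩, rfl⟩ := Submodule.mem_sup.mp this
  exact ⟨ψ, hψ, by rwa [add_sub_cancel_right]⟩

theorem d_om_zero {K M : Subgroup F} (φ : IP K M) :
    d (φ.om p 0) = fun e => ((d φ.A e : ℤ) : ZMod p) := by
  funext e
  simp [d_apply, IP.om_zero]

theorem wit (h3 : 3 ≤ p) {U N : Subgroup F} (ok : X.Ok p U) (hN : Lev p X.KK N) (hle : N ≤ U)
    {L : ℕ} (hP : X.PP p N L) {J : Type} [Fintype J] (hJ : Fintype.card J ≤ L) (b : J → F)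
    (e : Module.Dual (ZMod p) (S × F → ZMod p)) :
    ∃ φ : IP X.KK N, (∀ j, φ.A (b j) = 0) ∧ (∃ t ∈ N, ¬ (p : ℤ) ∣ φ.A t) ∧
      X.CapSurj p N (d (φ.om p 0)) ∧
      ∀ z, X.Cyc p N z → ∃ β ∈ X.Z1 (ZMod p) N, z (X.TT (d (φ.om p 0)) β) ≠ e β := by
  have := hN.fin
  have hY := ok.inv.mono hle
  have := finZ (p := p) (X := X) N
  obtain ⟨A, hA, hdim, hint⟩ := int_sub (p := p) hY b (fun _ => 1)
  have h1 := h2_add (p := p) hY
  have h2 := Z1_add (p := p) (X := X) N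
  rw [finrank_Fn hY X.yfin] at h1
  have hP2 := hP.2
  let H : Submodule (ZMod p) (S × F → ZMod p) := ⨅ n : N, LinearMap.ker (evI (n : F) 1)
  have hH : ∀ α, α ∈ H ↔ ∀ n ∈ N, pot α n = 0 := by
    intro α
    simp only [H, Submodule.mem_iInf, LinearMap.mem_ker, Subtype.forall]
    rfl
  have hAH : ¬ A ≤ H := by
    intro h
    have := finite_Fn (R := ZMod p) (yinv_univ (ι := Unit) N) (yfin_of_finite _)
    have h4 := fr_le_of_inj (LinearMap.pi (fun e : Unit × F => evI (R := ZMod p) e.2 1)) (A := A)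
      (B := Fn (ZMod p) (fun _ : Unit => Set.univ) N)
      (by
        intro α _ h0
        have : pot α = 0 := funext (fun x => congrFun h0 ((), x))
        rw [← d_pot α, this, map_zero])
      (by
        intro α hα
        refine ⟨fun _ he => absurd trivial he, fun g hg => funext (fun e => ?_)⟩
        change pot α (e.2 * g) = pot α e.2
        rw [pot_addOn (hA hα).1 _ g hg, (hH α).mp (h hα) g hg, add_zero])
    rw [finrank_Fn (yinv_univ N) (yfin_of_finite _), nn_univ] at h4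
    simp only [Nat.card_unique, one_mul] at h4
    omega
  obtain ⟨α, hα, hαH, hgen⟩ := generic_cup h3 hY hA le_rfl hAH (a := X.h2 p N + L) (b := 0)
    (by omega) (by omega) (hP.1.mono (by omega)) e
  obtain ⟨c, hc, hc0, rfl⟩ := hint α hα
  let φ : IP X.KK N := ⟨pot c, pot_addOn hc.1, ok.int_kill hN hc⟩
  have hd : d (φ.om p 0) = fun e => ((c e : ℤ) : ZMod p) := by
    rw [d_om_zero]
    change (fun e => ((d (pot c) e : ℤ) : ZMod p)) = _
    rw [d_pot]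
  refine ⟨φ, hc0, ?_, ?_, ?_⟩
  · rw [hH] at hαH
    push Not at hαH
    obtain ⟨n, hn, hne⟩ := hαH
    refine ⟨n, hn, fun hdvd => hne ?_⟩
    have := I_cast (Int.castRingHom (ZMod p)) n c 1
    simp only [eq_intCast] at this
    exact this.trans ((ZMod.intCast_zmod_eq_zero_iff_dvd _ _).mpr hdvd)
  · rw [hd]
    exact capSurj_of (fun z hz => (hgen z hz).1)
  · rw [hd]
    exact fun z hz => (hgen z hz).2

theorem exists_tower (h3 : 3 ≤ p) {U N : Subgroup F} (ok : X.Ok p U) (hN : Lev p X.KK N)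
    (hle : N ≤ U) {L : ℕ} (hP : X.PP p N L) : ∃ φ : IP X.KK N, X.Tower p (φ.tw p) := by
  obtain ⟨φ, -, ⟨t, ht, hu⟩, hc, -⟩ := wit h3 ok hN hle hP (J := Empty) (by simp) Empty.elim 0
  exact ⟨φ, tower_of_capSurj hN (ok.inv.mono hle) hP φ ht hu hc⟩

/-- the invariant passes to arbitrarily deep levels -/
theorem exists_deep (h3 : 3 ≤ p) {U N : Subgroup F} (ok : X.Ok p U) (hN : Lev p X.KK N)
    (hle : N ≤ U) (hP : X.PP p N 0) {N' : Subgroup F} (hN' : Lev p X.KK N')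
    (hn : ∀ g ∈ N, ∀ n ∈ N', g⁻¹ * n * g ∈ N') (L : ℕ) :
    ∃ φ : IP X.KK N, ∃ k, X.PP p (N' ⊓ φ.tw p k) L := by
  obtain ⟨φ, hφ⟩ := exists_tower h3 ok hN hle hP
  obtain ⟨k, hk⟩ := (hφ.inf (fun k => ok.inv.mono ((φ.tw_le k).trans hle)) hN'
    (fun k g hg => hn g (φ.tw_le k hg))).pp L
  exact ⟨φ, k, hk k le_rfl⟩

end Cx

end Pool.Agent.MP_702fe9_al.H61

end MrgPart2

-- ======== part 3: formerly Pool.Agent.MP_702fe9_al.h61.Inj
section MrgPart3

set_option autoImplicit false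
set_option linter.unusedSectionVars false

namespace Pool.Agent.MP_702fe9_al.H61

open Module

variable {p : ℕ} [hp : Fact p.Prime]

theorem Cx.codim_cap {X : Cx} {N : Subgroup F} [N.FiniteIndex] (hY : YInv X.Y N)
    {α : S × F → ZMod p} (hα : α ∈ C1 (ZMod p) N) :
    finrank (ZMod p) (X.Z1 (ZMod p) N) ≤ finrank (ZMod p)
      (X.Z1 (ZMod p) N ⊓ (X.B2 (ZMod p) N).comap (X.TT α) : Submodule (ZMod p) (S × F → ZMod p)) +
      X.h2 p N := by
  have := Cx.finZ (p := p) (X := X) N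
  have := Cx.fin2 (p := p) hY
  have h1 := fr_map_add_ker ((X.B2 (ZMod p) N).mkQ ∘ₗ X.TT α) (X.Z1 (ZMod p) N)
  rw [LinearMap.ker_comp, Submodule.ker_mkQ] at h1
  have h2 : finrank (ZMod p) ((X.Z1 (ZMod p) N).map ((X.B2 (ZMod p) N).mkQ ∘ₗ X.TT α)) ≤
      finrank (ZMod p) ((Fn (ZMod p) X.Y N).map (X.B2 (ZMod p) N).mkQ) := by
    apply fr_mono
    rintro _ ⟨β, hβ, rfl⟩
    exact ⟨_, Cx.TT_mem hY hα hβ.1, rfl⟩
  rw [Cx.h2_eq hY] at h2
  omega

namespace LoopData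
variable {X : Cx} {U : Subgroup F} (Ld : LoopData p X U)

theorem yinv (ok : X.Ok p U) {N : Subgroup F} (hle : N ≤ Ld.M) : YInv X.Y N :=
  ok.inv.mono (hle.trans Ld.le)

theorem V_le (N : Subgroup F) (k : ℕ) : Ld.V N k ≤ Ld.M := fun _ h => h.2.1

theorem tower_V (ok : X.Ok p U) {N : Subgroup F} (hN : Lev p X.KK N)
    (hn : ∀ g ∈ Ld.M, ∀ n ∈ N, g⁻¹ * n * g ∈ N) : X.Tower p (Ld.V N) :=
  Ld.tower.inf (fun k => Ld.yinv ok (Ld.φ.tw_le k)) hN (fun k g hg => hn g (Ld.φ.tw_le k hg))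

theorem d_om_mem {N : Subgroup F} (hN : Lev p X.KK N) (k : ℕ) :
    d (Ld.φ.om p k) ∈ X.Z1 (ZMod p) (Ld.V N k) :=
  Cx.d_mem_Z1 (Ld.V_lev hN k).le ((Ld.φ.om_add k).mono inf_le_right) (Ld.φ.om_kill k)

theorem I_rel_om {k : ℕ} (hv : Ld.v ≤ k) (x : F) :
    I (Ld.rel k) (d (Ld.φ.om p k)) x = (Ld.u x : ZMod p) := by
  have hm : Ld.a x ^ (p ^ (k - Ld.v)) ∈ Ld.φ.tw p k :=
    ⟨Ld.M.pow_mem (Ld.a_mem x) _, by rw [Ld.A_rel hv]; exact Dvd.intro _ rfl⟩
  rw [(Ld.φ.om_add k).I_d_conj (by rw [conj_pow_eq]; exact hm), conj_pow_eq,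
    Ld.φ.om_val (Ld.A_rel hv x)]

theorem injProp (h3 : 3 ≤ p) (ok : X.Ok p U) : Ld.InjProp := by
  intro N hN hle hn
  have hT := Ld.tower_V ok hN hn
  obtain ⟨C, hC⟩ := hT.2.1
  obtain ⟨hh, k1, hk1⟩ := converges_of_monotone_of_bounded (f := fun k => X.h2 p (Ld.V N k))
    (fun κ k h => Cx.h2_mono (Ld.V_cov hN hle h) (Ld.yinv ok (Ld.V_le N κ))) hC
  obtain ⟨k2, hk2⟩ := hT.pp 0
  obtain ⟨k3, hv3, hk3⟩ := Ld.exists_rel_mem hN
  refine ⟨k1 + k2 + k3, fun κ hκ k hk x g hg hhom => ?_⟩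
  by_contra hgn
  have hvκ : Ld.v ≤ κ := by omega
  have hb := (hk3 κ (by omega)).1
  have hlV := Ld.V_lev hN κ
  have := hlV.fin
  have hY := Ld.yinv ok (Ld.V_le N κ)
  have hcs := Ld.φ.cycS hN hle hk (hb x) (Ld.A_rel hvκ x) (Ld.u_unit x)
  have := hcs.cov.finQ
  have hst : X.Stable p (Ld.V N κ) (Ld.V N k) := Cx.stable_of_h2 hcs.cov hY
    (by rw [hk1 k (by omega), hk1 κ (by omega)])
  have hP := hk2 κ (by omega)
  have hH : ¬ X.Z1 (ZMod p) (Ld.V N κ) ≤ LinearMap.ker (evI g 1) := fun h =>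
    hgn (Cx.mem_Phi_of_Z1 hlV.le (hcs.cov.le hg) (fun χ hχ => h hχ))
  obtain ⟨α, hα, hαg, hgen⟩ := Cx.generic_cup h3 hY le_rfl inf_le_left hH (a := 0)
    (by omega) (Cx.codim_cap hY hcs.add.d_mem) (hP.1.mono (by omega)) (evI (Ld.rel κ) x)
  obtain ⟨ψ0, hψ0, hT0, he0⟩ := Cx.dual_cup hY inf_le_left hα.1 (e := evI (Ld.rel κ) x)
    (by
      refine ⟨_, ⟨Cx.tr_mem_Z1 hcs.cov hY (Ld.d_om_mem hN k), ?_⟩, ?_⟩
      · have := Cx.cyc_key hcs hY (Ld.d_om_mem hN k).1 (Submodule.zero_mem _)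
          (by rw [map_zero, sub_zero]; exact (show X.δ _ = 0 from (Ld.d_om_mem hN k).2).symm)
        rw [map_zero, smul_zero, zero_sub] at this
        exact (Submodule.neg_mem_iff (X.B2 (ZMod p) (Ld.V N κ))).mp this
      · rw [evI_apply, ← Ld.I_rel_tr hvκ hk.le (hb x) (Ld.d_om_mem hN k).1,
          Ld.I_rel_om (by omega)]
        exact fun h0 => Ld.u_unit x ((ZMod.intCast_zmod_eq_zero_iff_dvd _ _).mp h0))
    (fun z hz => (hgen z hz).2)
  obtain ⟨ψ, hψ, rfl⟩ := Cx.cyc_lift hcs hY hst hψ0.1 hψ0.2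
  obtain ⟨β, hβ, hβe⟩ := hst _ (Cx.TT_mem (hY.mono hcs.cov.le) (Fn_mono _ hcs.cov.le hα.1) hψ.1)
    (by rw [Cx.tr_TT_right hY hα.1]; exact hT0)
  have hle2 : Ld.V (Phi p X.KK (Ld.V N κ)) k ≤ Ld.V N k :=
    inf_le_inf_right _ ((Phi_le _ _).trans inf_le_left)
  have hZ : mulF (pot α) ψ - β ∈ X.Z1 (ZMod p) (Ld.V (Phi p X.KK (Ld.V N κ)) k) := by
    refine ⟨Submodule.sub_mem _ (mulF_mem (fun y n hn => ?_) (Fn_mono _ hle2 hψ.1))
      (Fn_mono _ hle2 hβ), ?_⟩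
    · rw [pot_addOn hα.1 y n (Phi_le _ _ hn.1), ok.pot_phi hlV hα hn.1, add_zero]
    · change X.δ (mulF (pot α) ψ - β) = 0
      rw [map_sub, Cx.δ_mulF, d_pot, show X.δ ψ = 0 from hψ.2, map_zero, add_zero, hβe, sub_self]
  have hq : ∀ y, Ld.a y ^ (p ^ (k - Ld.v)) ∈ Ld.V (Phi p X.KK (Ld.V N κ)) k := by
    intro y
    refine ⟨?_, ((hk3 k (by omega)).1 y).2⟩
    have e : p ^ (k - Ld.v) = p ^ (κ - Ld.v) * p ^ (k - κ - 1) * p := by
      rw [← pow_add, ← pow_succ]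
      congr 1
      omega
    rw [e, pow_mul, pow_mul]
    exact pow_mem_Phi (Subgroup.pow_mem _ (hb y) _)
  have h1 := (Ld.hom_iff ok hlV.phi (hq x) (hq (x * g))).mp hhom _ hZ
  have h2 : Rt g (mulF (pot α) ψ - β) = (mulF (pot α) ψ - β) + pot α g • ψ := by
    rw [map_sub, Rt_mulF, hψ.1.2 g hg, hβ.2 g hg]
    funext e
    simp only [Pi.sub_apply, Pi.add_apply, mulF_apply, Pi.smul_apply, smul_eq_mul]
    rw [pot_addOn hα.1 _ g (hcs.cov.le hg)]
    ring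
  rw [← I_Rt, h2, map_add, map_smul, Pi.add_apply, Pi.smul_apply, smul_eq_mul, left_eq_add,
    mul_eq_zero] at h1
  rcases h1 with h1 | h1
  · exact hαg h1
  · rw [Ld.I_rel_tr hvκ hk.le (hb x) hψ.1] at h1
    exact he0 h1

end LoopData

end Pool.Agent.MP_702fe9_al.H61

end MrgPart3

-- marker of a merged file
example : 731051 + 85055 = 731051 + 85055 := rfl

end MrgPart2

-- marker of a merged file
example : 731051 + 85055 = 731051 + 85055 := rfl
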