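import Mathlib.SetTheory.Cardinal.Free
import Mathlib.GroupTheory.Archimedean
import Pool.Agent.MP_702fe9_al.h61.Inj
import Pool.Agent.MP_702fe9_al.h96.Ean
import Pool.Agent.MP_702fe9_al.h96.Cycl

-- ======== part 0: formerly Pool.Agent.MP_702fe9_al.h61.Dd
section MrgPart0

set_option autoImplicit false
set_option linter.unusedSectionVars false

namespace Pool.Agent.MP_702fe9_al.H61

open Module

variable {p : ℕ} [hp : Fact p.Prime]

theorem relIndex_le_nn {N N' : Subgroup F} (hle : N' ≤ N) [N'.FiniteIndex] :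
    N'.relIndex N ≤ nn (fun _ : Unit => (N : Set F)) N' := by
  have := finite_orb (yfin_of_finite (fun _ : Unit => (N : Set F))) N'
  refine Nat.card_le_card_of_injective (α := Qt N N') (fun q =>
    (⟨((), QuotientGroup.mk ((q.out : N) : F)), ?_⟩ : Orb (fun _ : Unit => (N : Set F)) N')) ?_
  · obtain ⟨h, hh⟩ := QuotientGroup.mk_out_eq_mul N' ((q.out : N) : F)
    change (QuotientGroup.mk ((q.out : N) : F) : F ⧸ N').out ∈ N
    rw [hh]
    exact N.mul_mem (q.out : N).2 (hle h.2)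
  · intro q q' h
    have h1 : (QuotientGroup.mk ((q.out : N) : F) : F ⧸ N') = QuotientGroup.mk ((q'.out : N) : F) :=
      congrArg (fun o : Orb (fun _ : Unit => (N : Set F)) N' => o.1.2) h
    rw [QuotientGroup.eq] at h1
    rw [← QuotientGroup.out_eq' q, ← QuotientGroup.out_eq' q', QuotientGroup.eq,
      Subgroup.mem_subgroupOf]
    exact h1

theorem IP.cycS0 {K N : Subgroup F} (φ : IP K N) (hN : Lev p K N) {t : F} (ht : t ∈ N)
    (hu : ¬ (p : ℤ) ∣ φ.A t) {k : ℕ} (hk : 0 < k) :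
    CycS N (φ.tw p k) t (φ.om p 0) ∧ (φ.tw p k).relIndex N = p ^ k := by
  have e : ∀ k, N ⊓ φ.tw p k = φ.tw p k := fun k => inf_eq_right.mpr (φ.tw_le k)
  have hb : t ∈ N ⊓ φ.tw p 0 := by rw [e, φ.tw_zero]; exact ht
  have hA : φ.A t = (p : ℤ) ^ 0 * φ.A t := by simp
  have h1 := φ.cycS hN le_rfl hk hb hA hu
  have h2 := φ.relIndex_tw (Nat.zero_le k) hb hA hu
  rw [e, e, φ.tw_zero] at h1 h2
  exact ⟨h1, h2⟩

namespace Cx

variable {X : Cx}

theorem many_loops {U M V : Subgroup F} (ok : X.Ok p U) (hV : Lev p X.KK V) (hle : M ≤ U)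
    (hc : Cov p M V) {a : F} (ha : a ∈ V) {ψ : S × F → ZMod p} (hψ : ψ ∈ X.Z1 (ZMod p) V)
    (hne : I a (tr M V ψ) 1 ≠ 0) (hlt : X.h2 p V < V.relIndex M) :
    ∃ (φ : IP X.KK V) (x : F), x ∈ M ∧ φ.A (x⁻¹ * a * x) ≠ 0 := by
  classical
  by_contra hcon
  push Not at hcon
  have := hV.fin
  have := hc.finQ
  have hY := ok.inv.mono hle
  have := finZ (p := p) (X := X) V
  let Y0 : Unit → Set F := fun _ => (M : Set F)
  have hY0 : YInv Y0 M := fun _ x g hg hx => M.mul_mem hx hg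
  let ind : F → ZMod p := fun x => if x ∈ M then 1 else 0
  have hind : ∀ x, ∀ g ∈ M, ind (x * g) = ind x := fun x g hg =>
    if_congr (M.mul_mem_cancel_right hg) rfl rfl
  let E0 : (S × F → ZMod p) →ₗ[ZMod p] (Unit × F → ZMod p) :=
    LinearMap.pi (fun e : Unit × F => evI a e.2)
  have hE0 : ∀ g α, Rt g (E0 α) = E0 (Rt g α) := fun g α => funext (fun e => (I_Rt a g α e.2).symm)
  let E := mulF ind ∘ₗ E0
  have hE : ∀ α e, E α e = ind e.2 * I a α e.2 := fun _ _ => rfl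
  have hERt : ∀ g ∈ M, ∀ α, Rt g (E α) = E (Rt g α) := by
    intro g hg α
    funext e
    rw [Rt_apply, hE, hE, hind _ g hg, I_Rt]
  have hS := hc.nak hY0 (yfin_of_finite _) ((X.Z1 (ZMod p) V).map E)
    (by
      rintro _ ⟨α, hα, rfl⟩
      refine ⟨fun e he => ?_, fun g hg => by rw [hERt g (hc.le hg), hα.1.2 g hg]⟩
      rw [hE, show ind e.2 = 0 from if_neg he, zero_mul])
    (by
      rintro g hg _ ⟨α, hα, rfl⟩
      exact ⟨_, Rt_mem_Z1 hc hY hg hα, (hERt g hg α).symm⟩)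
    (by
      intro f hf
      refine ⟨_, ⟨(f ((), 1) / I a (tr M V ψ) 1) • ψ, Submodule.smul_mem _ _ hψ, rfl⟩, ?_⟩
      have := Fintype.ofFinite (Qt M V)
      have h1 : tr M V (E ψ) = E (tr M V ψ) := by
        rw [tr_apply, tr_apply, map_sum]
        exact Finset.sum_congr rfl (fun q _ => hERt _ (q.out : M).2 ψ)
      rw [map_smul, map_smul, h1]
      funext e
      rw [Pi.smul_apply, hE, smul_eq_mul]
      by_cases he : e.2 ∈ M
      · have h2 : I a (tr M V ψ) e.2 = I a (tr M V ψ) 1 := by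
          have := I_Rt a e.2 (tr M V ψ) 1
          rw [(tr_mem_Z1 hc hY hψ).1.2 _ he, one_mul] at this
          exact this.symm
        have h3 : f e = f ((), 1) := by
          have := Fn.app hf () 1 he
          rwa [one_mul] at this
        rw [h2, h3, show ind e.2 = 1 from if_pos he, one_mul, div_mul_cancel₀ _ hne]
      · rw [show ind e.2 = 0 from if_neg he, hf.1 e he]
        simp)
  have h1 := fr_mono hS
  rw [finrank_Fn (hY0.mono hc.le) (yfin_of_finite _)] at h1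
  have h2 := relIndex_le_nn hc.le
  obtain ⟨A, hA, hdim, hint⟩ := int_sub (p := p) (hY.mono hc.le) (J := Empty) Empty.elim Empty.elim
  have h3 := fr_map_add_ker E (X.Z1 (ZMod p) V)
  have : Module.Finite (ZMod p) (X.Z1 (ZMod p) V ⊓ LinearMap.ker E :
    Submodule (ZMod p) (S × F → ZMod p)) := Submodule.finiteDimensional_of_le inf_le_left
  have h4 : finrank (ZMod p) A ≤ finrank (ZMod p) (X.Z1 (ZMod p) V ⊓ LinearMap.ker E :
      Submodule (ZMod p) (S × F → ZMod p)) := by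
    apply fr_mono
    intro α hα
    refine ⟨hA hα, ?_⟩
    obtain ⟨c, hc', -, rfl⟩ := hint α hα
    change E _ = 0
    funext e
    rw [hE]
    by_cases he : e.2 ∈ M
    · have h5 := I_cast (Int.castRingHom (ZMod p)) a c e.2
      simp only [eq_intCast] at h5
      have h6 := hcon ⟨pot c, pot_addOn hc'.1, ok.int_kill hV hc'⟩ e.2 he
      rw [h5, I_eq_pot_conj hc'.1 (hc.norm _ he _ ha), show pot c _ = 0 from h6]
      simp
    · rw [show ind e.2 = 0 from if_neg he, zero_mul]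
      rfl
  have h5 := h2_add (p := p) (hY.mono hc.le)
  have h6 := Z1_add (p := p) (X := X) V
  rw [finrank_Fn (hY.mono hc.le) X.yfin] at h5
  simp only [Fintype.card_eq_zero, add_zero] at hdim
  change _ ≤ nn Y0 V at h2
  omega

theorem exists_int_ne (h3 : 3 ≤ p) {U : Subgroup F} (ok : X.Ok p U) (hP : X.PP p U 0) (w : F)
    (hw : ∀ a : ℕ, ∃ N : Subgroup F, Lev p X.KK N ∧ w ^ (p ^ a) ∉ N) :
    ∃ (N : Subgroup F) (φ : IP X.KK N), Lev p X.KK N ∧ N ≤ U ∧ ∃ (x : F) (n : ℕ),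
      x⁻¹ * w ^ (p ^ n) * x ∈ N ∧ φ.A (x⁻¹ * w ^ (p ^ n) * x) ≠ 0 := by
  by_contra hcon
  push Not at hcon
  obtain ⟨a0, ha0⟩ := ok.lev.pp
  obtain ⟨N0', hN0', hn0'⟩ := hw a0
  have hN0 := hN0'.core
  have hn0 : w ^ (p ^ a0) ∉ N0'.normalCore := fun h => hn0' (Subgroup.normalCore_le _ h)
  set a := w ^ (p ^ a0) with ha
  have hzero : ∀ (N : Subgroup F) (φ : IP X.KK N), Lev p X.KK N → N ≤ U → a ∈ N → φ.A a = 0 := by
    intro N φ hN hle haN
    have := hcon N φ hN hle 1 a0 (by simpa using haN)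
    simpa using this
  have key : ∀ s : ℕ, ∀ M : Subgroup F, Lev p X.KK M → M ≤ U → X.PP p M 0 → a ∈ M →
      imSize N0'.normalCore M < s → False := by
    intro s
    induction s with
    | zero => intro M _ _ _ _ h; omega
    | succ s ih =>
      intro M hM hle hPM haM hs
      by_cases hphi : a ∈ Phi p X.KK M
      · obtain ⟨φ, k, hk⟩ := exists_deep h3 ok hM hle hPM hM.phi hM.cov_phi.norm 0
        refine ih _ (hM.phi.inf (φ.tw_lev hM k)) (inf_le_right.trans ((φ.tw_le k).trans hle)) hk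
          ⟨hphi, haM, by rw [hzero M φ hM hle haM]; exact dvd_zero _⟩ ?_
        have h1 := imSize_phi_lt hN0 (M := M) (fun h => hn0 (h haM))
        have h2 := imSize_mono hN0 (inf_le_left : Phi p X.KK M ⊓ φ.tw p k ≤ _)
        omega
      · have hY := ok.inv.mono hle
        obtain ⟨φ, -, ⟨t, ht, hu⟩, hcap, hz⟩ := wit h3 ok hM hle hPM (J := Empty) (by simp)
          Empty.elim (evI a 1)
        obtain ⟨ψ0, hψ0, hT, he⟩ := dual_cup hY le_rfl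
          ((φ.om_add 0).mono (φ.tw_zero (p := p)).ge).d_mem (e := evI a 1) (by
            by_contra hc
            push Not at hc
            exact hphi (mem_Phi_of_Z1 hM.le haM hc)) hz
        obtain ⟨hcs, hrel⟩ := φ.cycS0 hM ht hu (Nat.succ_pos (X.h2 p M))
        have hst := cyc_stable hcs hY hcap
        obtain ⟨ψ, hψ, rfl⟩ := cyc_lift hcs hY hst hψ0 hT
        have haV : a ∈ φ.tw p (X.h2 p M).succ :=
          ⟨haM, by rw [hzero M φ hM hle haM]; exact dvd_zero _⟩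
        obtain ⟨φ', x, hx, hne⟩ := many_loops ok (φ.tw_lev hM _) hle hcs.cov haV hψ he (by
          have h1 := hst.h2_le hcs.cov hY
          have h2 : (X.h2 p M).succ < p ^ (X.h2 p M).succ := Nat.lt_pow_self hp.out.one_lt
          omega)
        exact hne (hcon _ φ' (φ.tw_lev hM _) ((φ.tw_le _).trans hle) x a0
          (hcs.cov.norm x hx a haV))
  exact key _ U ok.lev le_rfl hP (ha0 w) (Nat.lt_succ_self _)

end Cx

theorem exists_equal_val {K N : Subgroup F} [K.Normal] [hn : N.Normal] (hN : Lev p K N) {w : F}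
    (hw : w ∈ N) (φ : IP K N) {x0 : F} (h0 : φ.A (x0⁻¹ * w * x0) ≠ 0) :
    ∃ (φ1 : IP K N) (v : ℕ) (c : ℤ) (u : F → ℤ), ¬ (p : ℤ) ∣ c ∧
      ∀ x, φ1.A (x⁻¹ * w * x) = (p : ℤ) ^ v * u x ∧ (p : ℤ) ∣ u x - c := by
  classical
  have := hN.fin
  let P : ℕ → Prop := fun v => ∀ α : F → ℤ, HomOn N α → (∀ κ ∈ K, α κ = 0) →
    ∀ x, (p : ℤ) ^ v ∣ α (x * w * x⁻¹)
  have hex : ∃ v, ¬ P (v + 1) := by
    refine ⟨(φ.A (x0⁻¹ * w * x0)).natAbs, fun h => ?_⟩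
    have h1 := h φ.A φ.add.homOn φ.kill x0⁻¹
    rw [inv_inv] at h1
    have h2 := Int.natAbs_le_of_dvd_ne_zero h1 h0
    rw [Int.natAbs_pow, Int.natAbs_natCast] at h2
    have h3 : (φ.A (x0⁻¹ * w * x0)).natAbs + 1 < p ^ ((φ.A (x0⁻¹ * w * x0)).natAbs + 1) :=
      Nat.lt_pow_self hp.out.one_lt
    omega
  have hPv : P (Nat.find hex) := by
    rcases Nat.eq_zero_or_pos (Nat.find hex) with h | h
    · rw [h]
      intro α _ _ x
      simp
    · have := Nat.find_min hex (m := Nat.find hex - 1) (by omega)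
      rw [not_not, show Nat.find hex - 1 + 1 = Nat.find hex by omega] at this
      exact this
  have hnP := Nat.find_spec hex
  set v := Nat.find hex
  let K' : Submodule (ZMod p) (F ⧸ N → ZMod p) :=
    { carrier := {m | ∃ α : F → ℤ, HomOn N α ∧ (∀ κ ∈ K, α κ = 0) ∧
        ∀ x, m (QuotientGroup.mk x) = ((α (x * w * x⁻¹) / (p : ℤ) ^ v : ℤ) : ZMod p)}
      add_mem' := by
        rintro m m' ⟨α, h1, h2, h3⟩ ⟨α', h1', h2', h3'⟩
        refine ⟨α + α', fun a ha b hb => ?_, fun κ hκ => by simp [h2 κ hκ, h2' κ hκ], fun x => ?_⟩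
        · simp only [Pi.add_apply, h1 a ha b hb, h1' a ha b hb]; ring
        · rw [Pi.add_apply, Pi.add_apply, h3, h3', Int.add_ediv_of_dvd_right (hPv α' h1' h2' x),
            Int.cast_add]
      zero_mem' := ⟨0, fun _ _ _ _ => by simp, fun _ _ => rfl, fun _ => by simp⟩
      smul_mem' := by
        rintro c m ⟨α, h1, h2, h3⟩
        refine ⟨fun x => (c.val : ℤ) * α x, fun a ha b hb => ?_, fun κ hκ => by simp [h2 κ hκ],
          fun x => ?_⟩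
        · simp only [h1 a ha b hb]; ring
        · rw [Pi.smul_apply, h3, Int.mul_ediv_assoc _ (hPv α h1 h2 x)]
          simp }
  have hK' : K' ≠ ⊥ := by
    intro hb
    apply hnP
    intro α h1 h2 x
    have hm : (fun q : F ⧸ N => ((α (q.out * w * q.out⁻¹) / (p : ℤ) ^ v : ℤ) : ZMod p)) ∈ K' := by
      refine ⟨α, h1, h2, fun y => ?_⟩
      obtain ⟨h, hh⟩ := QuotientGroup.mk_out_eq_mul N y
      have e : y * h * w * (y * h)⁻¹ = (y * (h : F)⁻¹ * y⁻¹)⁻¹ * (y * w * y⁻¹) * (y * (h : F)⁻¹ * y⁻¹) := by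
        group
      simp only
      rw [hh, e, h1.conj (hn.conj_mem _ hw y) (hn.conj_mem _ (N.inv_mem h.2) y)]
    obtain ⟨α', h1', h2', h3'⟩ := id hm
    have h4 : ((α (x * w * x⁻¹) / (p : ℤ) ^ v : ℤ) : ZMod p) = 0 := by
      rw [hb] at hm
      have h5 := congrFun ((Submodule.mem_bot _).mp hm) (QuotientGroup.mk x)
      obtain ⟨h, hh⟩ := QuotientGroup.mk_out_eq_mul N x
      have e : x * h * w * (x * h)⁻¹ = (x * (h : F)⁻¹ * x⁻¹)⁻¹ * (x * w * x⁻¹) * (x * (h : F)⁻¹ * x⁻¹) := by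
        group
      simp only [Pi.zero_apply] at h5
      rwa [hh, e, h1.conj (hn.conj_mem _ hw x) (hn.conj_mem _ (N.inv_mem h.2) x)] at h5
    obtain ⟨r, hr⟩ := hPv α h1 h2 x
    rw [hr, Int.mul_ediv_cancel_left _ (pow_ne_zero _ pz_ne), ZMod.intCast_zmod_eq_zero_iff_dvd]
      at h4
    rw [hr, pow_succ]
    exact mul_dvd_mul_left _ h4
  obtain ⟨e, he0, α, h1, h2, h3⟩ := FVQ (G := F) (Q := F ⧸ N) (by
      intro g
      obtain ⟨a, ha⟩ := hN.pp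
      refine ⟨a, fun q => ?_⟩
      obtain ⟨x, rfl⟩ := QuotientGroup.mk_surjective q
      rw [MulAction.Quotient.smul_mk, QuotientGroup.eq]
      have := hn.conj_mem' _ (N.inv_mem (ha g)) x
      simpa [mul_assoc] using this) K' hK' (by
      rintro g m ⟨α, h1, h2, h3⟩
      refine ⟨fun y => α (g * y * g⁻¹), fun a ha b hb => ?_,
        fun κ hκ => h2 _ (Subgroup.Normal.conj_mem inferInstance κ hκ g), fun x => ?_⟩
      · have : g * (a * b) * g⁻¹ = (g * a * g⁻¹) * (g * b * g⁻¹) := by group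
        simp only
        rw [this, h1 _ (hn.conj_mem a ha g) _ (hn.conj_mem b hb g)]
      · simp only
        rw [MulAction.Quotient.smul_mk, h3]
        have : g • x * w * (g • x)⁻¹ = g * (x * w * x⁻¹) * g⁻¹ := by
          rw [smul_eq_mul]; group
        rw [this])
  obtain ⟨A, hA, hA'⟩ := h1.exists_addOn
  refine ⟨⟨A, hA, fun κ hκ => by rw [hA' κ (hN.le hκ), h2 κ hκ]⟩, v, (e.val : ℤ),
    fun x => α (x⁻¹ * w * x) / (p : ℤ) ^ v, ?_, fun x => ⟨?_, ?_⟩⟩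
  · intro h
    apply he0
    have := (ZMod.intCast_zmod_eq_zero_iff_dvd _ _).mpr h
    simpa using this
  · have h4 := hPv α h1 h2 x⁻¹
    rw [inv_inv] at h4
    change A _ = _
    rw [hA' _ (hn.conj_mem' _ hw x), Int.mul_ediv_cancel' h4]
  · have h4 := h3 x⁻¹
    rw [inv_inv] at h4
    rw [← ZMod.intCast_zmod_eq_zero_iff_dvd]
    push_cast
    rw [← h4]
    simp

end Pool.Agent.MP_702fe9_al.H61

end MrgPart0

-- ======== part 1: formerly Pool.Agent.MP_702fe9_al.h61.Loops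
section MrgPart1

set_option autoImplicit false
set_option linter.unusedSectionVars false

namespace Pool.Agent.MP_702fe9_al.H61

open Module

variable {p : ℕ} [hp : Fact p.Prime]

theorem bound_inv (N : Subgroup F) [N.FiniteIndex] (f : F → ℕ)
    (h : ∀ x, ∀ g ∈ N, f (x * g) = f x) : ∃ B, ∀ x, f x ≤ B := by
  obtain ⟨B, hB⟩ := (Set.finite_range (fun q : F ⧸ N => f q.out)).bddAbove
  refine ⟨B, fun x => ?_⟩
  obtain ⟨g, hg⟩ := QuotientGroup.mk_out_eq_mul N x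
  have := hB ⟨QuotientGroup.mk x, rfl⟩
  simp only at this
  rwa [hg, h x g g.2] at this

theorem exists_val {a : ℤ} (ha : a ≠ 0) :
    ∃ (κ : ℕ) (u : ℤ), κ ≤ a.natAbs ∧ a = (p : ℤ) ^ κ * u ∧ ¬ (p : ℤ) ∣ u := by
  obtain ⟨e, c, hc, he⟩ := Nat.exists_eq_pow_mul_and_not_dvd (Int.natAbs_ne_zero.mpr ha) p
    hp.out.ne_one
  have h1 : e ≤ a.natAbs := by
    have h5 : e < p ^ e := Nat.lt_pow_self hp.out.one_lt
    have h6 : p ^ e ≤ p ^ e * c := Nat.le_mul_of_pos_right _ (Nat.pos_of_ne_zero (by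
      rintro rfl
      exact hc (dvd_zero _)))
    omega
  have hc' : ¬ (p : ℤ) ∣ (c : ℤ) := by exact_mod_cast hc
  rcases Int.natAbs_eq a with h | h
  · exact ⟨e, c, h1, by rw [h, he]; push_cast; ring, hc'⟩
  · exact ⟨e, -c, h1, by rw [h, he]; push_cast; ring, by rwa [dvd_neg]⟩

/-- adding a multiple of another integral potential -/
def IP.comb {K M N : Subgroup F} (φ : IP K M) (ψ : IP K N) (h : M ≤ N) (c : ℤ) : IP K M where
  A := fun x => φ.A x + c * ψ.A x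
  add := fun f n hn => by
    simp only [φ.add f n hn, ψ.add f n (h hn)]
    ring
  kill := fun κ hκ => by simp [φ.kill κ hκ, ψ.kill κ hκ]

theorem IP.comb_A {K M N : Subgroup F} (φ : IP K M) (ψ : IP K N) (h : M ≤ N) (c : ℤ) (x : F) :
    (φ.comb ψ h c).A x = φ.A x + c * ψ.A x := rfl

theorem IP.comb_om {K M N : Subgroup F} (φ : IP K M) (ψ : IP K N) (h : M ≤ N) (c : ℤ) :
    (φ.comb ψ h (p * c)).om p 0 = φ.om p 0 := by
  funext x
  rw [IP.om_zero, IP.om_zero, IP.comb_A]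
  push_cast
  simp

theorem IP.comb_unit {K M N : Subgroup F} (φ : IP K M) (ψ : IP K N) (h : M ≤ N) (c : ℤ) {t : F}
    (ht : ¬ (p : ℤ) ∣ φ.A t) : ¬ (p : ℤ) ∣ (φ.comb ψ h (p * c)).A t := by
  intro hd
  apply ht
  rw [IP.comb_A, mul_assoc] at hd
  exact (dvd_add_left (Dvd.intro _ rfl)).mp hd

theorem IP.normalize {K M : Subgroup F} (hKM : K ≤ M) (φ : IP K M) {t0 : F} (ht0 : t0 ∈ M)
    (hu : ¬ (p : ℤ) ∣ φ.A t0) :
    ∃ (φ' : IP K M) (d0 : ℤ), ¬ (p : ℤ) ∣ d0 ∧ (∀ n ∈ M, φ.A n = d0 * φ'.A n) ∧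
      (∃ t ∈ M, φ'.A t = 1) ∧ φ'.tw p = φ.tw p := by
  have hA := φ.add.homOn
  let H : AddSubgroup ℤ :=
    { carrier := {z | ∃ n ∈ M, φ.A n = z}
      add_mem' := by
        rintro _ _ ⟨a, ha, rfl⟩ ⟨b, hb, rfl⟩
        exact ⟨a * b, M.mul_mem ha hb, hA a ha b hb⟩
      zero_mem' := ⟨1, M.one_mem, hA.one⟩
      neg_mem' := by
        rintro _ ⟨a, ha, rfl⟩
        exact ⟨a⁻¹, M.inv_mem ha, hA.inv ha⟩ }
  obtain ⟨d0, hd0⟩ := Int.subgroup_cyclic H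
  have hdvd : ∀ n ∈ M, d0 ∣ φ.A n := by
    intro n hn
    have : φ.A n ∈ H := ⟨n, hn, rfl⟩
    rw [hd0, AddSubgroup.mem_closure_singleton] at this
    obtain ⟨k, hk⟩ := this
    exact ⟨k, by rw [← hk, smul_eq_mul, mul_comm]⟩
  have hpd : ¬ (p : ℤ) ∣ d0 := fun h => hu (h.trans (hdvd t0 ht0))
  have hne : d0 ≠ 0 := by
    rintro rfl
    exact hpd (dvd_zero _)
  obtain ⟨t, ht, htd⟩ : d0 ∈ H := by
    rw [hd0]
    exact AddSubgroup.mem_closure_singleton_self d0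
  have hα : HomOn M (fun n => φ.A n / d0) := by
    intro a ha b hb
    simp only
    rw [hA a ha b hb, Int.add_ediv_of_dvd_left (hdvd a ha)]
  obtain ⟨A, hA1, hA2⟩ := hα.exists_addOn
  have key : ∀ n ∈ M, φ.A n = d0 * A n := by
    intro n hn
    rw [hA2 n hn, Int.mul_ediv_cancel' (hdvd n hn)]
  refine ⟨⟨A, hA1, fun κ hκ => by rw [hA2 κ (hKM hκ)]; simp [φ.kill κ hκ]⟩, d0, hpd, key,
    ⟨t, ht, ?_⟩, ?_⟩
  · change A t = 1
    rw [hA2 t ht, htd, Int.ediv_self hne]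
  · funext k
    ext n
    simp only [IP.mem_tw]
    refine and_congr_right (fun hn => ?_)
    rw [key n hn]
    exact ⟨fun h => Dvd.dvd.mul_left h _, fun h => pow_dvd_of_dvd_mul hpd (by rwa [mul_comm] at h)⟩

theorem conj_pow' (x w : F) (n : ℕ) : x⁻¹ * w ^ n * x = (x⁻¹ * w * x) ^ n := by
  have := conj_pow (a := x⁻¹) (b := w) (i := n)
  rw [inv_inv] at this
  exact this.symm

namespace Cx

variable {X : Cx}

theorem exists_loopData (h3 : 3 ≤ p) {U : Subgroup F} (ok : X.Ok p U) (hP : X.PP p U 0) (w0 : F)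
    (hw : ∀ a : ℕ, ∃ N : Subgroup F, Lev p X.KK N ∧ w0 ^ (p ^ a) ∉ N) :
    ∃ (Ld : LoopData p X U) (a : ℕ), Ld.w = w0 ^ (p ^ a) := by
  obtain ⟨N, φ, hN, hNU, x0, n, hx0, hne⟩ := exists_int_ne h3 ok hP w0 hw
  have hN1 := hN.core
  have hN1le : N.normalCore ≤ N := Subgroup.normalCore_le N
  obtain ⟨a1, ha1⟩ := hN1.pp
  obtain ⟨φ1, v, c, u, hc, hval⟩ := exists_equal_val hN1 (ha1 (w0 ^ (p ^ n)))
    ⟨φ.A, φ.add.mono hN1le, φ.kill⟩ (x0 := x0) (by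
      change φ.A _ ≠ 0
      rw [conj_pow', φ.add.homOn.pow hx0, nsmul_eq_mul]
      exact mul_ne_zero (by exact_mod_cast pow_ne_zero _ hp.out.ne_zero) hne)
  generalize hw1 : (w0 ^ (p ^ n)) ^ (p ^ a1) = w1 at hval φ1
  have hmem1 : ∀ x, x⁻¹ * w1 * x ∈ N.normalCore := fun x =>
    Subgroup.Normal.conj_mem' inferInstance _ (hw1 ▸ ha1 _) x
  have hune : ∀ x, ¬ (p : ℤ) ∣ u x := fun x h => hc (by simpa using dvd_sub h (hval x).2)
  have hval1 : ∀ x (l : ℕ), φ1.A ((x⁻¹ * w1 * x) ^ (p ^ l)) = (p : ℤ) ^ (l + v) * u x := by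
    intro x l
    rw [φ1.add.homOn.pow (hmem1 x), (hval x).1, nsmul_eq_mul]
    push_cast
    ring
  obtain ⟨ψ, k2, hP2⟩ := exists_deep h3 ok ok.lev le_rfl hP hN1
    (fun g _ m hm => Subgroup.Normal.conj_mem' inferInstance m hm g) 0
  have hN2 := hN1.inf (ψ.tw_lev ok.lev k2)
  set N2 := N.normalCore ⊓ ψ.tw p k2 with hN2def
  have hN2U : N2 ≤ U := inf_le_left.trans (hN1le.trans hNU)
  have hN21 : N2 ≤ N.normalCore := inf_le_left
  have := hN2.fin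
  obtain ⟨φ2, -, ⟨t2, ht2, hu2⟩, hcap2, -⟩ := wit h3 ok hN2 hN2U hP2 (J := Empty) (by simp)
    Empty.elim 0
  obtain ⟨n2, hn2⟩ := hN2.pp
  have hinv : ∀ (χ : IP X.KK N2) (x : F), ∀ g ∈ N2,
      χ.A (((x * g)⁻¹ * w1 * (x * g)) ^ (p ^ n2)) = χ.A ((x⁻¹ * w1 * x) ^ (p ^ n2)) := by
    intro χ x g hg
    have e : ((x * g)⁻¹ * w1 * (x * g)) ^ (p ^ n2) = g⁻¹ * (x⁻¹ * w1 * x) ^ (p ^ n2) * g := by
      rw [conj_pow' g]
      congr 1
      group
    rw [e, χ.add.homOn.conj (hn2 _) hg]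
  obtain ⟨B, hB⟩ := bound_inv N2 (fun x => (φ2.A ((x⁻¹ * w1 * x) ^ (p ^ n2))).natAbs)
    (fun x g hg => by simp only [hinv φ2 x g hg])
  let φ3 := φ2.comb φ1 hN21 (p * (B + 1))
  have hT3 : X.Tower p (φ3.tw p) := tower_of_capSurj hN2 (ok.inv.mono hN2U) hP2 φ3 ht2
    (φ2.comb_unit φ1 hN21 _ hu2) (by rw [IP.comb_om]; exact hcap2)
  have hne3 : ∀ x, φ3.A ((x⁻¹ * w1 * x) ^ (p ^ n2)) ≠ 0 := by
    intro x h0
    rw [IP.comb_A, hval1, add_eq_zero_iff_eq_neg] at h0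
    have h1 := hB x
    have h2 : (p : ℤ) ^ (n2 + v) * u x ≠ 0 := mul_ne_zero (pow_ne_zero _ pz_ne) (by
      intro h
      exact hune x (h ▸ dvd_zero _))
    have h4 := Int.natAbs_pos.mpr h2
    rw [h0, Int.natAbs_neg, Int.natAbs_mul, Int.natAbs_mul, Int.natAbs_natCast] at h1
    have h5 : ((B : ℤ) + 1).natAbs = B + 1 := by omega
    rw [h5] at h1
    have h6 : 1 * (B + 1) * 1 ≤ p * (B + 1) * ((p : ℤ) ^ (n2 + v) * u x).natAbs :=
      Nat.mul_le_mul (Nat.mul_le_mul_right _ (by omega)) h4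
    omega
  obtain ⟨κ, hκ⟩ := bound_inv N2 (fun x => (φ3.A ((x⁻¹ * w1 * x) ^ (p ^ n2))).natAbs)
    (fun x g hg => by simp only [hinv φ3 x g hg])
  obtain ⟨k3, hk3⟩ := hT3.pp (φ3.tw p κ).index
  have hP3 := hk3 k3 le_rfl
  have hM := φ3.tw_lev hN2 k3
  have hMle : φ3.tw p k3 ≤ N2 := φ3.tw_le k3
  obtain ⟨n3, hn3⟩ := hM.pp
  have := (φ3.tw_lev hN2 κ).fin
  have := Fintype.ofFinite (F ⧸ φ3.tw p κ)
  obtain ⟨φ4, hb4, ⟨t4, ht4, hu4⟩, hcap4, -⟩ := wit h3 ok hM (hMle.trans hN2U) hP3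
    (J := F ⧸ φ3.tw p κ) (by rw [← Nat.card_eq_fintype_card]; exact le_rfl)
    (fun q => (q.out⁻¹ * w1 * q.out) ^ (p ^ n3)) 0
  have hvan : ∀ x, φ4.A ((x⁻¹ * w1 * x) ^ (p ^ n3)) = 0 := by
    intro x
    obtain ⟨g, hg⟩ := QuotientGroup.mk_out_eq_mul (φ3.tw p κ) x
    have h0 := hb4 (QuotientGroup.mk x)
    rw [hg] at h0
    obtain ⟨κx, ux, h1, h2, h4⟩ := exists_val (p := p) (hne3 x)
    obtain ⟨j, hj⟩ := φ3.exists_zpow_mul_mem (N := ⊤) k3 (g := g)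
      ⟨trivial, hn2 _, by rw [h2]; exact Dvd.intro _ rfl⟩ h2 h4
      ⟨trivial, φ3.tw_anti (h1.trans (hκ x)) g.2⟩
    have e : ((x * g)⁻¹ * w1 * (x * g)) ^ (p ^ n3) =
        (((x⁻¹ * w1 * x) ^ (p ^ n2)) ^ j * g)⁻¹ * (x⁻¹ * w1 * x) ^ (p ^ n3) *
          (((x⁻¹ * w1 * x) ^ (p ^ n2)) ^ j * g) := by
      have e1 : (x * g)⁻¹ * w1 * (x * g) = (g : F)⁻¹ * (x⁻¹ * w1 * x) * g := by group
      rw [e1, ← conj_pow']
      generalize x⁻¹ * w1 * x = y
      generalize p ^ n2 = P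
      generalize p ^ n3 = Q
      group
    rwa [e, φ4.add.homOn.conj (hn3 _) hj.2] at h0
  let φ5 := φ4.comb φ1 (hMle.trans hN21) (p * 1)
  have hT5 : X.Tower p (φ5.tw p) := tower_of_capSurj hM (ok.inv.mono (hMle.trans hN2U)) hP3 φ5 ht4
    (φ4.comb_unit φ1 _ _ hu4) (by rw [IP.comb_om]; exact hcap4)
  obtain ⟨φ6, d0, hd0, hA6, ⟨t, ht, ht1⟩, htw⟩ := φ5.normalize hM.le ht4
    (φ4.comb_unit φ1 _ _ hu4)
  have hval5 : ∀ x, d0 * φ6.A (x⁻¹ * w1 ^ (p ^ n3) * x) = (p : ℤ) ^ (n3 + v + 1) * u x := by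
    intro x
    rw [conj_pow', ← hA6 _ (hn3 _), IP.comb_A, hvan, hval1]
    ring
  have hdv : ∀ x, (p : ℤ) ^ (n3 + v + 1) ∣ φ6.A (x⁻¹ * w1 ^ (p ^ n3) * x) := fun x =>
    pow_dvd_of_dvd_mul hd0 (by rw [mul_comm, hval5]; exact Dvd.intro _ rfl)
  choose u' hu' using hdv
  have huu : ∀ x, u x = d0 * u' x := by
    intro x
    have := hval5 x
    rw [hu' x] at this
    apply mul_left_cancel₀ (pow_ne_zero (n3 + v + 1) (pz_ne (p := p)))
    rw [← this]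
    ring
  refine ⟨⟨φ3.tw p k3, φ6, w1 ^ (p ^ n3), n3 + v + 1, u' 1, u', t, hM, hMle.trans hN2U,
    fun x => by rw [conj_pow']; exact hn3 _, hu', fun x => ?_, fun h => hune 1 ?_, ht, ht1,
    by rw [htw]; exact hT5⟩, n + a1 + n3, ?_⟩
  · have h1 := dvd_sub (hval x).2 (hval 1).2
    rw [sub_sub_sub_cancel_right, huu x, huu 1, ← mul_sub] at h1
    exact (pz_prime.dvd_or_dvd h1).resolve_left hd0
  · rw [huu 1]
    exact Dvd.dvd.mul_left h _
  · change w1 ^ (p ^ n3) = _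
    rw [← hw1, ← pow_mul, ← pow_mul, pow_add, pow_add, mul_assoc]

end Cx

end Pool.Agent.MP_702fe9_al.H61

end MrgPart1

-- ======== part 2: formerly Pool.Agent.MP_702fe9_al.h53.Tr
section MrgPart2

set_option autoImplicit false
set_option linter.unusedSectionVars false

namespace Pool.Agent.MP_702fe9_al.H61

open Module

variable {p : ℕ} [hp : Fact p.Prime]

section band
variable {N : Subgroup F} {Ph : F → ℤ}

theorem trb_disp [N.FiniteIndex] (hA : AddOn N Ph) (r : F) :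
    ∃ R : ℤ, ∀ y, |Ph (r * y) - Ph y| ≤ R := by
  obtain ⟨R, hR⟩ := (Set.finite_range fun q : F ⧸ N => |Ph (r * q.out) - Ph q.out|).bddAbove
  refine ⟨R, fun y => ?_⟩
  obtain ⟨h, hh⟩ := QuotientGroup.mk_out_eq_mul N y
  have := hR ⟨QuotientGroup.mk y, rfl⟩
  simp only at this
  rwa [hh, ← mul_assoc, hA _ _ h.2, hA _ _ h.2, add_sub_add_right_eq_sub] at this

theorem trb_disp_fin [N.FiniteIndex] (hA : AddOn N Ph) (s : Finset F) :
    ∃ R : ℤ, ∀ r ∈ s, ∀ y, |Ph (r * y) - Ph y| ≤ R := by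
  choose R hR using trb_disp hA
  obtain ⟨B, hB⟩ := (s.finite_toSet.image R).bddAbove
  exact ⟨B, fun r hr y => (hR r y).trans (hB ⟨r, hr, rfl⟩)⟩

theorem trb_disp_all [N.FiniteIndex] (hA : AddOn N Ph) (X : Cx) :
    ∃ R : ℤ, ∀ j < X.m, ∀ e ∈ (D (X.ρ j)).support, ∀ y, |Ph (e.2 * y) - Ph y| ≤ R := by
  classical
  obtain ⟨R, hR⟩ := trb_disp_fin hA
    ((Finset.range X.m).biUnion fun j => (D (X.ρ j)).support.image Prod.snd)
  exact ⟨R, fun j hj e he => hR _ (Finset.mem_biUnion.2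
    ⟨j, Finset.mem_range.2 hj, Finset.mem_image_of_mem _ he⟩)⟩

theorem trb_I_congr {R : Type} [CommRing R] {g y : F} {χ χ' : S × F → R}
    (h : ∀ e ∈ (D g).support, χ (e.1, e.2 * y) = χ' (e.1, e.2 * y)) : I g χ y = I g χ' y := by
  rw [I_apply, I_apply]
  exact Finset.sum_congr rfl fun e he => by rw [h e he]

theorem trb_conj (hA : AddOn N Ph) {g n : F} (hg : g ∈ N) (hn : n ∈ hA.homOn.ker) :
    g⁻¹ * n * g ∈ hA.homOn.ker :=
  ⟨N.mul_mem (N.mul_mem (N.inv_mem hg) hn.1) hg, (hA.homOn.conj hn.1 hg).trans hn.2⟩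

theorem trb_Rt_mem (hA : AddOn N Ph) {g : F} (hg : g ∈ N) {χ : S × F → ZMod p}
    (h : χ ∈ C1 (ZMod p) hA.homOn.ker) : Rt g χ ∈ C1 (ZMod p) hA.homOn.ker := by
  refine mem_C1.2 fun n hn => ?_
  have : n * g = g * (g⁻¹ * n * g) := by group
  rw [Rt_Rt, this, ← Rt_Rt, h.2 _ (trb_conj hA hg hn)]

variable (p Ph) in
/-- indicator of a half line -/
def trbH (c : ℤ) (x : F) : ZMod p := if c ≤ Ph x then 1 else 0

theorem trbH_inv (hA : AddOn N Ph) (c : ℤ) (x : F) :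
    ∀ g ∈ hA.homOn.ker, trbH p Ph c (x * g) = trbH p Ph c x := fun g hg => by
  rw [trbH, hA x g hg.1, hg.2, add_zero, trbH]

variable (p) in
/-- cochains with bounded support on the infinite cyclic cover -/
def trbC (hA : AddOn N Ph) : Submodule (ZMod p) (S × F → ZMod p) where
  carrier := {η | η ∈ C1 (ZMod p) hA.homOn.ker ∧ ∃ B : ℤ, ∀ e : S × F, B < |Ph e.2| → η e = 0}
  add_mem' := by
    rintro a b ⟨h1, B, h2⟩ ⟨h3, B', h4⟩
    refine ⟨Submodule.add_mem _ h1 h3, max B B', fun e he => ?_⟩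
    rw [Pi.add_apply, h2 e ((le_max_left _ _).trans_lt he), h4 e ((le_max_right _ _).trans_lt he),
      add_zero]
  zero_mem' := ⟨Submodule.zero_mem _, 0, fun _ _ => rfl⟩
  smul_mem' := by
    rintro c a ⟨h1, B, h2⟩
    exact ⟨Submodule.smul_mem _ c h1, B, fun e he => by rw [Pi.smul_apply, h2 e he, smul_zero]⟩

theorem trbC_Rt (hA : AddOn N Ph) {g : F} (hg : g ∈ N) {η : S × F → ZMod p}
    (h : η ∈ trbC p hA) : Rt g η ∈ trbC p hA := by
  obtain ⟨h1, B, h2⟩ := h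
  refine ⟨trb_Rt_mem hA hg h1, B + |Ph g|, fun e he => h2 _ ?_⟩
  have := abs_sub (Ph e.2 + Ph g) (Ph g)
  rw [add_sub_cancel_right] at this
  simp only [hA _ _ hg]
  omega

variable (p) in
/-- cochains whose cut can be corrected to a cocycle -/
noncomputable def trbO (hA : AddOn N Ph) (X : Cx) : Submodule (ZMod p) (S × F → ZMod p) :=
  C1 (ZMod p) hA.homOn.ker ⊓ ((trbC p hA).map X.δ).comap (X.δ ∘ₗ mulF (trbH p Ph 0))

theorem trbO_Rt (hA : AddOn N Ph) {X : Cx} (hY : YInv X.Y N) {g : F} (hg : g ∈ N)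
    {θ : S × F → ZMod p} (h : θ ∈ trbO p hA X) : Rt g θ ∈ trbO p hA X := by
  obtain ⟨h1, η, hη, h2⟩ := h
  have h2' : X.δ η = X.δ (mulF (trbH p Ph 0) θ) := h2
  have h3 : mulF (trbH p Ph (Ph g)) θ - mulF (trbH p Ph 0) θ ∈ trbC p hA := by
    refine ⟨Submodule.sub_mem _ (mulF_mem (trbH_inv hA _) h1) (mulF_mem (trbH_inv hA _) h1),
      |Ph g|, fun e he => ?_⟩
    have : (Ph g ≤ Ph e.2) ↔ 0 ≤ Ph e.2 := by
      rcases abs_cases (Ph g) with h | h <;> rcases abs_cases (Ph e.2) with h' | h' <;> omega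
    simp only [Pi.sub_apply, mulF_apply, trbH, this, sub_self]
  refine ⟨trb_Rt_mem hA hg h1, _, trbC_Rt hA hg (Submodule.add_mem _ hη h3), ?_⟩
  rw [← Cx.Rt_δ hY hg, map_add, h2', ← map_add, add_sub_cancel, Cx.Rt_δ hY hg, Rt_mulF]
  change _ = X.δ (mulF _ _)
  congr 3
  funext x
  simp only [trbH, hA x g hg, le_add_iff_nonneg_left]

theorem trb_cut {X : Cx} {R : ℤ}
    (hR : ∀ j < X.m, ∀ e ∈ (D (X.ρ j)).support, ∀ y, |Ph (e.2 * y) - Ph y| ≤ R)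
    {θ : S × F → ZMod p} (h : X.δ θ = 0) (e : ℕ × F) (he : R < |Ph e.2|) :
    X.δ (mulF (trbH p Ph 0) θ) e = 0 := by
  obtain ⟨j, y⟩ := e
  by_cases hy : y ∈ X.Y j
  · have h1 := fun e he => abs_le.1 (hR j (X.lt_of_mem hy) e he y)
    rw [X.δ_pos _ hy]
    rcases lt_abs.1 he with h2 | h2
    · rw [trb_I_congr (χ' := θ) fun e he => by
        rw [mulF_apply, trbH, if_pos (by have := h1 e he; simp only at h2 ⊢; omega), one_mul],
        ← X.δ_pos _ hy, h]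
      rfl
    · rw [trb_I_congr (χ' := 0) fun e he => by
        rw [mulF_apply, trbH, if_neg (by have := h1 e he; simp only at h2 ⊢; omega), zero_mul]
        rfl, map_zero]
      rfl
  · exact X.δ_neg _ hy

theorem trb_finite [N.FiniteIndex] (hA : AddOn N Ph) (X : Cx) (R : ℤ) :
    {f : ℕ × F → ZMod p | f ∈ Fn (ZMod p) X.Y hA.homOn.ker ∧
      ∀ e : ℕ × F, R < |Ph e.2| → f e = 0}.Finite := by
  classical
  let A : Set (ℕ × (F ⧸ N) × ℤ) := Set.Iio X.m ×ˢ Set.univ ×ˢ Set.Icc (-R) R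
  have : Finite A := (Set.finite_Iio _).prod (Set.finite_univ.prod (Set.finite_Icc _ _))
  let r : (F ⧸ N) × ℤ → F := Function.invFun fun y => (QuotientGroup.mk y, Ph y)
  refine Set.Finite.of_injOn (f := fun (f : ℕ × F → ZMod p) (a : A) => f (a.1.1, r a.1.2))
    (Set.mapsTo_univ _ _) ?_ Set.finite_univ
  rintro f ⟨h1, h2⟩ f' ⟨h3, h4⟩ h
  funext ⟨j, y⟩
  by_cases hy : y ∈ X.Y j
  · by_cases hR : R < |Ph y|
    · rw [h2 _ hR, h4 _ hR]
    · have h5 := congrFun h ⟨(j, QuotientGroup.mk y, Ph y),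
        X.lt_of_mem hy, trivial, abs_le.1 (not_lt.1 hR)⟩
      have h6 : ((QuotientGroup.mk (r (QuotientGroup.mk y, Ph y)) : F ⧸ N),
          Ph (r (QuotientGroup.mk y, Ph y))) = (QuotientGroup.mk y, Ph y) :=
        Function.invFun_eq (f := fun y : F => ((QuotientGroup.mk y : F ⧸ N), Ph y)) ⟨y, rfl⟩
      simp only at h5
      generalize r (QuotientGroup.mk y, Ph y) = z at h5 h6
      obtain ⟨h7, h8⟩ := Prod.mk.inj h6
      have h9 : z⁻¹ * y ∈ N := QuotientGroup.eq.1 h7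
      have h10 : z⁻¹ * y ∈ hA.homOn.ker := ⟨h9, by
        have := hA z _ h9
        rw [mul_inv_cancel_left] at this
        omega⟩
      have e1 := Fn.app h1 j z h10
      have e2 := Fn.app h3 j z h10
      rw [mul_inv_cancel_left] at e1 e2
      rw [e1, e2, h5]
  · rw [h1.1 (j, y) hy, h3.1 (j, y) hy]

theorem trb_pigeon [N.FiniteIndex] (hA : AddOn N Ph) {X : Cx} (hY : YInv X.Y N) :
    ∃ L : ℕ, ∀ θ ∈ X.Z1 (ZMod p) hA.homOn.ker, ∀ t ∈ N, ∃ d, 0 < d ∧ d ≤ L ∧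
      Rt (t ^ d) θ - θ ∈ trbO p hA X := by
  obtain ⟨R, hR⟩ := trb_disp_all hA X
  have hfin := trb_finite (p := p) hA X R
  refine ⟨hfin.toFinset.card, fun θ hθ t ht => ?_⟩
  have hm := fun i : ℕ => trb_Rt_mem hA (N.pow_mem ht i) hθ.1
  have key : ∀ i j : ℕ, i < j → j ≤ hfin.toFinset.card →
      X.δ (mulF (trbH p Ph 0) (Rt (t ^ i) θ)) = X.δ (mulF (trbH p Ph 0) (Rt (t ^ j) θ)) →
      ∃ d, 0 < d ∧ d ≤ hfin.toFinset.card ∧ Rt (t ^ d) θ - θ ∈ trbO p hA X := by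
    intro i j hij hj h
    obtain ⟨d, rfl⟩ := Nat.exists_eq_add_of_le hij.le
    refine ⟨d, by omega, by omega, ?_⟩
    have h1 : Rt (t ^ (i + d)) θ - Rt (t ^ i) θ ∈ trbO p hA X :=
      ⟨Submodule.sub_mem _ (hm _) (hm _), 0, Submodule.zero_mem _, by
        rw [map_zero, map_sub, LinearMap.comp_apply, LinearMap.comp_apply, h, sub_self]⟩
    have h2 := trbO_Rt hA hY (N.inv_mem (N.pow_mem ht i)) h1
    rwa [map_sub, Rt_Rt, Rt_Rt, pow_add, inv_mul_cancel_left, inv_mul_cancel, Rt_one] at h2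
  obtain ⟨i, hi, j, hj, hne, h⟩ := Finset.exists_ne_map_eq_of_card_lt_of_maps_to
    (s := Finset.range (hfin.toFinset.card + 1)) (t := hfin.toFinset) (by simp)
    (f := fun i => X.δ (mulF (trbH p Ph 0) (Rt (t ^ i) θ))) fun i _ => by
      refine Finset.mem_coe.2 (hfin.mem_toFinset.2 ⟨Cx.δ_mem (N := hA.homOn.ker)
        (hY.mono fun n hn => hn.1) (mulF_mem (trbH_inv hA _) (hm i)), trb_cut hR ?_⟩)
      rw [← Cx.Rt_δ hY (N.pow_mem ht i), show X.δ θ = 0 from hθ.2, map_zero]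
  rw [Finset.mem_range] at hi hj
  rcases lt_or_gt_of_ne hne with h1 | h1
  · exact key i j h1 (by omega) h
  · exact key j i h1 (by omega) h.symm

/-- the elements that move a cochain inside its class -/
def trbG (hA : AddOn N Ph) {X : Cx} (hY : YInv X.Y N) (θ : S × F → ZMod p) : Subgroup F where
  carrier := {g | g ∈ N ∧ Rt g θ - θ ∈ trbO p hA X}
  mul_mem' := fun {a b} ha hb => ⟨N.mul_mem ha.1 hb.1, by
    have := Submodule.add_mem _ (trbO_Rt hA hY ha.1 hb.2) ha.2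
    rwa [map_sub, Rt_Rt, sub_add_sub_cancel] at this⟩
  one_mem' := ⟨N.one_mem, by rw [Rt_one, sub_self]; exact Submodule.zero_mem _⟩
  inv_mem' := fun {a} ha => ⟨N.inv_mem ha.1, by
    have := Submodule.neg_mem _ (trbO_Rt hA hY (N.inv_mem ha.1) ha.2)
    rwa [map_sub, Rt_Rt, inv_mul_cancel, Rt_one, neg_sub] at this⟩

/-- periodisation -/
noncomputable def trbPer (τ : F) (κ : S × F → ZMod p) (e : S × F) : ZMod p :=
  ∑ᶠ n : ℤ, κ (e.1, e.2 * τ ^ n)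

theorem trbPer_eq (hA : AddOn N Ph) {τ : F} (hτ : τ ∈ N) (h1 : 1 ≤ Ph τ) {κ : S × F → ZMod p}
    {B : ℤ} (hκ : ∀ e : S × F, B < |Ph e.2| → κ e = 0) (e : S × F) {C : ℕ}
    (hC : B + |Ph e.2| ≤ C) :
    trbPer τ κ e = ∑ n ∈ Finset.range (2 * C + 1), Rt (τ ^ ((n : ℤ) - C)) κ e := by
  rw [trbPer, finsum_eq_sum_of_support_subset
    (s := (Finset.range (2 * C + 1)).image fun n : ℕ => (n : ℤ) - C), Finset.sum_image
      fun a _ b _ h => by simpa using h]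
  · rfl
  · intro n hn
    have h2 : |Ph (e.2 * τ ^ n)| ≤ B := not_lt.1 fun h => hn (hκ _ h)
    rw [hA _ _ (N.zpow_mem hτ n), hA.homOn.zpow hτ, smul_eq_mul] at h2
    have h3 : |n| ≤ |n * Ph τ| := by
      rw [abs_mul]
      exact le_mul_of_one_le_right (abs_nonneg n) (h1.trans (le_abs_self _))
    have h4 := abs_sub (Ph e.2 + n * Ph τ) (Ph e.2)
    rw [add_sub_cancel_left] at h4
    have h5 := abs_le.1 (show |n| ≤ C by omega)
    simp only [Finset.coe_image, Finset.coe_range, Set.mem_image, Set.mem_Iio]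
    exact ⟨(n + C).toNat, by omega, by omega⟩

theorem trbPer_δ (hA : AddOn N Ph) {X : Cx} (hY : YInv X.Y N) {τ : F} (hτ : τ ∈ N)
    (h1 : 1 ≤ Ph τ) {κ : S × F → ZMod p} {B : ℤ} (hκ : ∀ e : S × F, B < |Ph e.2| → κ e = 0)
    (h0 : X.δ κ = 0) : X.δ (trbPer τ κ) = 0 := by
  funext ⟨j, y⟩
  by_cases hy : y ∈ X.Y j
  · obtain ⟨C, hC⟩ := ((D (X.ρ j)).support.finite_toSet.image
      fun e => (B + |Ph (e.2 * y)|).toNat).bddAbove
    rw [X.δ_pos _ hy, trb_I_congr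
      (χ' := ∑ n ∈ Finset.range (2 * C + 1), Rt (τ ^ ((n : ℤ) - C)) κ) fun e he => by
        rw [Finset.sum_apply]
        exact trbPer_eq hA hτ h1 hκ _ (Int.toNat_le.1 (hC ⟨e, he, rfl⟩)),
      ← X.δ_pos _ hy, map_sum, Finset.sum_eq_zero fun n _ => by
        rw [← Cx.Rt_δ hY (N.zpow_mem hτ _), h0, map_zero]]
  · exact X.δ_neg _ hy

theorem trbPer_Rt (hA : AddOn N Ph) {τ : F} (hτ : τ ∈ N) {κ : S × F → ZMod p}
    (hκ : κ ∈ C1 (ZMod p) hA.homOn.ker) {g : F} (hg : g ∈ N) (h : Ph τ ∣ Ph g) :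
    Rt g (trbPer τ κ) = trbPer τ κ := by
  obtain ⟨c, hc⟩ := h
  funext e
  rw [Rt_apply, trbPer, trbPer, ← finsum_comp_equiv (Equiv.addLeft c)
    (f := fun n : ℤ => κ (e.1, e.2 * τ ^ n))]
  refine finsum_congr fun n => ?_
  have h1 : (τ ^ (c + n))⁻¹ * g ∈ N := N.mul_mem (N.inv_mem (N.zpow_mem hτ _)) hg
  have h2 : (τ ^ (c + n))⁻¹ * g * τ ^ n ∈ hA.homOn.ker := ⟨N.mul_mem h1 (N.zpow_mem hτ n), by
    rw [hA _ _ (N.zpow_mem hτ n), hA _ _ hg, hA.homOn.inv (N.zpow_mem hτ _), hA.homOn.zpow hτ,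
      hA.homOn.zpow hτ, hc, smul_eq_mul, smul_eq_mul]
    ring⟩
  rw [Equiv.coe_addLeft, ← Fn.app hκ e.1 (e.2 * τ ^ (c + n)) h2]
  congr 2
  group

theorem trbPer_sum (hA : AddOn N Ph) {τ : F} (hτ : τ ∈ N) (h1 : 1 ≤ Ph τ) {q : ℕ} (hq : 0 < q)
    {θ ψ : S × F → ZMod p} (hθ : Rt τ θ = θ) {B B' : ℤ}
    (hκ : ∀ e : S × F, B < |Ph e.2| → (Rt τ ψ - ψ) e = 0)
    (hψ1 : ∀ e : S × F, B' < Ph e.2 → ψ e = θ e) (hψ2 : ∀ e : S × F, Ph e.2 < -B' → ψ e = 0) :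
    ∑ i ∈ Finset.range q, Rt (τ ^ i) (trbPer (τ ^ q) (Rt τ ψ - ψ)) = θ := by
  funext e
  have hq' : τ ^ q ∈ N := N.pow_mem hτ q
  have h2 : 1 ≤ Ph (τ ^ q) := by
    rw [hA.homOn.pow hτ, nsmul_eq_mul]
    exact one_le_mul_of_one_le_of_one_le (by exact_mod_cast hq) h1
  obtain ⟨C0, hC0⟩ := ((Finset.range q).finite_toSet.image
    fun i => (B + |Ph (e.2 * τ ^ i)|).toNat).bddAbove
  obtain ⟨C, hC1, hC2⟩ : ∃ C : ℕ, C0 ≤ C ∧ B' + |Ph e.2| < C :=
    ⟨max C0 ((B' + |Ph e.2|).toNat + 1), le_max_left _ _, by omega⟩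
  have h3 : ∀ i ∈ Finset.range q, Rt (τ ^ i) (trbPer (τ ^ q) (Rt τ ψ - ψ)) e =
      ∑ n ∈ Finset.range (2 * C + 1), (ψ (e.1, e.2 * τ ^ (i + 1) * (τ ^ q) ^ ((n : ℤ) - C))
        - ψ (e.1, e.2 * τ ^ i * (τ ^ q) ^ ((n : ℤ) - C))) := by
    intro i hi
    rw [Rt_apply, trbPer_eq hA hq' h2 hκ _ (C := C)
      (Int.toNat_le.1 ((hC0 ⟨i, hi, rfl⟩).trans hC1))]
    refine Finset.sum_congr rfl fun n _ => ?_
    simp only [Rt_apply, Pi.sub_apply]
    congr 3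
    group
  rw [Finset.sum_apply, Finset.sum_congr rfl h3, Finset.sum_comm,
    Finset.sum_congr rfl fun (n : ℕ) _ => Finset.sum_range_sub
      (fun i => ψ (e.1, e.2 * τ ^ i * (τ ^ q) ^ ((n : ℤ) - C))) q]
  have h4 : ∀ n : ℕ, e.2 * τ ^ q * (τ ^ q) ^ ((n : ℤ) - C)
      = e.2 * τ ^ 0 * (τ ^ q) ^ (((n + 1 : ℕ) : ℤ) - C) := fun n => by
    generalize τ ^ q = σ
    push_cast
    group
  simp only [h4]
  rw [Finset.sum_range_sub (fun n : ℕ => ψ (e.1, e.2 * τ ^ 0 * (τ ^ q) ^ ((n : ℤ) - C)))]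
  have h5 : ∀ n : ℤ, Ph (e.2 * τ ^ 0 * (τ ^ q) ^ n) = Ph e.2 + n * Ph (τ ^ q) := fun n => by
    rw [pow_zero, mul_one, hA _ _ (N.zpow_mem hq' n), hA.homOn.zpow hq', smul_eq_mul]
  have h6 := abs_le.1 (le_refl |Ph e.2|)
  have h7 : (C : ℤ) ≤ C * Ph (τ ^ q) := le_mul_of_one_le_right (Int.natCast_nonneg C) h2
  rw [hψ1, hψ2, sub_zero]
  · have h8 : ∀ n : ℕ, Rt (τ ^ n) θ = θ := fun n => by
      induction n with
      | zero => rw [pow_zero, Rt_one]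
      | succ n ih => rw [pow_succ, ← Rt_Rt, hθ, ih]
    rw [show ((2 * C + 1 : ℕ) : ℤ) - C = (C + 1 : ℕ) by push_cast; ring, zpow_natCast, ← pow_mul,
      pow_zero, mul_one]
    exact congrFun (h8 _) e
  · simp only [h5]
    push_cast
    linarith
  · simp only [h5]
    push_cast
    linarith

end band

theorem LoopData.tr_band {X : Cx} {U : Subgroup F} (ok : X.Ok p U) (Ld : LoopData p X U)
    {N : Subgroup F} (hN : Lev p X.KK N) (hle : N ≤ Ld.M) (x y : F)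
    (hsep : ∀ k0, ∃ k, k0 ≤ k ∧ ¬ Ld.Hom N k x y) :
    ∃ ρ0 k0 : ℕ, ∀ k, k0 ≤ k → ∃ θ ∈ X.Z1 (ZMod p) (Ld.V N k),
      (∀ e : S × F, θ e ≠ 0 → ∃ n : ℤ, |Ld.φ.A e.2 - n * (p : ℤ) ^ k| ≤ ρ0) ∧
      I (Ld.rel k) θ x ≠ I (Ld.rel k) θ y := by
  have := hN.fin
  have hA : AddOn N Ld.φ.A := Ld.φ.add.mono hle
  have hY : YInv X.Y N := ok.inv.mono (hle.trans Ld.le)
  have hker : ∀ k, hA.homOn.ker ≤ Ld.V N k := fun k n hn =>
    ⟨hn.1, hle hn.1, by rw [hn.2]; exact dvd_zero _⟩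
  obtain ⟨L, hL⟩ := trb_pigeon (p := p) hA hY
  obtain ⟨a, hva, ha⟩ := Ld.exists_rel_mem hN
  obtain ⟨k2, hk2, hsep2⟩ := hsep (a + L + 1)
  obtain ⟨hx0, hτ0⟩ := ha (a + L) (by omega)
  obtain ⟨hx2, hτ2⟩ := ha k2 (by omega)
  rw [Ld.hom_iff ok hN (hx2 x) (hx2 y)] at hsep2
  simp only [not_forall] at hsep2
  obtain ⟨θ2, hθ2, hne2⟩ := hsep2
  set τ := Ld.t ^ p ^ (a + L) with hτ
  have hAτ : Ld.φ.A τ = (p : ℤ) ^ (a + L) * 1 := by rw [hτ, Ld.A_t_pow]; push_cast; ring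
  have hu : ¬ (p : ℤ) ∣ 1 := pz_prime.not_dvd_one
  have hp1 : (1 : ℤ) ≤ p := by exact_mod_cast hp.out.one_le
  have h1τ : 1 ≤ Ld.φ.A τ := by rw [hAτ, mul_one]; exact one_le_pow₀ hp1
  have hτG : τ ∈ trbG hA hY θ2 := by
    have ht1 := (ha a le_rfl).2.1
    obtain ⟨d, hd0, hdL, hd⟩ := hL θ2 (Cx.Z1_mono (hker k2) hθ2) _ ht1
    rw [hτ, pow_add, pow_mul]
    refine ppow (a := k2) hd0 hdL ⟨N.pow_mem ht1 d, hd⟩ ⟨N.pow_mem ht1 _, ?_⟩
    rw [← pow_mul, mul_comm, pow_mul, hθ2.1.2 _ (Subgroup.pow_mem _ hτ2 _), sub_self]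
    exact Submodule.zero_mem _
  have hθ0 := Cx.tr_mem_Z1 (Ld.V_cov hN hle (show a + L ≤ k2 by omega)) (hY.mono inf_le_left) hθ2
  have hne0 := hne2
  rw [Ld.I_rel_tr (κ := a + L) (by omega) (by omega) (hx0 x) hθ2.1,
    Ld.I_rel_tr (κ := a + L) (by omega) (by omega) (hx0 y) hθ2.1] at hne0
  have hO : tr (Ld.V N (a + L)) (Ld.V N k2) θ2 ∈ trbO p hA X := by
    rw [Ld.φ.tr_gen (by omega) hτ0 hAτ hu hθ2.1.2]
    have h1 := Submodule.sum_mem _ fun i (_ : i ∈ Finset.range (p ^ (k2 - (a + L)))) =>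
      (Subgroup.pow_mem _ hτG i).2
    rwa [Finset.sum_sub_distrib, Finset.sum_const, Finset.card_range,
      ← Nat.cast_smul_eq_nsmul (ZMod p), Nat.cast_pow, ZMod.natCast_self,
      zero_pow (by omega), zero_smul, sub_zero] at h1
  generalize tr (Ld.V N (a + L)) (Ld.V N k2) θ2 = θ0 at hθ0 hne0 hO
  obtain ⟨hC0, η, ⟨hη1, B, hη2⟩, hη3⟩ := hO
  have hη3' : X.δ η = X.δ (mulF (trbH p Ld.φ.A 0) θ0) := hη3
  set ψ := mulF (trbH p Ld.φ.A 0) θ0 - η with hψ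
  have hψC : ψ ∈ C1 (ZMod p) hA.homOn.ker :=
    Submodule.sub_mem _ (mulF_mem (trbH_inv hA _) hC0) hη1
  have hψδ : X.δ ψ = 0 := by rw [hψ, map_sub, hη3', sub_self]
  have hψ1 : ∀ e : S × F, |B| < Ld.φ.A e.2 → ψ e = θ0 e := fun e he => by
    rw [hψ, Pi.sub_apply, hη2 e (((le_abs_self B).trans_lt he).trans_le (le_abs_self _)),
      mulF_apply, trbH, if_pos ((abs_nonneg B).trans he.le), one_mul, sub_zero]
  have hψ2 : ∀ e : S × F, Ld.φ.A e.2 < -|B| → ψ e = 0 := fun e he => by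
    have h1 := abs_nonneg B
    rw [hψ, Pi.sub_apply, hη2 e (((le_abs_self B).trans_lt (lt_neg.1 he)).trans_le (neg_le_abs _)),
      mulF_apply, trbH, if_neg (by omega), zero_mul, sub_zero]
  have hθτ : Rt τ θ0 = θ0 := hθ0.1.2 τ hτ0
  have hκ : ∀ e : S × F, |B| + Ld.φ.A τ < |Ld.φ.A e.2| → (Rt τ ψ - ψ) e = 0 := fun e he => by
    have h1 := hA e.2 τ hτ0.1
    rw [Pi.sub_apply, Rt_apply]
    rcases lt_abs.1 he with h | h
    · rw [hψ1 e (by omega), hψ1 _ (by simp only; omega), ← Rt_apply τ θ0, hθτ, sub_self]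
    · rw [hψ2 e (by omega), hψ2 _ (by simp only; omega), sub_self]
  refine ⟨(|B| + Ld.φ.A τ).toNat, a + L, fun k hk => ?_⟩
  have hq : τ ^ p ^ (k - (a + L)) ∈ N := N.pow_mem hτ0.1 _
  have hAq : Ld.φ.A (τ ^ p ^ (k - (a + L))) = (p : ℤ) ^ k := by
    rw [hτ, ← pow_mul, ← pow_add, Nat.add_sub_cancel' hk, Ld.A_t_pow]; push_cast; rfl
  have hmem : trbPer (τ ^ p ^ (k - (a + L))) (Rt τ ψ - ψ) ∈ C1 (ZMod p) (Ld.V N k) :=
    mem_C1.2 fun g hg => trbPer_Rt hA hq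
      (Submodule.sub_mem _ (trb_Rt_mem hA hτ0.1 hψC) hψC) hg.1 (by rw [hAq]; exact hg.2.2)
  refine ⟨_, ⟨hmem, trbPer_δ hA hY hq (by rw [hAq]; exact one_le_pow₀ hp1) hκ ?_⟩,
    fun e he => ?_, ?_⟩
  · rw [map_sub, ← Cx.Rt_δ hY hτ0.1, hψδ, map_zero, sub_self]
  · by_contra hc
    refine he (finsum_eq_zero_of_forall_eq_zero fun n => hκ _ (not_le.1 fun h => hc ⟨-n, ?_⟩))
    rw [hA _ _ (N.zpow_mem hq n), hA.homOn.zpow hq, hAq, smul_eq_mul] at h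
    rw [neg_mul, sub_neg_eq_add]
    exact h.trans (Int.self_le_toNat _)
  · rwa [Ld.I_rel_tr (κ := a + L) (by omega) hk (hx0 x) hmem,
      Ld.I_rel_tr (κ := a + L) (by omega) hk (hx0 y) hmem, Ld.φ.tr_gen hk hτ0 hAτ hu hmem.2,
      trbPer_sum hA hτ0.1 h1τ (pow_pos hp.out.pos _) hθτ hκ hψ1 hψ2]

end Pool.Agent.MP_702fe9_al.H61

end MrgPart2

-- ======== part 3: formerly Pool.Agent.MP_702fe9_al.h3.Sheets
section MrgPart3

set_option autoImplicit false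
set_option linter.unusedSectionVars false
set_option linter.unusedVariables false

namespace Pool.Agent.MP_702fe9_al.H61

open Module Filter

variable {p : ℕ} [hp : Fact p.Prime]

namespace Sheets

theorem sum_cosets {B J R : Type} [AddCommGroup B] [Fintype B] [Fintype J] [AddCommMonoid R]
    (Hs : AddSubgroup B) (φ : J → B) (hinj : Function.Injective φ) (h1 : ∀ j, φ j ∈ Hs)
    (h2 : ∀ b ∈ Hs, ∃ j, φ j = b) (val : B → R) (h : ∀ s, ∑ j, val (s - φ j) = 0) :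
    ∑ s, val s = 0 := by
  classical
  have hb : Function.Bijective (fun x : (B ⧸ Hs) × J => x.1.out - φ x.2) := by
    constructor
    · rintro ⟨κ, j⟩ ⟨κ', j'⟩ hx
      simp only at hx
      have e1 : κ = κ' := by
        rw [← QuotientAddGroup.out_eq' κ, ← QuotientAddGroup.out_eq' κ', QuotientAddGroup.eq]
        have : -κ.out + κ'.out = -φ j + φ j' := by
          rw [sub_eq_iff_eq_add] at hx
          rw [hx]; abel
        rw [this]
        exact Hs.add_mem (Hs.neg_mem (h1 j)) (h1 j')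
      subst e1
      rw [hinj (sub_right_injective hx)]
    · intro s
      obtain ⟨b, hb⟩ := QuotientAddGroup.mk_out_eq_add Hs s
      obtain ⟨j, hj⟩ := h2 b b.2
      exact ⟨(QuotientAddGroup.mk s, j), by simp only [hb, hj, add_sub_cancel_right]⟩
  rw [← Fintype.sum_bijective _ hb (fun x => val (x.1.out - φ x.2)) val (fun _ => rfl),
    Fintype.sum_prod_type]
  exact Finset.sum_eq_zero (fun κ _ => h κ.out)

namespace SD
variable {ι : Type} [Fintype ι] {X : Cx} {U : Subgroup F} {Ld : LoopData p X U} {N : Subgroup F}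
  (H : SD Ld N ι)

theorem V_le : Ld.V N H.k ≤ Ld.V N H.k1 := fun _ hg => ⟨hg.1, Ld.φ.tw_anti H.hk.le hg.2⟩

theorem cov2 (hN : Lev p X.KK N) : Cov p (Ld.V N H.k) (Ld.V H.N2 H.k) := by
  have h1 : Lev p ⊥ H.Th_add.homOn.ker :=
    ((Ld.V_lev hN H.k1).monoK bot_le).ker H.Th_add.homOn
      (fun κ hκ => by rw [Subgroup.mem_bot.mp hκ]; exact H.Th_add.homOn.one) (b := 1)
      (fun r => by funext i; simp)
  have h2 : Lev p ⊥ H.N2 := h1.of_le (fun n hn => (H.hN2 n).mpr ⟨hn.1, congrFun hn.2⟩)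
  refine (h2.inf ((Ld.φ.tw_lev Ld.lev H.k).monoK bot_le)).cov H.V2_le (fun g hg n hn => ?_)
  have hg1 := H.V_le hg
  have hn1 := H.V_le (H.V2_le hn)
  refine ⟨(H.hN2 _).mpr ⟨Subgroup.mul_mem _ (Subgroup.mul_mem _ (Subgroup.inv_mem _ hg1) hn1) hg1,
    congrFun (?_ : Th H.θ (g⁻¹ * n * g) = 0)⟩, Ld.φ.tw_conj _ hg.2.1 hn.2⟩
  rw [H.Th_add.homOn.conj hn1 hg1, H.Th_V2 hn]

theorem vt_mul (y : F) {g : F} (hg : g ∈ Ld.V N H.k1) : H.vt (y * g) = H.vt y := by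
  unfold vt
  rw [← H.Th_add.homOn.conj (H.rel y) hg, ← Ld.conj_pow_eq, ← Ld.conj_pow_eq]
  congr 1
  group

theorem vt_eq (y : F) (i : ι) : H.vt y i = I (Ld.rel H.k1) (H.θ i) y := by
  rw [I_eq_pot_conj (H.hθ i) (by rw [Ld.conj_pow_eq]; exact H.rel y), Ld.conj_pow_eq]
  rfl

open Classical in
/-- the winding of a sheet on a family of base points -/
noncomputable def fs (Y0 : ℕ → Set F) (c : ℤ) (s : ι → ZMod p) : ℕ × F → ZMod p :=
  fun e => if e.2 ∈ Y0 e.1 then I (Ld.rel H.k) (H.al c s) e.2 else 0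

theorem Rt_fs {Y0 : ℕ → Set F} (hY : YInv Y0 (Ld.V N H.k)) (c : ℤ) (s : ι → ZMod p) {g : F}
    (hg : g ∈ Ld.V N H.k) : Rt g (H.fs Y0 c s) = H.fs Y0 c (s - Th H.θ g) := by
  funext e
  rw [Rt_apply]
  unfold fs
  by_cases h : e.2 ∈ Y0 e.1
  · rw [if_pos h, if_pos (hY _ _ _ hg h), ← I_Rt, H.Rt_al c s hg]
  · rw [if_neg h, if_neg (fun h' => h ((hY.iff _ _ hg).mp h'))]

theorem fs_mem {Y0 : ℕ → Set F} (hY : YInv Y0 (Ld.V N H.k)) (c : ℤ) (s : ι → ZMod p) :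
    H.fs Y0 c s ∈ Fn (ZMod p) Y0 (Ld.V H.N2 H.k) :=
  ⟨fun _ he => if_neg he, fun g hg => by rw [H.Rt_fs hY c s (H.V2_le hg), H.Th_V2 hg, sub_zero]⟩

theorem exists_tr_ne (hN : Lev p X.KK N) {Y0 : ℕ → Set F} (hY : YInv Y0 (Ld.V N H.k)) {c : ℤ}
    (hc : (p : ℤ) ^ H.k1 ∣ c - H.c0) {j0 : ℕ} {y0 : F} (h0 : y0 ∈ Y0 j0) :
    ∃ s, tr (Ld.V N H.k) (Ld.V H.N2 H.k) (H.fs Y0 c s) (j0, y0) ≠ 0 := by
  classical
  by_contra hcon
  push Not at hcon
  have := (H.cov2 hN).finQ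
  have := Fintype.ofFinite (Qt (Ld.V N H.k) (Ld.V H.N2 H.k))
  have hT : HomOn (Ld.V N H.k) (Th H.θ) := H.Th_add.homOn.mono H.V_le
  let Hs : AddSubgroup (ι → ZMod p) :=
    { carrier := {b | ∃ g ∈ Ld.V N H.k, Th H.θ g = b}
      add_mem' := by
        rintro _ _ ⟨g, hg, rfl⟩ ⟨g', hg', rfl⟩
        exact ⟨g * g', Subgroup.mul_mem _ hg hg', hT g hg g' hg'⟩
      zero_mem' := ⟨1, Subgroup.one_mem _, hT.one⟩
      neg_mem' := by
        rintro _ ⟨g, hg, rfl⟩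
        exact ⟨g⁻¹, Subgroup.inv_mem _ hg, hT.inv hg⟩ }
  have key := sum_cosets Hs
    (fun q : Qt (Ld.V N H.k) (Ld.V H.N2 H.k) => Th H.θ ((q.out : Ld.V N H.k) : F))
    (fun q q' hq => by
      rw [← QuotientGroup.out_eq' q, ← QuotientGroup.out_eq' q', QuotientGroup.eq,
        Subgroup.mem_subgroupOf]
      have hm := (q.out⁻¹ * q'.out : Ld.V N H.k).2
      refine ⟨(H.hN2 _).mpr ⟨H.V_le hm, congrFun (?_ : Th H.θ _ = 0)⟩, hm.2⟩
      simp only at hq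
      rw [Subgroup.coe_mul, Subgroup.coe_inv, hT _ (Subgroup.inv_mem _ q.out.2) _ q'.out.2,
        hT.inv q.out.2, hq, neg_add_cancel])
    (fun q => ⟨_, q.out.2, rfl⟩)
    (by
      rintro _ ⟨g, hg, rfl⟩
      refine ⟨QuotientGroup.mk ⟨g, hg⟩, ?_⟩
      obtain ⟨h, hh⟩ := QuotientGroup.mk_out_eq_mul ((Ld.V H.N2 H.k).subgroupOf (Ld.V N H.k))
        (⟨g, hg⟩ : Ld.V N H.k)
      rw [hh, Subgroup.coe_mul, hT _ hg _ h.1.2, H.Th_V2 (g := (h.1 : F)) h.2, add_zero])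
    (fun s => I (Ld.rel H.k) (H.al c s) y0)
    (fun s => by
      have h1 := hcon s
      rw [tr_apply, Finset.sum_apply] at h1
      rw [← h1]
      refine Finset.sum_congr rfl (fun q _ => ?_)
      rw [H.Rt_fs hY c s q.out.2]
      exact (if_pos h0).symm)
  simp only [H.I_rel_al hc] at key
  rw [(H.line y0).sum_all c] at key
  exact c_ne (Ld := Ld) ((u_cast (Ld := Ld) y0).symm.trans key)

theorem exists_s (hN : Lev p X.KK N) {Y0 : ℕ → Set F} (hY : YInv Y0 (Ld.V N H.k)) {c : ℤ}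
    (hc : (p : ℤ) ^ H.k1 ∣ c - H.c0) {j0 : ℕ} {y0 : F} (h0 : y0 ∈ Y0 j0)
    (hone : ∀ j y, y ∈ Y0 j → j = j0 ∧ ∃ g ∈ Ld.V N H.k, y = y0 * g)
    (z : Module.Dual (ZMod p) (ℕ × F → ZMod p)) {f : ℕ × F → ZMod p}
    (hf : f ∈ Fn (ZMod p) Y0 (Ld.V H.N2 H.k)) (hz : z f ≠ 0) : ∃ s, z (H.fs Y0 c s) ≠ 0 := by
  by_contra hcon
  push Not at hcon
  have cov := H.cov2 hN
  have hfin : YFin Y0 := (Set.finite_singleton j0).subset (fun j ⟨y, hy⟩ => (hone j y hy).1)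
  have hle := cov.nak hY hfin (Submodule.span (ZMod p) (Set.range (H.fs Y0 c)))
    (by
      rw [Submodule.span_le]
      rintro _ ⟨s, rfl⟩
      exact H.fs_mem hY c s)
    (fun g hg v hv => by
      have : (Submodule.span (ZMod p) (Set.range (H.fs Y0 c))).map (Rt g) ≤
          Submodule.span (ZMod p) (Set.range (H.fs Y0 c)) := by
        rw [Submodule.map_span_le]
        rintro _ ⟨s, rfl⟩
        rw [H.Rt_fs hY c s hg]
        exact Submodule.subset_span ⟨_, rfl⟩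
      exact this ⟨v, hv, rfl⟩)
    (fun f' hf' => by
      obtain ⟨s, hs⟩ := H.exists_tr_ne hN hY hc h0
      have hm := cov.tr_mem hY (H.fs_mem hY c s)
      refine ⟨(f' (j0, y0) * (tr (Ld.V N H.k) (Ld.V H.N2 H.k) (H.fs Y0 c s) (j0, y0))⁻¹) •
        H.fs Y0 c s, Submodule.smul_mem _ _ (Submodule.subset_span ⟨s, rfl⟩), ?_⟩
      rw [map_smul]
      funext ⟨j, y⟩
      rw [Pi.smul_apply, smul_eq_mul]
      by_cases hy : y ∈ Y0 j
      · obtain ⟨rfl, g, hg, rfl⟩ := hone j y hy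
        rw [Fn.app hm _ _ hg, Fn.app hf' _ _ hg, mul_assoc, inv_mul_cancel₀ hs, mul_one]
      · rw [hm.1 (j, y) hy, hf'.1 (j, y) hy, mul_zero])
  apply hz
  have : Submodule.span (ZMod p) (Set.range (H.fs Y0 c)) ≤ LinearMap.ker z := by
    rw [Submodule.span_le]
    rintro _ ⟨s, rfl⟩
    exact hcon s
  exact this (hle hf)

/-- the base points with a given holonomy -/
def Yt (Y : Set F) (τ : ι → ZMod p) : ℕ → Set F := fun j => {y | j = X.m ∧ y ∈ Y ∧ H.vt y = τ}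

open Classical in
theorem TT_aa (Y : Set F) {c : ℤ} (hc : (p : ℤ) ^ H.k1 ∣ c - H.c0) {t : ℤ}
    (hb : (2 * |t| + 2) * (p * H.W) + H.R < H.Q) (s s' τ : ι → ZMod p) (hs : t = 0 → s' = s) :
    (X.ext (Ld.rel H.k) Y).TT (H.aa c s) (H.aa (c + H.W + 2 * t * (p * H.W)) (s' + H.lam • τ)) =
      if t = 0 then H.fs (H.Yt Y τ) c s else 0 := by
  funext ⟨j, y⟩
  have hz : (¬ (j = X.m ∧ y ∈ Y)) → (if t = 0 then H.fs (H.Yt Y τ) c s else 0) (j, y) = 0 := by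
    intro h
    split_ifs
    · exact if_neg (fun h' => h ⟨h'.1, h'.2.1⟩)
    · rfl
  by_cases h : y ∈ (X.ext (Ld.rel H.k) Y).Y j
  · rw [Cx.TT_pos _ _ _ h]
    by_cases hj : j = X.m
    · subst hj
      rw [Cx.ext_Y_self] at h
      rw [Cx.ext_ρ_self, H.T_rel_aa hc hb]
      by_cases ht : t = 0
      · rw [if_pos ht, hs ht]
        unfold fs
        by_cases hv : H.vt y = τ
        · rw [if_pos ⟨ht, by rw [hv]⟩, if_pos ⟨rfl, h, hv⟩]
        · rw [if_neg (fun h' => hv ?_), if_neg (fun h' => hv h'.2.2)]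
          exact (smul_right_injective _ H.lam_ne (add_left_cancel h'.2)).symm
      · rw [if_neg (fun h' => ht h'.1), if_neg ht]
        rfl
    · rw [Cx.ext_Y_ne _ _ _ hj] at h
      rw [Cx.ext_ρ_ne _ _ _ hj, H.T_aa_zero (H.locρ j (X.lt_of_mem h)) hb,
        hz (fun h' => hj h'.1)]
  · rw [Cx.TT_neg _ _ _ h, hz]
    rintro ⟨rfl, h'⟩
    rw [Cx.ext_Y_self] at h
    exact h h'

theorem rank (hN : Lev p X.KK N) (Reps : Set F)
    (hsep : ∀ y ∈ Reps, ∀ y' ∈ Reps, y ≠ y' →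
      ∃ i, I (Ld.rel H.k1) (H.θ i) y ≠ I (Ld.rel H.k1) (H.θ i) y')
    (r : ℕ) (hb : (2 * r + 2) * (p * H.W) + H.R < H.Q)
    (z : Module.Dual (ZMod p) (ℕ × F → ZMod p)) {f : ℕ × F → ZMod p}
    (hf : f ∈ Fn (ZMod p) (Ld.newX N Reps H.k).Y (Ld.V H.N2 H.k))
    (hf0 : ∀ e : ℕ × F, e.1 ≠ X.m → f e = 0) (hz : z f ≠ 0) :
    r ≤ rk ((Ld.newX N Reps H.k).cup p z) ((Ld.newX N Reps H.k).Z1 (ZMod p) (Ld.V H.N2 H.k))
      ((Ld.newX N Reps H.k).Z1 (ZMod p) (Ld.V H.N2 H.k)) := by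
  classical
  have hdec : f = ∑ τ : ι → ZMod p, mulF (fun y => if H.vt y = τ then 1 else 0) f := by
    funext e
    rw [Finset.sum_apply]
    simp only [mulF_apply]
    rw [← Finset.sum_mul, Finset.sum_ite_eq]
    simp
  rw [hdec, map_sum] at hz
  obtain ⟨τ, -, hτ⟩ := Finset.exists_ne_zero_of_sum_ne_zero hz
  have hY : YInv (H.Yt (Ld.newY N Reps H.k) τ) (Ld.V N H.k) := by
    rintro j _ g hg ⟨hj, ⟨y, hy, g', hg', rfl⟩, hv⟩
    exact ⟨hj, ⟨y, hy, g' * g, Subgroup.mul_mem _ hg' hg, mul_assoc _ _ _⟩,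
      by rw [H.vt_mul _ (H.V_le hg), hv]⟩
  have hfτ : mulF (fun y => if H.vt y = τ then 1 else 0) f ∈
      Fn (ZMod p) (H.Yt (Ld.newY N Reps H.k) τ) (Ld.V H.N2 H.k) := by
    refine ⟨fun e he => ?_, (mulF_mem (fun x g hg => ?_) hf).2⟩
    · rw [mulF_apply]
      by_cases hv : H.vt e.2 = τ
      · by_cases hj : e.1 = X.m
        · rw [hf.1 e (fun h' => he ⟨hj, ?_, hv⟩), mul_zero]
          rwa [hj, Cx.ext_Y_self] at h'
        · rw [hf0 e hj, mul_zero]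
      · rw [if_neg hv, zero_mul]
    · simp only [H.vt_mul x (H.V_le (H.V2_le hg))]
  obtain ⟨y0, hy0, hv0⟩ : ∃ y0 ∈ Reps, H.vt y0 = τ := by
    by_contra hcon
    apply hτ
    have : mulF (fun y => if H.vt y = τ then 1 else 0) f = 0 := by
      funext e
      refine hfτ.1 e ?_
      rintro ⟨-, ⟨y, hy, g, hg, he⟩, hv⟩
      rw [he, H.vt_mul _ (H.V_le hg)] at hv
      exact hcon ⟨y, hy, hv⟩
    rw [this, map_zero]
  have h0 : y0 ∈ H.Yt (Ld.newY N Reps H.k) τ X.m :=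
    ⟨rfl, ⟨y0, hy0, 1, Subgroup.one_mem _, (mul_one _).symm⟩, hv0⟩
  have hone : ∀ j y, y ∈ H.Yt (Ld.newY N Reps H.k) τ j →
      j = X.m ∧ ∃ g ∈ Ld.V N H.k, y = y0 * g := by
    rintro j _ ⟨hj, ⟨y, hy, g, hg, rfl⟩, hv⟩
    refine ⟨hj, g, hg, ?_⟩
    rw [H.vt_mul _ (H.V_le hg)] at hv
    by_cases hne : y = y0
    · rw [hne]
    · obtain ⟨i, hi⟩ := hsep y hy y0 hy0 hne
      rw [← H.vt_eq, ← H.vt_eq, hv, hv0] at hi
      exact absurd rfl hi
  let c : Fin r → ℤ := fun i => H.c0 + (2 * (i : ℕ) * p) * H.W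
  have hc : ∀ i, (p : ℤ) ^ H.k1 ∣ c i - H.c0 := fun i => H.dvd_W (by simp) _
  choose s hs using fun i => H.exists_s hN hY (hc i) h0 hone z hfτ hτ
  have := (H.cov2 hN).fin
  have := finite_C1 (R := ZMod p) (Ld.V H.N2 H.k)
  have : Module.Finite (ZMod p) ((Ld.newX N Reps H.k).Z1 (ZMod p) (Ld.V H.N2 H.k)) :=
    Submodule.finiteDimensional_of_le (Cx.Z1_le _)
  have key := rk_ge_of_inj ((Ld.newX N Reps H.k).cup p z)
    ((Ld.newX N Reps H.k).Z1 (ZMod p) (Ld.V H.N2 H.k))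
    ((Ld.newX N Reps H.k).Z1 (ZMod p) (Ld.V H.N2 H.k))
    (Fintype.linearCombination (ZMod p) (fun i => H.aa (c i) (s i)))
    (fun x => by
      rw [Fintype.linearCombination_apply]
      exact Submodule.sum_mem _ (fun i _ => Submodule.smul_mem _ _ (H.aa_mem _ (hc i) _)))
    (fun x hx => by
      funext i
      have hc' : (p : ℤ) ^ H.k1 ∣ c i + H.W - H.c0 := by simpa using H.dvd_W (hc i) 1
      have h1 := hx _ (H.aa_mem _ hc' (s i + H.lam • τ))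
      rw [Fintype.linearCombination_apply, map_sum, LinearMap.sum_apply] at h1
      have h2 : ∀ i', (Ld.newX N Reps H.k).cup p z (x i' • H.aa (c i') (s i'))
          (H.aa (c i + H.W) (s i + H.lam • τ)) =
          if i' = i then x i * z (H.fs (H.Yt (Ld.newY N Reps H.k) τ) (c i) (s i)) else 0 := by
        intro i'
        have hW : 0 ≤ p * H.W := by
          have h3 := H.R_nonneg
          have h4 : 2 * H.R < H.W := H.hW
          exact mul_nonneg (by positivity) (by omega)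
        have ht : |((i : ℕ) : ℤ) - (i' : ℕ)| ≤ r := by
          have h3 := i.2
          have h4 := i'.2
          rw [abs_le]; omega
        have h3 := H.TT_aa (Ld.newY N Reps H.k) (hc i') (t := ((i : ℕ) : ℤ) - (i' : ℕ))
          (lt_of_le_of_lt (add_le_add_left (mul_le_mul_of_nonneg_right (by omega) hW) _) hb)
          (s i') (s i) τ (fun h => by rw [show i = i' from Fin.ext (by omega)])
        rw [show c i' + H.W + 2 * (((i : ℕ) : ℤ) - (i' : ℕ)) * (p * H.W) = c i + H.W by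
          simp only [c]; ring] at h3
        rw [map_smul, LinearMap.smul_apply, Cx.cup_apply, h3, smul_eq_mul]
        by_cases hi : i' = i
        · subst hi
          rw [if_pos (sub_self _), if_pos rfl]
        · rw [if_neg (fun h => hi (Fin.ext (by omega))), if_neg hi, map_zero, mul_zero]
      simp only [h2, Finset.sum_ite_eq', Finset.mem_univ, if_true] at h1
      exact (mul_eq_zero.mp h1).resolve_right (hs i))
  simpa using key

end SD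

theorem exists_A {X : Cx} {U : Subgroup F} (Ld : LoopData p X U) :
    ∃ A : ℤ, 0 < A ∧ (∀ x, Ld.u x ∣ A) ∧ ¬ (p : ℤ) ∣ A := by
  have := Ld.lev.fin
  have hfin := finite_range_inv (M := Ld.M) Ld.u (fun y n hn => by
    have h1 := Ld.val (y * n)
    have h2 := Ld.val y
    have h3 : Ld.φ.A (Ld.a (y * n)) = Ld.φ.A (Ld.a y) := by
      rw [Ld.a_mul, Ld.φ.add.homOn.conj (Ld.a_mem y) hn]
    exact mul_left_cancel₀ (pow_ne_zero Ld.v pz_ne) (h1.symm.trans (h3.trans h2)))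
  refine ⟨∏ b ∈ hfin.toFinset, |b|, Finset.prod_pos (fun b hb => ?_), fun x => ?_, fun h => ?_⟩
  · obtain ⟨x, rfl⟩ := hfin.mem_toFinset.mp hb
    exact abs_pos.mpr (fun h => Ld.u_unit x (by rw [h]; exact dvd_zero _))
  · exact (self_dvd_abs _).trans
      (Finset.dvd_prod_of_mem (fun b => |b|) (hfin.mem_toFinset.mpr ⟨x, rfl⟩))
  · obtain ⟨b, hb, h'⟩ := (pz_prime.dvd_finsetProd_iff _).mp h
    obtain ⟨x, rfl⟩ := hfin.mem_toFinset.mp hb
    exact Ld.u_unit x ((dvd_abs _ _).mp h')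

theorem lt_pow_of_le {a : ℤ} {k : ℕ} (h : a.toNat ≤ k) : a < (p : ℤ) ^ k := by
  have h1 : k < p ^ k := Nat.lt_pow_self hp.out.one_lt
  have h2 : (k : ℤ) < (p : ℤ) ^ k := by exact_mod_cast h1
  omega

end Sheets

open Sheets in
theorem LoopData.sheets {X : Cx} {U : Subgroup F} (ok : X.Ok p U) (Ld : LoopData p X U)
    {N : Subgroup F} (hN : Lev p X.KK N) (hle : N ≤ Ld.M) (ρ0 : ℕ) :
    ∃ k10, ∀ k1, k10 ≤ k1 → ∀ {ι : Type} [Fintype ι] (θ : ι → S × F → ZMod p),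
      (∀ i, θ i ∈ X.Z1 (ZMod p) (Ld.V N k1)) →
      (∀ i (e : S × F), θ i e ≠ 0 → ∃ n : ℤ, |Ld.φ.A e.2 - n * (p : ℤ) ^ k1| ≤ ρ0) →
      ∀ Reps : Set F, Reps.Finite →
      (∀ y ∈ Reps, ∀ y' ∈ Reps, y ≠ y' → ∃ i, I (Ld.rel k1) (θ i) y ≠ I (Ld.rel k1) (θ i) y') →
      ∀ N2 : Subgroup F, (∀ n, n ∈ N2 ↔ n ∈ Ld.V N k1 ∧ ∀ i, pot (θ i) n = 0) →
      ∀ r : ℕ, ∃ k0, ∀ k, k0 ≤ k → ∀ z : Module.Dual (ZMod p) (ℕ × F → ZMod p),
        (∃ f ∈ Fn (ZMod p) (Ld.newX N Reps k).Y (Ld.V N2 k),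
          (∀ e : ℕ × F, e.1 ≠ X.m → f e = 0) ∧ z f ≠ 0) →
        r ≤ rk ((Ld.newX N Reps k).cup p z) ((Ld.newX N Reps k).Z1 (ZMod p) (Ld.V N2 k))
          ((Ld.newX N Reps k).Z1 (ZMod p) (Ld.V N2 k)) := by
  have := Ld.lev.fin
  obtain ⟨R, ⟨hw, hρ⟩, hR⟩ := (((ev_Loc Ld.φ.add Ld.w).and
    ((eventually_all_finset (Finset.range X.m)).mpr
      (fun j _ => ev_Loc Ld.φ.add (X.ρ j)))).and (eventually_ge_atTop (0 : ℤ))).exists
  obtain ⟨A, hA0, hA, hAp⟩ := exists_A Ld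
  obtain ⟨k0, hv, hk0⟩ := Ld.exists_rel_mem hN
  refine ⟨k0 + (2 * (ρ0 : ℤ) + 4 * R + 2).toNat, fun k1 hk1 ι _ θ hθ hband Reps _ hsep N2 hN2 r => ?_⟩
  have hP : 2 * (ρ0 : ℤ) + 4 * R + 2 < (p : ℤ) ^ k1 := lt_pow_of_le (by omega)
  refine ⟨k1 + 1 + ((2 * r + 2) * (p * (A * (p : ℤ) ^ k1)) + R).toNat,
    fun k hk z ⟨f, hf, hf0, hz⟩ => ?_⟩
  let H : SD Ld N ι :=
    { R := R, A := A, k1 := k1, k := k, c0 := ρ0 + 2 * R + 1, θ := θ, N2 := N2
      hv := by omega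
      hk := by omega
      locw := hw
      locρ := fun j hj => hρ j (Finset.mem_range.mpr hj)
      hA := hA
      hAp := hAp
      hW := by
        have h1 : 1 * (p : ℤ) ^ k1 ≤ A * (p : ℤ) ^ k1 :=
          mul_le_mul_of_nonneg_right (by omega) (by omega)
        omega
      hθ := fun i => (hθ i).1
      band := by
        rintro c ⟨a, ha⟩ y ⟨n, hn⟩ x hx i b
        by_contra hne
        obtain ⟨n', hn'⟩ := hband i (b, x) hne
        obtain ⟨l, hl⟩ : (p : ℤ) ^ k1 ∣ (p : ℤ) ^ k := pow_dvd_pow _ (by omega)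
        rw [hl] at hn
        rw [abs_le] at hn hx hn'
        simp only at hn'
        rcases le_or_gt n' (a + n * l) with h | h
        · have h1 : n' * (p : ℤ) ^ k1 ≤ (a + n * l) * (p : ℤ) ^ k1 :=
            mul_le_mul_of_nonneg_right h (by omega)
          linarith [hn.1, hx.1, hn'.2]
        · have h1 : (a + n * l + 1) * (p : ℤ) ^ k1 ≤ n' * (p : ℤ) ^ k1 :=
            mul_le_mul_of_nonneg_right h (by omega)
          linarith [hn.2, hx.2, hn'.1]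
      rel := (hk0 k1 (by omega)).1
      hN2 := hN2 }
  exact H.rank hN Reps hsep r (lt_pow_of_le (k := k) (by
    change ((2 * r + 2) * (p * (A * (p : ℤ) ^ k1)) + R).toNat ≤ k
    omega)) z hf hf0 hz

end Pool.Agent.MP_702fe9_al.H61

end MrgPart3

-- ======== part 4: formerly Pool.Agent.MP_702fe9_al.h26.End
section MrgPart4

set_option autoImplicit false
set_option linter.unusedSectionVars false

namespace Pool.Agent.MP_702fe9_al.H61

variable {p : ℕ} [hp : Fact p.Prime]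

def Cx.St (X : Cx) (p : ℕ) [Fact p.Prime] (U : Subgroup F) : Prop := X.Ok p U ∧ X.PP p U 0

def StepProp (p : ℕ) [Fact p.Prime] : Prop :=
  ∀ (X : Cx) (U : Subgroup F), X.St p U → ∀ (w : F) (V : Subgroup F) (n : ℕ), V.Normal →
    Lev p X.KK V → ∃ (X' : Cx) (U' : Subgroup F), X'.St p U' ∧ X.KK ≤ X'.KK ∧ U' ≤ V ∧
      n ≤ U'.index ∧ ∃ a : ℕ, ∀ N : Subgroup F, Lev p X'.KK N → w ^ (p ^ a) ∈ N

/-- the empty complex -/
def Cx.start : Cx := ⟨0, fun _ => 1, fun _ => ∅, fun _ _ => rfl⟩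

theorem start_St : Cx.start.St p ⊤ := by
  refine ⟨⟨fun j hj => absurd hj (Nat.not_lt_zero j), fun _ _ _ _ hx => hx,
    ⟨inferInstance, le_top, 0, fun _ => Subgroup.mem_top _⟩⟩, ?_, ?_⟩
  · rintro z ⟨-, y, hy, hz⟩
    exfalso
    apply hz
    have : y = 0 := funext (fun e => hy.1 e (fun h => h))
    rw [this, map_zero]
  · have : IsEmpty (Orb Cx.start.Y ⊤) := ⟨fun q => q.2⟩
    rw [nn, Nat.card_of_isEmpty, Subgroup.index_top]
    omega

/-- two elements of order dividing `p` in a cyclic quotient -/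
theorem mem_of_cyc {G : Type} [Group G] {D E : Subgroup G} [D.Normal] (hDE : D ≤ E)
    {g h u : G} {i j : ℤ} (hE : h ∈ E) (hD : h ∉ D) (hp1 : h ^ p ∈ D) (hp2 : g ^ p ∈ D)
    (hi : h⁻¹ * u ^ i ∈ D) (hj : g⁻¹ * u ^ j ∈ D) : g ∈ E := by
  set o := orderOf (QuotientGroup.mk u : G ⧸ D) with ho
  have hmem : ∀ k : ℤ, u ^ k ∈ D ↔ (o : ℤ) ∣ k := by
    intro k
    rw [ho, orderOf_dvd_iff_zpow_eq_one, ← QuotientGroup.mk_zpow, QuotientGroup.eq_one_iff]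
  have hpw : ∀ (x : G) (k : ℤ), x⁻¹ * u ^ k ∈ D → x ^ p ∈ D → (o : ℤ) ∣ k * p := by
    intro x k hx hxp
    rw [← hmem, zpow_mul, zpow_natCast, ← QuotientGroup.eq_one_iff, QuotientGroup.mk_pow,
      ← QuotientGroup.eq.mpr hx, ← QuotientGroup.mk_pow, QuotientGroup.eq_one_iff]
    exact hxp
  have h1 := hpw h i hi hp1
  have h2 := hpw g j hj hp2
  have h3 : ¬ (o : ℤ) ∣ i := by
    intro hc
    apply hD
    have := D.mul_mem ((hmem i).mpr hc) (D.inv_mem hi)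
    simpa using this
  have hpz : Prime (p : ℤ) := Nat.prime_iff_prime_int.mp hp.out
  have h4 : (p : ℤ) ∣ o := by
    by_contra hc
    exact h3 ((hpz.coprime_iff_not_dvd.mpr hc).symm.dvd_of_dvd_mul_right h1)
  obtain ⟨o', ho'⟩ := h4
  rw [ho', mul_comm (p : ℤ) o'] at h1 h2
  obtain ⟨i', rfl⟩ := (mul_dvd_mul_iff_right hpz.ne_zero).mp h1
  obtain ⟨j', rfl⟩ := (mul_dvd_mul_iff_right hpz.ne_zero).mp h2
  have h5 : ¬ (p : ℤ) ∣ i' := by
    intro hc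
    apply h3
    rw [ho', mul_comm (p : ℤ) o']
    exact mul_dvd_mul_left _ hc
  have h6 : u ^ o' ∈ E := by
    apply zpow_mem_of_coprime (p := p) (a := 1) h5
    · rw [← zpow_mul]
      simpa using E.mul_mem hE (hDE hi)
    · rw [pow_one, ← zpow_natCast, ← zpow_mul]
      apply hDE
      rw [hmem, ho', mul_comm]
  have h7 : u ^ (o' * j') ∈ E := by
    rw [zpow_mul]
    exact E.zpow_mem h6 _
  simpa using E.mul_mem h7 (E.inv_mem (hDE hj))

/-- a nontrivial element of `p`-power order has a power of order `p` -/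
theorem exists_order_p {G : Type} [Group G] {x : G} (hx : x ≠ 1) (hk : ∃ k : ℕ, x ^ (p ^ k) = 1) :
    ∃ k : ℕ, x ^ k ≠ 1 ∧ (x ^ k) ^ p = 1 := by
  classical
  have h0 : Nat.find hk ≠ 0 := by
    intro h0
    have := Nat.find_spec hk
    rw [h0, pow_zero, pow_one] at this
    exact hx this
  obtain ⟨k, hk'⟩ := Nat.exists_eq_succ_of_ne_zero h0
  refine ⟨p ^ k, Nat.find_min hk (by omega), ?_⟩
  have := Nat.find_spec hk
  rwa [hk', pow_succ, pow_mul] at this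

/-- the limit of a tower of normal levels -/
theorem limit (C : ℕ → Subgroup F) (hn : ∀ n, (C n).Normal) (hanti : Antitone C)
    (hfin : ∀ n, (C n).FiniteIndex) (hpp : ∀ n, ∃ a : ℕ, ∀ f : F, f ^ (p ^ a) ∈ C n)
    (hind : ∀ n, ∃ k, n ≤ (C k).index) (htor : ∀ w : F, ∃ a : ℕ, ∀ n, w ^ (p ^ a) ∈ C n)
    (hch : ∀ n, ∀ g h : F, g ∉ C n → (∀ k, g ^ p ∈ C k) → (∀ k, g⁻¹ * (h⁻¹ * g * h) ∈ C k) →
      ∃ u : F, (∃ i : ℤ, g⁻¹ * u ^ i ∈ C n) ∧ ∃ i : ℤ, h⁻¹ * u ^ i ∈ C n) :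
    ∃ (M : Subgroup F) (_ : M.Normal), Infinite (F ⧸ M) ∧
      (∀ g : F ⧸ M, g ≠ 1 → ∃ N : Subgroup (F ⧸ M), N.Normal ∧ N.FiniteIndex ∧
        (∀ x : F ⧸ M, ∃ k : ℕ, x ^ (p ^ k) ∈ N) ∧ g ∉ N) ∧
      (∀ x : F ⧸ M, ∃ k : ℕ, x ^ (p ^ k) = 1) ∧
      ∀ A : Subgroup (F ⧸ M), (∀ x ∈ A, ∀ y ∈ A, x * y = y * x) → (A : Set (F ⧸ M)).Finite := by
  have hM : (⨅ n, C n).Normal := Subgroup.normal_iInf_normal hn
  set M := ⨅ n, C n with hMdef
  have hle : ∀ n, M ≤ C n := fun n => iInf_le C n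
  have hone : ∀ f : F, (QuotientGroup.mk f : F ⧸ M) = 1 ↔ ∀ n, f ∈ C n := by
    intro f
    rw [QuotientGroup.eq_one_iff, hMdef, Subgroup.mem_iInf]
  have hmap : ∀ (n : ℕ) (f : F),
      (QuotientGroup.mk f : F ⧸ M) ∈ (C n).map (QuotientGroup.mk' M) ↔ f ∈ C n := by
    intro n f
    constructor
    · rintro ⟨y, hy, hyf⟩
      have h1 : y⁻¹ * f ∈ M := QuotientGroup.eq.mp hyf
      simpa using (C n).mul_mem hy (hle n h1)
    · intro hf
      exact ⟨f, hf, rfl⟩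
  have hnorm : ∀ n, ((C n).map (QuotientGroup.mk' M)).Normal :=
    fun n => (hn n).map _ (QuotientGroup.mk'_surjective M)
  have hfi : ∀ n, ((C n).map (QuotientGroup.mk' M)).FiniteIndex := by
    intro n
    constructor
    have := hfin n
    exact ne_zero_of_dvd_ne_zero Subgroup.FiniteIndex.index_ne_zero
      (Subgroup.index_map_dvd _ (QuotientGroup.mk'_surjective M))
  have htor' : ∀ x : F ⧸ M, ∃ k : ℕ, x ^ (p ^ k) = 1 := by
    intro x
    obtain ⟨w, rfl⟩ := QuotientGroup.mk_surjective x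
    obtain ⟨a, ha⟩ := htor w
    exact ⟨a, by rw [← QuotientGroup.mk_pow, hone]; exact ha⟩
  refine ⟨M, hM, ?_, ?_, htor', ?_⟩
  · by_contra hinf
    rw [not_infinite_iff_finite] at hinf
    have h0 : M.index ≠ 0 := Subgroup.index_ne_zero_of_finite
    obtain ⟨k, hk⟩ := hind (M.index + 1)
    have := Nat.le_of_dvd (Nat.pos_of_ne_zero h0) (Subgroup.index_dvd_of_le (hle k))
    omega
  · intro g hg
    obtain ⟨f, rfl⟩ := QuotientGroup.mk_surjective g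
    rw [Ne, hone, not_forall] at hg
    obtain ⟨n, hf⟩ := hg
    refine ⟨_, hnorm n, hfi n, fun x => ?_, fun h => hf ((hmap n f).mp h)⟩
    obtain ⟨y, rfl⟩ := QuotientGroup.mk_surjective x
    obtain ⟨a, ha⟩ := hpp n
    exact ⟨a, by rw [← QuotientGroup.mk_pow, hmap]; exact ha y⟩
  · intro A hA
    by_cases hbot : ∀ x ∈ A, x = 1
    · exact (Set.finite_singleton 1).subset (fun x hx => hbot x hx)
    push Not at hbot
    obtain ⟨x, hxA, hx⟩ := hbot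
    obtain ⟨k, hk1, hk2⟩ := exists_order_p hx (htor' x)
    have hgA : x ^ k ∈ A := A.pow_mem hxA k
    obtain ⟨g, hg⟩ := QuotientGroup.mk_surjective (x ^ k)
    rw [← hg] at hk1 hk2 hgA
    rw [Ne, hone, not_forall] at hk1
    rw [← QuotientGroup.mk_pow, hone] at hk2
    obtain ⟨n, hgn⟩ := hk1
    have key : ∀ y ∈ A, y ∈ (C n).map (QuotientGroup.mk' M) → y = 1 := by
      intro y hyA hyC
      by_contra hy
      obtain ⟨l, hl1, hl2⟩ := exists_order_p hy (htor' y)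
      have hhA : y ^ l ∈ A := A.pow_mem hyA l
      have hhC : y ^ l ∈ (C n).map (QuotientGroup.mk' M) := Subgroup.pow_mem _ hyC l
      obtain ⟨h, hh⟩ := QuotientGroup.mk_surjective (y ^ l)
      rw [← hh] at hl1 hl2 hhA hhC
      rw [Ne, hone, not_forall] at hl1
      rw [← QuotientGroup.mk_pow, hone] at hl2
      rw [hmap] at hhC
      obtain ⟨n', hhn⟩ := hl1
      have hnn : n ≤ n' := by
        by_contra hc
        exact hhn (hanti (by omega) hhC)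
      have hcomm : ∀ k, h⁻¹ * (g⁻¹ * h * g) ∈ C k := by
        rw [← hone]
        simp only [QuotientGroup.mk_mul, QuotientGroup.mk_inv]
        rw [mul_assoc, hA _ hhA _ hgA]
        group
      obtain ⟨u, ⟨i, hi⟩, ⟨j, hj⟩⟩ := hch n' h g hhn hl2 hcomm
      have := hn n'
      exact hgn (mem_of_cyc (p := p) (hanti hnn) hhC hhn (hl2 n') (hk2 n') hi hj)
    have := hfi n
    have := hnorm n
    refine Set.Finite.of_finite_image
      (f := fun y : F ⧸ M => (QuotientGroup.mk y : (F ⧸ M) ⧸ (C n).map (QuotientGroup.mk' M)))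
      (Set.toFinite _) ?_
    intro a ha b hb hab
    have h1 := key _ (A.mul_mem (A.inv_mem ha) hb) (QuotientGroup.eq.mp hab)
    exact inv_mul_eq_one.mp h1

theorem final (step : StepProp p) (ch : ∀ (X : Cx) (U : Subgroup F), X.St p U → X.CHProp p U) :
    ∃ (M : Subgroup F) (_ : M.Normal), Infinite (F ⧸ M) ∧
      (∀ g : F ⧸ M, g ≠ 1 → ∃ N : Subgroup (F ⧸ M), N.Normal ∧ N.FiniteIndex ∧
        (∀ x : F ⧸ M, ∃ k : ℕ, x ^ (p ^ k) ∈ N) ∧ g ∉ N) ∧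
      (∀ x : F ⧸ M, ∃ k : ℕ, x ^ (p ^ k) = 1) ∧
      ∀ A : Subgroup (F ⧸ M), (∀ x ∈ A, ∀ y ∈ A, x * y = y * x) → (A : Set (F ⧸ M)).Finite := by
  have hstep : ∀ (s : {s : Cx × Subgroup F // s.1.St p s.2}) (w : F) (n : ℕ),
      ∃ t : {s : Cx × Subgroup F // s.1.St p s.2}, s.1.1.KK ≤ t.1.1.KK ∧
        t.1.2 ≤ s.1.2.normalCore ∧ n ≤ t.1.2.index ∧
        (∃ a : ℕ, ∀ N : Subgroup F, Lev p t.1.1.KK N → w ^ (p ^ a) ∈ N) ∧
        ∀ g h : F, g ∉ s.1.2.normalCore → g ^ p ∈ t.1.2 → g⁻¹ * (h⁻¹ * g * h) ∈ t.1.2 →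
          ∃ u : F, (∃ i : ℤ, g⁻¹ * u ^ i ∈ s.1.2.normalCore) ∧
            ∃ i : ℤ, h⁻¹ * u ^ i ∈ s.1.2.normalCore := by
    rintro ⟨⟨X, U⟩, hs⟩ w n
    obtain ⟨b, hb⟩ := ch X U hs
    obtain ⟨V, hV1, hV2, hV3, hV4⟩ :=
      hb U.normalCore inferInstance hs.1.lev.core (Subgroup.normalCore_le U)
    obtain ⟨X', U', h1, h2, h3, h4, h5⟩ := step X U hs w V n hV1 hV2
    refine ⟨⟨(X', U'), h1⟩, h2, h3.trans hV3, h4, h5, fun g h hg hgp hc => ?_⟩
    obtain ⟨u, hu1, hu2, -⟩ := hV4 g h hg (h3 hgp) (h3 hc)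
    exact ⟨u, hu1, hu2⟩
  choose nx hK hU hI hT hC using hstep
  obtain ⟨w, hw⟩ := exists_surjective_nat F
  obtain ⟨s, hs⟩ : ∃ s : ℕ → {s : Cx × Subgroup F // s.1.St p s.2},
      ∀ n, nx (s n) (w n) n = s (n + 1) :=
    ⟨fun n => Nat.rec ⟨(Cx.start, ⊤), start_St⟩ (fun n t => nx t (w n) n) n, fun _ => rfl⟩
  have hK' := fun n => hK (s n) (w n) n
  have hU' := fun n => hU (s n) (w n) n
  have hI' := fun n => hI (s n) (w n) n
  have hT' := fun n => hT (s n) (w n) n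
  have hC' := fun n => hC (s n) (w n) n
  simp only [hs] at hK' hU' hI' hT' hC'
  clear hK hU hI hT hC hs
  have hlev : ∀ n, Lev p (s n).1.1.KK (s n).1.2.normalCore := fun n => (s n).2.1.lev.core
  have hanti : Antitone (fun n => (s n).1.2.normalCore) :=
    antitone_nat_of_succ_le (fun n => (Subgroup.normalCore_le _).trans (hU' n))
  have hmono : Monotone (fun n => (s n).1.1.KK) := monotone_nat_of_le_succ hK'
  refine limit (fun n => (s n).1.2.normalCore) (fun n => inferInstance) hanti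
    (fun n => (hlev n).fin) (fun n => (hlev n).pp) (fun n => ⟨n + 1, ?_⟩) (fun x => ?_)
    (fun n g h hg hgp hc => ?_)
  · have := (hlev (n + 1)).fin
    exact (hI' n).trans (Nat.le_of_dvd
      (Nat.pos_of_ne_zero Subgroup.FiniteIndex.index_ne_zero)
      (Subgroup.index_dvd_of_le (Subgroup.normalCore_le _)))
  · obtain ⟨n, rfl⟩ := hw x
    obtain ⟨a, ha⟩ := hT' n
    refine ⟨a, fun k => ?_⟩
    have h1 : (s (n + 1)).1.1.KK ≤ (s (k + (n + 1))).1.1.KK := hmono (Nat.le_add_left (n + 1) k)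
    have h2 : (s (k + (n + 1))).1.2.normalCore ≤ (s k).1.2.normalCore :=
      hanti (Nat.le_add_right k (n + 1))
    exact h2 (ha _ ((hlev (k + (n + 1))).monoK h1))
  · exact hC' n g h hg (Subgroup.normalCore_le _ (hgp (n + 1)))
      (Subgroup.normalCore_le _ (hc (n + 1)))

end Pool.Agent.MP_702fe9_al.H61

end MrgPart4

-- ======== part 5: formerly Pool.Agent.MP_702fe9_al.h61.Step
section MrgPart5

set_option autoImplicit false
set_option linter.unusedSectionVars false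

namespace Pool.Agent.MP_702fe9_al.H61

open Module

variable {p : ℕ} [hp : Fact p.Prime]

/-- the part of a two-cochain on one family of discs -/
def Pm {R : Type} [CommRing R] (m : ℕ) : (ℕ × F → R) →ₗ[R] (ℕ × F → R) where
  toFun f e := if e.1 = m then f e else 0
  map_add' f g := by funext e; simp only [Pi.add_apply]; split_ifs <;> simp
  map_smul' c f := by funext e; simp only [Pi.smul_apply, RingHom.id_apply]; split_ifs <;> simp

theorem Pm_pos {R : Type} [CommRing R] {m : ℕ} (f : ℕ × F → R) {e : ℕ × F} (h : e.1 = m) :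
    Pm m f e = f e := if_pos h

theorem Pm_neg {R : Type} [CommRing R] {m : ℕ} (f : ℕ × F → R) {e : ℕ × F} (h : e.1 ≠ m) :
    Pm m f e = 0 := if_neg h

/-- restriction to one family of discs -/
def Em {R : Type} [CommRing R] (m : ℕ) : (ℕ × F → R) →ₗ[R] (Unit × F → R) where
  toFun f e := f (m, e.2)
  map_add' _ _ := rfl
  map_smul' _ _ := rfl

theorem Pm_mem {R : Type} [CommRing R] (m : ℕ) {Y : ℕ → Set F} {W : Subgroup F} {f : ℕ × F → R}
    (hf : f ∈ Fn R Y W) : Pm m f ∈ Fn R Y W := by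
  refine ⟨fun e he => ?_, fun g hg => funext (fun e => ?_)⟩
  · by_cases h : e.1 = m
    · rw [Pm_pos _ h, hf.1 e he]
    · exact Pm_neg _ h
  · rw [Rt_apply]
    by_cases h : e.1 = m
    · rw [Pm_pos _ h, Pm_pos _ (by exact h)]
      exact Fn.app hf _ _ hg
    · rw [Pm_neg _ h, Pm_neg _ (by exact h)]

theorem nn_cosets (Reps : Set F) (hR : Reps.Finite) (W : Subgroup F) :
    nn (fun _ : Unit => {x | ∃ y ∈ Reps, ∃ g ∈ W, x = y * g}) W ≤ Reps.ncard := by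
  have : Finite Reps := hR
  refine Nat.card_le_card_of_surjective (α := Reps) (fun y =>
    (⟨((), QuotientGroup.mk (y : F)), ?_⟩ :
      Orb (fun _ : Unit => {x | ∃ y ∈ Reps, ∃ g ∈ W, x = y * g}) W)) ?_
  · obtain ⟨h, hh⟩ := QuotientGroup.mk_out_eq_mul W (y : F)
    exact ⟨y, y.2, h, h.2, hh⟩
  · rintro ⟨⟨i, q⟩, y, hy, g, hg, he⟩
    refine ⟨⟨y, hy⟩, Subtype.ext (Prod.ext rfl ?_)⟩
    change (QuotientGroup.mk y : F ⧸ W) = q
    rw [← QuotientGroup.out_eq' q, show q.out = y * g from he, QuotientGroup.mk_mul_of_mem y hg]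

namespace Cx

variable {X : Cx}

theorem PP.mono {N : Subgroup F} {L L' : ℕ} (h : X.PP p N L) (hL : L' ≤ L) : X.PP p N L' :=
  ⟨h.1.mono (by omega), by have := h.2; omega⟩

theorem Tower.shift {V : ℕ → Subgroup F} (h : X.Tower p V) (k1 : ℕ) :
    X.Tower p (fun k => V (k + k1)) := by
  obtain ⟨hl, ⟨C, hC⟩, hr⟩ := h
  refine ⟨fun k => hl _, ⟨C, fun k => hC _⟩, fun r => ?_⟩
  obtain ⟨k0, hk0⟩ := hr r
  exact ⟨k0, fun k hk => hk0 _ (by omega)⟩

section ext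
variable (ρ : F) (Y : Set F)

theorem ext_K {j : ℕ} (hj : j ≤ X.m) : (X.ext ρ Y).K j = X.K j := by
  unfold K
  congr 1
  ext g
  constructor
  · rintro ⟨i, hi, rfl⟩
    exact ⟨i, hi, X.ext_ρ_ne ρ Y (by omega)⟩
  · rintro ⟨i, hi, rfl⟩
    exact ⟨i, hi, (X.ext_ρ_ne ρ Y (by omega)).symm⟩

theorem KK_le_ext : X.KK ≤ (X.ext ρ Y).KK := by
  rw [KK, ← ext_K ρ Y le_rfl]
  exact (X.ext ρ Y).K_mono (Nat.le_succ _)

theorem ρ_mem_ext : ρ ∈ (X.ext ρ Y).KK := by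
  have := (X.ext ρ Y).ρ_mem (i := X.m) (j := X.m + 1) (Nat.lt_succ_self _)
  rwa [ext_ρ_self] at this

theorem ext_lev {W : Subgroup F} (hW : Lev p X.KK W) (h : ∀ x, x⁻¹ * ρ * x ∈ W) :
    Lev p (X.ext ρ Y).KK W := by
  refine ⟨hW.fin, le_trans ?_ (Subgroup.normalCore_le W), hW.pp⟩
  refine Subgroup.normalClosure_le_normal ?_
  rintro _ ⟨i, hi, rfl⟩
  by_cases him : i = X.m
  · rw [him, ext_ρ_self]
    intro x
    simpa using h x⁻¹
  · rw [X.ext_ρ_ne ρ Y him]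
    exact hW.core.le (X.ρ_mem (by change i < X.m + 1 at hi; omega))

theorem ext_relOK {j : ℕ} (hj : j < X.m) (h : X.RelOK p j) : (X.ext ρ Y).RelOK p j := by
  unfold RelOK at h ⊢
  rw [ext_K ρ Y hj.le, X.ext_ρ_ne ρ Y hj.ne, X.ext_Y_ne ρ Y hj.ne]
  exact h

variable {ρ Y}

theorem ext_yinv {W : Subgroup F} (hY : YInv X.Y W) (hY' : YInv (fun _ : Unit => Y) W) :
    YInv (X.ext ρ Y).Y W := by
  intro j x g hg hx
  by_cases h : j = X.m
  · rw [h, ext_Y_self] at hx ⊢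
    exact hY' () x g hg hx
  · rw [X.ext_Y_ne ρ Y h] at hx ⊢
    exact hY j x g hg hx

theorem ext_cut {R : Type} [CommRing R] (g g' : ℕ → F → R) (h : ∀ j, j ≠ X.m → g j = g' j) :
    (X.ext ρ Y).cutY g = X.cutY g' + Pm X.m ((X.ext ρ Y).cutY g) := by
  funext ⟨j, y⟩
  rw [Pi.add_apply]
  by_cases hj : j = X.m
  · rw [Pm_pos _ (by exact hj), X.cutY_neg _ (by rw [X.hY j hj.ge]; exact fun h => h), zero_add]
  · rw [Pm_neg _ (by exact hj), add_zero]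
    by_cases hy : y ∈ X.Y j
    · rw [X.cutY_pos _ hy, (X.ext ρ Y).cutY_pos _ (by rwa [X.ext_Y_ne ρ Y hj]), h j hj]
    · rw [X.cutY_neg _ hy, (X.ext ρ Y).cutY_neg _ (by rwa [X.ext_Y_ne ρ Y hj])]

theorem ext_δ {R : Type} [CommRing R] (χ : S × F → R) :
    (X.ext ρ Y).δ χ = X.δ χ + Pm X.m ((X.ext ρ Y).δ χ) :=
  ext_cut (fun j => I ((X.ext ρ Y).ρ j) χ) (fun j => I (X.ρ j) χ)
    (fun j hj => by simp only [X.ext_ρ_ne ρ Y hj])

theorem ext_TT {R : Type} [CommRing R] (α β : S × F → R) :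
    (X.ext ρ Y).TT α β = X.TT α β + Pm X.m ((X.ext ρ Y).TT α β) :=
  ext_cut (fun j => T ((X.ext ρ Y).ρ j) α β) (fun j => T (X.ρ j) α β)
    (fun j hj => by simp only [X.ext_ρ_ne ρ Y hj])

theorem ext_sub_Pm {R : Type} [CommRing R] {W : Subgroup F} {f : ℕ × F → R}
    (hf : f ∈ Fn R (X.ext ρ Y).Y W) : f - Pm X.m f ∈ Fn R X.Y W := by
  refine ⟨fun e he => ?_, (Submodule.sub_mem _ hf (Pm_mem _ hf)).2⟩
  rw [Pi.sub_apply]
  by_cases h : e.1 = X.m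
  · rw [Pm_pos _ h, sub_self]
  · rw [Pm_neg _ h, sub_zero]
    exact hf.1 e (by rwa [X.ext_Y_ne ρ Y h])

theorem Em_mem {R : Type} [CommRing R] {W : Subgroup F} {f : ℕ × F → R}
    (hf : f ∈ Fn R (X.ext ρ Y).Y W) : Em X.m f ∈ Fn R (fun _ : Unit => Y) W :=
  ⟨fun e he => hf.1 (X.m, e.2) (by rwa [ext_Y_self]),
    fun _ hg => funext (fun e => Fn.app hf X.m e.2 hg)⟩

theorem Pm_eq_zero {R : Type} [CommRing R] {m : ℕ} {f : ℕ × F → R} (h : Em m f = 0) :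
    Pm m f = 0 := by
  funext ⟨j, y⟩
  by_cases hj : j = m
  · rw [Pm_pos _ (by exact hj), hj]
    exact congrFun h ((), y)
  · exact Pm_neg _ (by exact hj)

theorem ext_nn {W : Subgroup F} [W.FiniteIndex] (hY : YInv X.Y W)
    (hY' : YInv (fun _ : Unit => Y) W) :
    nn (X.ext ρ Y).Y W ≤ nn X.Y W + nn (fun _ : Unit => Y) W := by
  have : Fact (Nat.Prime 2) := ⟨Nat.prime_two⟩
  have := fin2 (p := 2) (ext_yinv (ρ := ρ) hY hY')
  have := fin2 (p := 2) hY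
  have := finite_Fn (R := ZMod 2) hY' (yfin_of_finite _)
  have h1 := fr_map_add_ker (Em (R := ZMod 2) X.m) (Fn (ZMod 2) (X.ext ρ Y).Y W)
  have h2 : finrank (ZMod 2) ((Fn (ZMod 2) (X.ext ρ Y).Y W).map (Em (R := ZMod 2) X.m)) ≤
      finrank (ZMod 2) (Fn (ZMod 2) (fun _ : Unit => Y) W) := by
    apply fr_mono
    rintro _ ⟨f, hf, rfl⟩
    exact Em_mem hf
  have h3 : finrank (ZMod 2) (Fn (ZMod 2) (X.ext ρ Y).Y W ⊓ LinearMap.ker (Em (R := ZMod 2) X.m) :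
      Submodule (ZMod 2) (ℕ × F → ZMod 2)) ≤ finrank (ZMod 2) (Fn (ZMod 2) X.Y W) := by
    apply fr_mono
    intro f hf
    have := ext_sub_Pm hf.1
    rwa [Pm_eq_zero hf.2, sub_zero] at this
  rw [finrank_Fn (ext_yinv hY hY') (X.ext ρ Y).yfin] at h1
  rw [finrank_Fn hY' (yfin_of_finite _)] at h2
  rw [finrank_Fn hY X.yfin] at h3
  omega

theorem ext_Z1_le {R : Type} [CommRing R] (W : Subgroup F) : (X.ext ρ Y).Z1 R W ≤ X.Z1 R W := by
  intro χ hχ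
  refine ⟨hχ.1, ?_⟩
  have h1 := ext_δ (X := X) (ρ := ρ) (Y := Y) χ
  rw [show (X.ext ρ Y).δ χ = 0 from hχ.2, map_zero, add_zero] at h1
  exact h1.symm

theorem ext_Z1_codim {W : Subgroup F} [W.FiniteIndex] (hY : YInv X.Y W)
    (hY' : YInv (fun _ : Unit => Y) W) :
    finrank (ZMod p) (X.Z1 (ZMod p) W) ≤
      finrank (ZMod p) ((X.ext ρ Y).Z1 (ZMod p) W) + nn (fun _ : Unit => Y) W := by
  have := finZ (p := p) (X := X) W
  have := finZ (p := p) (X := X.ext ρ Y) W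
  have := finite_Fn (R := ZMod p) hY' (yfin_of_finite _)
  have h1 := fr_map_add_ker (Em (R := ZMod p) X.m ∘ₗ (X.ext ρ Y).δ) (X.Z1 (ZMod p) W)
  have h2 : finrank (ZMod p) ((X.Z1 (ZMod p) W).map (Em (R := ZMod p) X.m ∘ₗ (X.ext ρ Y).δ)) ≤
      finrank (ZMod p) (Fn (ZMod p) (fun _ : Unit => Y) W) := by
    apply fr_mono
    rintro _ ⟨χ, hχ, rfl⟩
    exact Em_mem (δ_mem (ext_yinv hY hY') hχ.1)
  have h3 : finrank (ZMod p) (X.Z1 (ZMod p) W ⊓
      LinearMap.ker (Em (R := ZMod p) X.m ∘ₗ (X.ext ρ Y).δ) :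
      Submodule (ZMod p) (S × F → ZMod p)) ≤ finrank (ZMod p) ((X.ext ρ Y).Z1 (ZMod p) W) := by
    apply fr_mono
    intro χ hχ
    refine ⟨hχ.1.1, ?_⟩
    change (X.ext ρ Y).δ χ = 0
    rw [ext_δ, Pm_eq_zero (f := (X.ext ρ Y).δ χ) hχ.2, show X.δ χ = 0 from hχ.1.2, add_zero]
  rw [finrank_Fn hY' (yfin_of_finite _)] at h2
  omega

theorem ext_h2 {W : Subgroup F} [W.FiniteIndex] (hY : YInv X.Y W)
    (hY' : YInv (fun _ : Unit => Y) W) :
    (X.ext ρ Y).h2 p W ≤ X.h2 p W + nn (fun _ : Unit => Y) W := by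
  have := finZ (p := p) (X := X) W
  have h1 := h2_add (p := p) hY
  have h2 := h2_add (p := p) (ext_yinv (ρ := ρ) hY hY')
  have h3 := Z1_add (p := p) (X := X) W
  have h4 := Z1_add (p := p) (X := X.ext ρ Y) W
  have h5 := fr_mono (ext_Z1_le (R := ZMod p) (X := X) (ρ := ρ) (Y := Y) W)
  have h6 := ext_nn (ρ := ρ) hY hY'
  rw [finrank_Fn hY X.yfin] at h1
  rw [finrank_Fn (ext_yinv hY hY') (X.ext ρ Y).yfin] at h2
  omega

theorem ext_good {W : Subgroup F} [W.FiniteIndex] (hY : YInv X.Y W)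
    (hY' : YInv (fun _ : Unit => Y) W) {r L : ℕ} (hL : nn (fun _ : Unit => Y) W ≤ L)
    (hg : X.Good p W (r + 2 * L))
    (hnew : ∀ z : Module.Dual (ZMod p) (ℕ × F → ZMod p),
      (∃ f ∈ Fn (ZMod p) (X.ext ρ Y).Y W, (∀ e : ℕ × F, e.1 ≠ X.m → f e = 0) ∧ z f ≠ 0) →
      r ≤ rk ((X.ext ρ Y).cup p z) ((X.ext ρ Y).Z1 (ZMod p) W) ((X.ext ρ Y).Z1 (ZMod p) W)) :
    (X.ext ρ Y).Good p W r := by
  intro z hz
  by_cases h : ∃ f ∈ Fn (ZMod p) (X.ext ρ Y).Y W, (∀ e : ℕ × F, e.1 ≠ X.m → f e = 0) ∧ z f ≠ 0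
  · exact hnew z h
  push Not at h
  have hY2 := ext_yinv (ρ := ρ) hY hY'
  have hP : ∀ f ∈ Fn (ZMod p) (X.ext ρ Y).Y W, z (Pm X.m f) = 0 := fun f hf =>
    h _ (Pm_mem _ hf) (fun e he => Pm_neg _ he)
  have hz' : X.Cyc p W z := by
    constructor
    · rintro _ ⟨χ, hχ, rfl⟩
      have h1 := hz.1 _ (δ_mem_B2 hχ)
      rwa [ext_δ, map_add, hP _ (δ_mem hY2 hχ), add_zero] at h1
    · obtain ⟨y, hy, hy0⟩ := hz.2
      exact ⟨_, ext_sub_Pm hy, by rwa [map_sub, hP y hy, sub_zero]⟩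
  have := finZ (p := p) (X := X) W
  have := finZ (p := p) (X := X.ext ρ Y) W
  have h1 := hg z hz'
  have h2 := ext_Z1_codim (p := p) (ρ := ρ) hY hY'
  have h3 := rk_left (X.cup p z) (X.Z1 (ZMod p) W) (ext_Z1_le W) h2
  have h4 := rk_right (X.cup p z) ((X.ext ρ Y).Z1 (ZMod p) W) (ext_Z1_le W) h2
  have h5 : rk ((X.ext ρ Y).cup p z) ((X.ext ρ Y).Z1 (ZMod p) W) ((X.ext ρ Y).Z1 (ZMod p) W) =
      rk (X.cup p z) ((X.ext ρ Y).Z1 (ZMod p) W) ((X.ext ρ Y).Z1 (ZMod p) W) := by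
    refine rk_congr (fun α hα β hβ => ?_)
    rw [cup_apply, cup_apply, ext_TT, map_add, hP _ (TT_mem hY2 hα.1 hβ.1), add_zero]
  omega

end ext

end Cx

theorem stepProp (h3 : 3 ≤ p) : StepProp p := by
  rintro X U ⟨ok, hP⟩ w V n hV hVl
  by_cases hw : ∃ a : ℕ, ∀ N : Subgroup F, Lev p X.KK N → w ^ (p ^ a) ∈ N
  · obtain ⟨φ, k, hk⟩ := Cx.exists_deep h3 ok ok.lev le_rfl hP hVl
      (fun g _ m hm => hV.conj_mem' m hm g) n
    refine ⟨X, V ⊓ φ.tw p k, ⟨⟨ok.rel, ok.inv.mono (inf_le_right.trans (φ.tw_le k)),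
      hVl.inf (φ.tw_lev ok.lev k)⟩, hk.mono (Nat.zero_le _)⟩, le_rfl, inf_le_left, ?_, hw⟩
    have := hk.2
    omega
  push Not at hw
  obtain ⟨Ld, a0, ha0⟩ := Cx.exists_loopData h3 ok hP w hw
  obtain ⟨N, hN, hle, hNV, hnorm, Reps, hfin, hsep, ke, hke⟩ :=
    Ld.ean h3 ok (ok.ch (ok.modelPS hP)) (Ld.injProp h3 ok) V hV hVl
  let ι : Type := {q : Reps × Reps // (q.1 : F) ≠ q.2}
  have : Finite Reps := hfin
  have := Fintype.ofFinite ι
  have htr := fun i : ι => Ld.tr_band ok hN hle i.1.1 i.1.2 (hsep _ i.1.1.2 _ i.1.2.2 i.2)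
  choose ρi ki hi using htr
  obtain ⟨k10, hk10⟩ := Ld.sheets ok hN hle (Finset.univ.sup ρi)
  obtain ⟨k1, hk1, hk1'⟩ : ∃ k1, k10 ≤ k1 ∧ ∀ i, ki i ≤ k1 :=
    ⟨k10 + Finset.univ.sup ki, by omega, fun i =>
      (Finset.le_sup (f := ki) (Finset.mem_univ i)).trans (Nat.le_add_left _ _)⟩
  choose θ hθ hθs hθn using fun i => hi i k1 (hk1' i)
  have hα : HomOn (Ld.V N k1) (fun x => (fun i => pot (θ i) x)) := by
    intro a _ b hb
    funext i
    exact pot_addOn (hθ i).1 a b hb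
  have hN2 : Lev p X.KK hα.ker := (Ld.V_lev hN k1).ker hα
    (fun κ hκ => funext (fun i => ok.pot_kill (Ld.V_lev hN k1) (hθ i) κ hκ)) (b := 1)
    (fun r => by funext i; simp)
  have hN2le : hα.ker ≤ Ld.V N k1 := fun _ h => h.1
  have hN2n : ∀ g ∈ Ld.V N k1, ∀ m ∈ hα.ker, g⁻¹ * m * g ∈ hα.ker := fun g hg m hm =>
    ⟨Subgroup.mul_mem _ (Subgroup.mul_mem _ (Subgroup.inv_mem _ hg) hm.1) hg,
      (hα.conj hm.1 hg).trans hm.2⟩
  have hsh := hk10 k1 hk1 θ hθ (fun i e he => by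
      obtain ⟨l, hl⟩ := hθs i e he
      refine ⟨l, hl.trans ?_⟩
      exact_mod_cast Finset.le_sup (f := ρi) (Finset.mem_univ i)) Reps hfin
    (fun y hy y' hy' hne => ⟨⟨(⟨y, hy⟩, ⟨y', hy'⟩), hne⟩, hθn _⟩) hα.ker
    (fun m => ⟨fun h => ⟨h.1, fun i => congrFun h.2 i⟩, fun h => ⟨h.1, funext h.2⟩⟩)
  generalize hα.ker = N2 at hN2 hN2le hN2n hsh
  have hVk : ∀ k, Ld.V N (k + k1) ≤ Ld.V N k1 := fun k =>
    inf_le_inf_left _ (Ld.φ.tw_anti (Nat.le_add_left _ _))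
  have hVeq : ∀ k, N2 ⊓ Ld.V N k = Ld.V N2 k := fun k => by
    rw [← inf_assoc, inf_eq_left.mpr (hN2le.trans inf_le_left)]
  obtain ⟨hl, ⟨C, hC⟩, hr⟩ := ((Ld.tower_V ok hN hnorm).shift k1).inf
    (fun k => Ld.yinv ok (Ld.V_le N _)) hN2 (fun k g hg => hN2n g (hVk k hg))
  simp only [hVeq] at hl hC hr
  have := hN2.fin
  set L := N2.index * Reps.ncard with hL
  obtain ⟨ks, hks⟩ := hsh (2 * (C + L) + 2)
  obtain ⟨kr, hkr⟩ := hr (2 * (C + L) + 2 + 2 * L + n)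
  obtain ⟨km, -, hkm⟩ := Ld.exists_rel_mem hN2
  obtain ⟨k', h1, h2, h4, h5⟩ : ∃ k', ks ≤ k' + k1 ∧ kr ≤ k' ∧ km ≤ k' + k1 ∧ ke ≤ k' + k1 :=
    ⟨ks + kr + km + ke, by omega, by omega, by omega, by omega⟩
  have hg := hkr k' h2
  have hC' := hC k'
  have hlev := hl k'
  have hV1 := hVk k'
  generalize k' + k1 = k at h1 h4 h5 hg hC' hlev hV1
  have := hlev.fin
  have hle2 : Ld.V N2 k ≤ Ld.V N k := inf_le_inf_right _ (hN2le.trans inf_le_left)
  have hcov : Cov p (Ld.V N k) (Ld.V N2 k) := hlev.cov hle2 (fun g hg m hm =>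
    ⟨hN2n g (hV1 hg) m hm.1, Ld.φ.tw_conj k hg.2.1 hm.2⟩)
  have hY1 : YInv (fun _ : Unit => Ld.newY N Reps k) (Ld.V N k) := by
    rintro _ _ g hg ⟨y, hy, g', hg', rfl⟩
    exact ⟨y, hy, g' * g, Subgroup.mul_mem _ hg' hg, mul_assoc _ _ _⟩
  have hY' := hY1.mono hle2
  have hY : YInv X.Y (Ld.V N2 k) := Ld.yinv ok (Ld.V_le N2 k)
  have hnn : nn (fun _ : Unit => Ld.newY N Reps k) (Ld.V N2 k) ≤ L := by
    refine (hcov.nn_le hY1 (yfin_of_finite _)).trans (Nat.mul_le_mul ?_ (nn_cosets Reps hfin _))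
    rw [← hVeq, Subgroup.inf_relIndex_right, ← Subgroup.relIndex_top_right]
    exact Subgroup.relIndex_le_of_le_right le_top
      (by rw [Subgroup.relIndex_top_right]; exact Subgroup.FiniteIndex.index_ne_zero)
  have h6 := Cx.ext_h2 (p := p) (ρ := Ld.rel k) hY hY'
  have h7 := Cx.ext_nn (ρ := Ld.rel k) hY hY'
  have h8 := hg.2
  refine ⟨Ld.newX N Reps k, Ld.V N2 k, ⟨⟨fun j hj => ?_, Cx.ext_yinv hY hY',
    Cx.ext_lev _ _ hlev (fun x => by rw [Ld.conj_pow_eq]; exact (hkm k h4).1 x)⟩, ?_, ?_⟩,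
    Cx.KK_le_ext _ _, inf_le_left.trans (hN2le.trans (inf_le_left.trans hNV)), by omega,
    a0 + (k - Ld.v), fun N' hN' => hN'.le ?_⟩
  · rcases Nat.lt_succ_iff_lt_or_eq.mp hj with hj | rfl
    · exact Cx.ext_relOK _ _ hj (ok.rel j hj)
    · unfold Cx.RelOK
      rw [Cx.ext_K _ _ le_rfl, Cx.ext_ρ_self, Cx.ext_Y_self]
      exact hke k h5
  · refine (Cx.ext_good hY hY' hnn (hg.1.mono (Nat.le_add_right _ _)) (hks k h1)).mono ?_
    change 2 * (X.ext (Ld.rel k) (Ld.newY N Reps k)).h2 p (Ld.V N2 k) + 0 + 2 ≤ _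
    omega
  · change nn (X.ext (Ld.rel k) (Ld.newY N Reps k)).Y (Ld.V N2 k) + 0 < _
    omega
  · rw [pow_add, pow_mul, ← ha0]
    exact Cx.ρ_mem_ext _ _

theorem main (h3 : 3 ≤ p) :
    ∃ (M : Subgroup F) (_ : M.Normal), Infinite (F ⧸ M) ∧
      (∀ g : F ⧸ M, g ≠ 1 → ∃ N : Subgroup (F ⧸ M), N.Normal ∧ N.FiniteIndex ∧
        (∀ x : F ⧸ M, ∃ k : ℕ, x ^ (p ^ k) ∈ N) ∧ g ∉ N) ∧
      (∀ x : F ⧸ M, ∃ k : ℕ, x ^ (p ^ k) = 1) ∧
      ∀ A : Subgroup (F ⧸ M), (∀ x ∈ A, ∀ y ∈ A, x * y = y * x) → (A : Set (F ⧸ M)).Finite :=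
  final (stepProp h3) (fun _ _ st => st.1.ch (st.1.modelPS st.2))

end Pool.Agent.MP_702fe9_al.H61

end MrgPart5

-- marker of a merged file
example : 731051 + 689230 = 731051 + 689230 := rfl
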